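import Pool.Agent.Work.MP_c4d05f_lc.N.Str.Brg2

/-!
# The bridge lemma (module `Brg`, size S-M)

`E`: edge items, `M`: node items. If no source node outside `S` is joined to a leaf in `H - S` then
all `f ∈ E` and all edges at `m ∈ M`, `m ∉ S`, satisfy `IsBr D S`. By `hp` there is one. Then
`two_bridges`, and `br_node` for `m ∈ M` with `m ∈ S`; `br_card`.
-/

set_option autoImplicit false

namespace Pool.Agent.Work.MP_c4d05f_lc.Str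

open Pool.Agent.Work.MP_5f857a_co.L (Con)
open Pool.Agent.Work.MP_c4d05f_lc.N (Clean)
open Pool.Agent.Work.MP_c4d05f_lc.Hav (Anti Apart)

variable {V : Type} {G : SimpleGraph V} {L : Set V} {D : PF G}

theorem bridge [Finite V] (hc : Clean G) (fr : D.Frame L) {S : Finset (Option V)}
    (hS : S.card ≤ 2) {E : Set V} {M : Set (Option V)} (hE : E ⊆ D.F) (hM : ∀ m ∈ M, D.Two m)
    (hsep : ∀ x, x ∉ S → (x ∈ M ∨ ∃ f ∈ E, x ∈ D.e f) → ∀ d, D.Leaf d →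
      ¬ Con D.H (S : Set (Option V))ᶜ x d)
    (hp : E.Nonempty ∨ ∃ m ∈ M, m ∉ S) :
    S.card = 2 ∧ ∀ f g, (f ∈ E ∨ ∃ m ∈ M, f ∈ D.st m) → (g ∈ E ∨ ∃ m ∈ M, g ∈ D.st m) →
      D.rg f g := by
  have hEb : ∀ f ∈ E, IsBr D S f := by
    intro f hf
    by_cases h : ∃ x ∈ D.e f, x ∉ S
    · obtain ⟨x, hx, hxS⟩ := h
      exact ⟨hE hf, Or.inl ⟨x, hx, hxS, hsep x hxS (Or.inr ⟨f, hf, hx⟩)⟩⟩
    · push Not at h
      exact ⟨hE hf, Or.inr h⟩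
  have hMb : ∀ m ∈ M, m ∉ S → ∀ f ∈ D.st m, IsBr D S f := fun m hm hmS f hf =>
    ⟨hf.1, Or.inl ⟨m, hf.2, hmS, hsep m hmS (Or.inl hm)⟩⟩
  obtain ⟨f₀, hf₀⟩ : ∃ f, IsBr D S f := by
    rcases hp with ⟨f, hf⟩ | ⟨m, hm, hmS⟩
    · exact ⟨f, hEb f hf⟩
    · obtain ⟨f, hf⟩ := (hM m hm).ne_empty
      exact ⟨f, hMb m hm hmS f hf⟩
  have key : ∀ f, (f ∈ E ∨ ∃ m ∈ M, f ∈ D.st m) → D.rg f₀ f := by
    rintro f (hf | ⟨m, hm, hf⟩)
    · exact two_bridges hc fr hS hf₀ (hEb f hf)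
    · by_cases hmS : m ∈ S
      · exact br_node hc fr hS hf₀ hmS (hM m hm) hf
      · exact two_bridges hc fr hS hf₀ (hMb m hm hmS f hf)
  exact ⟨br_card hc fr hS hf₀, fun f g hf hg => PF.rg_trans (PF.rg_symm (key f hf)) (key g hg)⟩

end Pool.Agent.Work.MP_c4d05f_lc.Str
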