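import Pool.Agent.Work.MP_c4d05f_lc.N.Str.Bas

/-!
# Basic facts on legs (module `LegB`, size S-M)
-/

set_option autoImplicit false

namespace Pool.Agent.Work.MP_c4d05f_lc.Str

open Pool.Agent.Work.MP_5f857a_co.L (Con)
open Pool.Agent.Work.MP_c4d05f_lc.N (Clean)
open Pool.Agent.Work.MP_c4d05f_lc.Hav (Anti Apart)

variable {V : Type} {G : SimpleGraph V} {L : Set V} {D : PF G}

/-- `PF.exists_ins` for the reversed walk; `D.st d = {t}`; `t ∈ L` by `fr.leaf`. -/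
theorem leaf_edge (fr : D.Frame L) {J : Set (Option V)} {x d : Option V} (h : Con D.H J x d)
    (hne : x ≠ d) (hd : D.Leaf d) : ∃ t ∈ L, t ∈ D.ins J ∧ d ∈ D.e t ∧ D.st d = {t} := by
  obtain ⟨t, ht, hdt⟩ := PF.exists_ins (Pool.Agent.Work.MP_5f857a_co.L.Con.symm h) hne.symm
  obtain ⟨f, hf⟩ := hd
  have htf : t ∈ D.st d := ⟨ht.1, hdt⟩
  rw [hf, Set.mem_singleton_iff] at htf
  subst htf
  exact ⟨t, fr.leaf d t hf, ht, hdt, hf⟩

/-- If `x = d` then `D.st d = {f}` and `f ∈ L`. Otherwise `leaf_edge` and `PF.con_of`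
(the edge `t` is in `ins J`). -/
theorem leg_con (fr : D.Frame L) {J : Set (Option V)} {x : Option V} {f : V} (hf : f ∈ D.st x)
    (h : ∃ d, D.Leaf d ∧ Con D.H J x d) : ∃ t ∈ L, Con G (insert f (D.ins J)) f t := by
  obtain ⟨d, hd, hc⟩ := h
  by_cases hxd : x = d
  · subst hxd
    obtain ⟨f', hf'⟩ := hd
    have h1 : f = f' := by
      rw [hf', Set.mem_singleton_iff] at hf
      exact hf
    subst h1
    exact ⟨f, fr.leaf x f hf', con_refl (Set.mem_insert _ _)⟩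
  · obtain ⟨t, htL, htJ, hdt, hst⟩ := leaf_edge fr hc hxd hd
    refine ⟨t, htL, con_mono (PF.con_of hc hf (g := t) ⟨htJ.1, hdt⟩) ?_⟩
    rintro z (rfl | rfl | hz)
    · exact Set.mem_insert _ _
    · exact Set.mem_insert_of_mem _ htJ
    · exact Set.mem_insert_of_mem _ hz

/-- `PF.exists_ins` and `leg_con`. -/
theorem leg_con' (fr : D.Frame L) {J : Set (Option V)} {x : Option V} (hx : ¬ D.Leaf x)
    (h : ∃ d, D.Leaf d ∧ Con D.H J x d) :
    ∃ f ∈ D.ins J, x ∈ D.e f ∧ ∃ t ∈ L, Con G (D.ins J) f t := by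
  obtain ⟨d, hd, hc⟩ := h
  have hxd : x ≠ d := by
    rintro rfl
    exact hx hd
  obtain ⟨f, hf, hxf⟩ := PF.exists_ins hc hxd
  obtain ⟨t, htL, hct⟩ := leg_con fr (f := f) (x := x) ⟨hf.1, hxf⟩ ⟨d, hd, hc⟩
  refine ⟨f, hf, hxf, t, htL, con_mono hct ?_⟩
  rintro z (rfl | hz)
  · exact hf
  · exact hz

theorem leg_mono {X Y : Set (Option V)} {a : Option V} {J : Set (Option V)} (h : D.Leg X a J)
    (hY : Y ⊆ X) (ha : a ∈ Y) : D.Leg Y a J :=
  ⟨ha, fun x hx hxY => h.only x hx (hY hxY), h.con, h.lf⟩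

theorem leg_leaf {X : Set (Option V)} {a : Option V} {J : Set (Option V)} (h : D.Leg X a J) :
    a ∈ J ∧ ∃ d, D.Leaf d ∧ Con D.H J a d := by
  obtain ⟨d, hd, hl⟩ := h.lf
  have hc := h.con d hd
  exact ⟨Pool.Agent.Work.MP_5f857a_co.L.Con.left hc, d, hl, hc⟩

end Pool.Agent.Work.MP_c4d05f_lc.Str
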