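import Pool.Agent.Work.MP_c4d05f_lc.N.Str.Bas
import Pool.Agent.Work.MP_c4d05f_lc.N.Str.LegB

/-!
# Extensions of pre-frames (module `Sub`, size M)

`D.F ⊆ D'.F` and `D'.e = D.e` on `D.F`. Then `D.H ≤ D'.H`, `D.st x ⊆ D'.st x`.
-/

set_option autoImplicit false

namespace Pool.Agent.Work.MP_c4d05f_lc.Str

open Pool.Agent.Work.MP_5f857a_co.L (Con)
open Pool.Agent.Work.MP_c4d05f_lc.N (Clean)
open Pool.Agent.Work.MP_c4d05f_lc.Hav (Anti Apart)

variable {V : Type} {G : SimpleGraph V} {L : Set V} {D : PF G}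

theorem h_le {D' : PF G} (hF : D.F ⊆ D'.F) (he : ∀ f ∈ D.F, D'.e f = D.e f) : D.H ≤ D'.H := by
  rintro x y ⟨hxy, f, hf, hx, hy⟩
  exact ⟨hxy, f, hF hf, by rw [he f hf]; exact hx, by rw [he f hf]; exact hy⟩

theorem st_sub {D' : PF G} (hF : D.F ⊆ D'.F) (he : ∀ f ∈ D.F, D'.e f = D.e f) (x : Option V) :
    D.st x ⊆ D'.st x := by
  rintro f ⟨hf, hx⟩
  exact ⟨hF hf, by rw [he f hf]; exact hx⟩

/-- A node which is not an end of a new edge has the same star. -/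
theorem st_eq {D' : PF G} (hF : D.F ⊆ D'.F) (he : ∀ f ∈ D.F, D'.e f = D.e f) {x : Option V}
    (hx : ∀ f ∈ D'.F, f ∉ D.F → x ∉ D'.e f) : D'.st x = D.st x := by
  refine Set.Subset.antisymm ?_ (st_sub hF he x)
  rintro f ⟨hf, hxf⟩
  have hfD : f ∈ D.F := by
    by_contra hcon
    exact hx f hf hcon hxf
  exact ⟨hfD, by rw [← he f hfD]; exact hxf⟩

/-- Old nodes of degree three are not separated from the leaves in the extension, if the old leaves
are still leaves: `fr.fr4` and `Con.mono`. -/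
theorem fr4_old {D' : PF G} (fr : D.Frame L) (hF : D.F ⊆ D'.F) (he : ∀ f ∈ D.F, D'.e f = D.e f)
    (hl : ∀ d, D.Leaf d → D'.Leaf d) {x : Option V} (hx : D.Three x) (S : Finset (Option V))
    (hS : S.card ≤ 2) (hxS : x ∉ S) :
    ∃ d, D'.Leaf d ∧ Con D'.H (S : Set (Option V))ᶜ x d := by
  obtain ⟨d, hd, hc⟩ := fr.fr4 x hx S hS hxS
  exact ⟨d, hl d hd, hc.mono (h_le hF he) subset_rfl⟩

/-- More nodes of degree three: `Set.ncard_lt_ncard` (`Option V` is finite). -/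
theorem n3_lt [Finite V] {D' : PF G} (h : ∀ x, D.Three x → D'.Three x) {m : Option V}
    (hm : ¬ D.Three m) (hm' : D'.Three m) : D.n3 < D'.n3 := by
  refine Set.ncard_lt_ncard ?_ (Set.toFinite _)
  exact ⟨fun x hx => h x hx, fun hcon => hm (hcon hm')⟩

end Pool.Agent.Work.MP_c4d05f_lc.Str
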