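import Pool.Agent.Work.MP_c4d05f_lc.N.Str.PathX
import Pool.Agent.Work.MP_c4d05f_lc.N.Str.Sub
import Pool.Agent.Work.MP_c4d05f_lc.N.Str.Brg

/-!
# A bigger frame from an ear (module `FrEar`, size L)

`ear` gives `D'` (`m ≠ m'` because of `hrg`). `D'.st m = insert (u 0) (D.st m)` and
`D'.st m' = insert (u n) (D.st m')` have three elements; `D'.st (some (u i)) = {u i, u (i + 1)}` for
`i < n`; the star of every other node is the old one (`st_eq`; `some (u n)` has an empty star).
Frame: `leaf`: there are no new leaves (old leaves are not `m`, `m'`). `con`, `one`, `two`: clear.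
`fr4`: old nodes of degree three: `fr4_old`. `x = m` (and `x = m'` by symmetry): suppose that `m` is not
joined to a leaf in `D'.H - S`. Then `m` is not joined to a leaf in `D.H - S`; `bridge` with
`E = ∅`, `M = {m}`, `S` filtered to the nodes which are not new (walks of `D.H` from `m` do not meet new
nodes) gives that this set has two elements, so no element of `S` is a new node. So `m` is joined to
`m'` along the ear in `D'.H - S` if `m' ∉ S`, and `m'` is then not joined to a leaf in `D.H - S`. In both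
cases `bridge` with `E = ∅`, `M = {m, m'}` and `S` (`m ∉ S`) gives `rg` for the edges at `m` and `m'`,
against `hrg`. `n3`: `n3_lt` with `m`.
-/

set_option autoImplicit false

namespace Pool.Agent.Work.MP_c4d05f_lc.Str

open Pool.Agent.Work.MP_5f857a_co.L (Con)
open Pool.Agent.Work.MP_c4d05f_lc.N (Clean)
open Pool.Agent.Work.MP_c4d05f_lc.Hav (Anti Apart)

variable {V : Type} {G : SimpleGraph V} {L : Set V} {D : PF G}

private theorem fr4_new [Finite V] (hc : Clean G) (fr : D.Frame L) {D' : PF G}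
    (hsub : D.F ⊆ D'.F) (he : ∀ f ∈ D.F, D'.e f = D.e f) (hlf : ∀ d, D.Leaf d → D'.Leaf d)
    {m m' : Option V} (hm : D.Two m) (hm' : D.Two m')
    (hrg : ∀ f ∈ D.st m, ∀ g ∈ D.st m', ¬ D.rg f g)
    (hear : ∀ S : Set (Option V), (∀ s, s ∉ S → (D.st s).Nonempty) → m ∈ S → m' ∈ S →
      Con D'.H S m m')
    (S : Finset (Option V)) (hS : S.card ≤ 2) (hmS : m ∉ S) :
    ∃ d, D'.Leaf d ∧ Con D'.H (S : Set (Option V))ᶜ m d := by
  classical
  by_contra hcon
  push Not at hcon
  have hle := h_le hsub he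
  set S0 := S.filter (fun s => (D.st s).Nonempty) with hS0
  have hlift : ∀ d, Con D.H (S0 : Set (Option V))ᶜ m d →
      Con D.H (S : Set (Option V))ᶜ m d := by
    intro d h
    have h2 := h.restrict (P := {x | (D.st x).Nonempty}) hm.ne_empty (by
      intro x y _ _ hxy _
      obtain ⟨_, f, hf, _, hy⟩ := hxy
      exact ⟨f, hf, hy⟩)
    refine h2.mono le_rfl ?_
    rintro x ⟨hx1, hx2⟩ hx3
    apply hx2
    rw [hS0]
    exact Finset.mem_coe.2 (Finset.mem_filter.2 ⟨Finset.mem_coe.1 hx3, hx1⟩)
  have hA : ∀ d, D.Leaf d → ¬ Con D.H (S : Set (Option V))ᶜ m d :=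
    fun d hd h => hcon d (hlf d hd) (h.mono hle subset_rfl)
  have hmS0 : m ∉ S0 := fun h => hmS (Finset.mem_filter.1 h).1
  have hb := bridge hc fr (S := S0) ((Finset.card_filter_le _ _).trans hS) (E := ∅) (M := {m})
    (Set.empty_subset _) (by
      intro x hx
      rw [Set.mem_singleton_iff] at hx
      rw [hx]
      exact hm) (by
      rintro x hxS (hx | ⟨f, hf, _⟩) d hd hcd
      · rw [Set.mem_singleton_iff] at hx
        subst hx
        exact hA d hd (hlift d hcd)
      · exact hf) (Or.inr ⟨m, rfl, hmS0⟩)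
  have hS0S : S0 = S := Finset.eq_of_subset_of_card_le (Finset.filter_subset _ _)
    (by rw [hb.1]; exact hS)
  have hb2 := bridge hc fr (S := S) hS (E := ∅) (M := {m, m'}) (Set.empty_subset _) (by
      rintro x (rfl | hx)
      · exact hm
      · rw [Set.mem_singleton_iff] at hx
        rw [hx]
        exact hm') (by
      rintro x hxS (hx | ⟨f, hf, _⟩) d hd hcd
      · rcases hx with rfl | hx
        · exact hA d hd hcd
        · rw [Set.mem_singleton_iff] at hx
          subst hx
          apply hcon d (hlf d hd)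
          refine (hear _ ?_ hmS hxS).trans (hcd.mono hle subset_rfl)
          intro s hs
          have hs' : s ∈ S := by
            by_contra h
            exact hs (by simpa using h)
          rw [← hS0S] at hs'
          exact (Finset.mem_filter.1 hs').2
      · exact hf) (Or.inr ⟨m, Set.mem_insert _ _, hmS⟩)
  obtain ⟨f, hf⟩ := hm.ne_empty
  obtain ⟨g, hg⟩ := hm'.ne_empty
  exact hrg f hf g hg (hb2.2 f g (Or.inr ⟨m, Set.mem_insert _ _, hf⟩)
    (Or.inr ⟨m', Set.mem_insert_of_mem _ rfl, hg⟩))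

theorem frame_ear [Finite V] (hc : Clean G) (fr : D.Frame L) {m m' : Option V} (hm : D.Two m)
    (hm' : D.Two m') (hrg : ∀ f ∈ D.st m, ∀ g ∈ D.st m', ¬ D.rg f g) (n : ℕ) (hn : 1 ≤ n)
    (u : ℕ → V) (hu : IndPath G n u) (huF : ∀ i ≤ n, u i ∉ D.F)
    (h0 : ∀ f ∈ D.F, G.Adj (u 0) f ↔ m ∈ D.e f)
    (hl : ∀ f ∈ D.F, G.Adj (u n) f ↔ m' ∈ D.e f)
    (h1 : ∀ i, 1 ≤ i → i < n → ∀ f ∈ D.F, ¬ G.Adj (u i) f) :
    ∃ D' : PF G, D'.Frame L ∧ D.n3 < D'.n3 := by
  classical
  have hmm : m ≠ m' := by
    rintro rfl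
    obtain ⟨f, hf⟩ := hm.ne_empty
    exact hrg f hf f hf (PF.rg_refl f)
  obtain ⟨D', hF, he, e0, ei, en⟩ := ear D hm.ne_empty hm'.ne_empty hmm n hn u hu huF h0 hl h1
  have hsub : D.F ⊆ D'.F := by rw [hF]; exact Set.subset_union_left
  have hle := h_le hsub he
  have uinj : ∀ i ≤ n, ∀ j ≤ n, u i = u j → i = j := by
    intro i hi j hj h
    rcases lt_trichotomy i j with h2 | h2 | h2
    · exact absurd h (hu i j h2 hj).1
    · exact h2
    · exact absurd h.symm (hu j i h2 hi).1
  have uF' : ∀ i ≤ n, u i ∈ D'.F := by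
    intro i hi
    rw [hF]
    exact Or.inr ⟨i, hi, rfl⟩
  have old : ∀ x, (D.st x).Nonempty → ∀ i ≤ n, x ≠ some (u i) := by
    rintro x ⟨f, hf⟩ i hi rfl
    exact huF i hi (D.nm f hf.1 _ hf.2)
  have endsN : ∀ i ≤ n, ∀ x, x ∈ D'.e (u i) → (i = 0 ∧ x = m) ∨ (i = n ∧ x = m') ∨
      (∃ j < n, x = some (u j) ∧ (i = j ∨ i = j + 1)) := by
    intro i hi x hx
    rcases Nat.eq_zero_or_pos i with h | h
    · subst h
      rw [e0, Sym2.mem_iff] at hx
      rcases hx with h2 | h2
      · exact Or.inl ⟨rfl, h2⟩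
      · exact Or.inr (Or.inr ⟨0, by omega, h2, Or.inl rfl⟩)
    · rcases Nat.lt_or_ge i n with h3 | h3
      · obtain ⟨k, rfl⟩ : ∃ k, i = k + 1 := ⟨i - 1, by omega⟩
        rw [ei k h3, Sym2.mem_iff] at hx
        rcases hx with h2 | h2
        · exact Or.inr (Or.inr ⟨k, by omega, h2, Or.inr rfl⟩)
        · exact Or.inr (Or.inr ⟨k + 1, h3, h2, Or.inl rfl⟩)
      · have h4 : i = n := by omega
        subst h4
        rw [en, Sym2.mem_iff] at hx
        rcases hx with h2 | h2
        · exact Or.inr (Or.inr ⟨i - 1, by omega, h2, Or.inr (by omega)⟩)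
        · exact Or.inr (Or.inl ⟨rfl, h2⟩)
  have inN : ∀ j < n, some (u j) ∈ D'.e (u j) ∧ some (u j) ∈ D'.e (u (j + 1)) := by
    intro j hj
    constructor
    · rcases Nat.eq_zero_or_pos j with h | h
      · subst h
        rw [e0]
        simp
      · obtain ⟨k, rfl⟩ : ∃ k, j = k + 1 := ⟨j - 1, by omega⟩
        rw [ei k hj]
        simp
    · rcases Nat.lt_or_ge (j + 1) n with h3 | h3
      · rw [ei j h3]
        simp
      · have h4 : n = j + 1 := by omega
        subst h4
        rw [en]
        simp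
  have stm : D'.st m = insert (u 0) (D.st m) := by
    ext f
    constructor
    · rintro ⟨hf, hx⟩
      rw [hF] at hf
      rcases hf with hf | ⟨i, hi, rfl⟩
      · exact Or.inr ⟨hf, by rw [← he f hf]; exact hx⟩
      · rcases endsN i hi m hx with ⟨h, _⟩ | ⟨_, h⟩ | ⟨j, hj, h, _⟩
        · subst h
          exact Or.inl rfl
        · exact absurd h hmm
        · exact absurd h (old m hm.ne_empty j (by omega))
    · rintro (rfl | ⟨hf, hx⟩)
      · exact ⟨uF' 0 (by omega), by rw [e0]; simp⟩
      · exact ⟨hsub hf, by rw [he f hf]; exact hx⟩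
  have stm' : D'.st m' = insert (u n) (D.st m') := by
    ext f
    constructor
    · rintro ⟨hf, hx⟩
      rw [hF] at hf
      rcases hf with hf | ⟨i, hi, rfl⟩
      · exact Or.inr ⟨hf, by rw [← he f hf]; exact hx⟩
      · rcases endsN i hi m' hx with ⟨_, h⟩ | ⟨h, _⟩ | ⟨j, hj, h, _⟩
        · exact absurd h.symm hmm
        · subst h
          exact Or.inl rfl
        · exact absurd h (old m' hm'.ne_empty j (by omega))
    · rintro (rfl | ⟨hf, hx⟩)
      · exact ⟨uF' n le_rfl, by rw [en]; simp⟩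
      · exact ⟨hsub hf, by rw [he f hf]; exact hx⟩
  have stn : ∀ j < n, D'.st (some (u j)) = {u j, u (j + 1)} := by
    intro j hj
    ext f
    simp only [Set.mem_insert_iff, Set.mem_singleton_iff]
    constructor
    · rintro ⟨hf, hx⟩
      rw [hF] at hf
      rcases hf with hf | ⟨i, hi, rfl⟩
      · rw [he f hf] at hx
        exact absurd (D.nm f hf _ hx) (huF j (by omega))
      · rcases endsN i hi _ hx with ⟨_, h⟩ | ⟨_, h⟩ | ⟨k, hk, h, h2⟩
        · exact absurd h.symm (old m hm.ne_empty j (by omega))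
        · exact absurd h.symm (old m' hm'.ne_empty j (by omega))
        · have h3 : j = k := uinj j (by omega) k (by omega) (Option.some.inj h)
          subst h3
          rcases h2 with rfl | rfl
          · exact Or.inl rfl
          · exact Or.inr rfl
    · rintro (rfl | rfl)
      · exact ⟨uF' j (by omega), (inN j hj).1⟩
      · exact ⟨uF' (j + 1) (by omega), (inN j hj).2⟩
  have sto : ∀ x, x ≠ m → x ≠ m' → (∀ j < n, x ≠ some (u j)) → D'.st x = D.st x := by
    intro x hx1 hx2 hx3
    refine st_eq hsub he ?_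
    intro f hf hfF hx
    rw [hF] at hf
    rcases hf with hf | ⟨i, hi, rfl⟩
    · exact hfF hf
    · rcases endsN i hi x hx with ⟨_, h⟩ | ⟨_, h⟩ | ⟨j, hj, h, _⟩
      · exact hx1 h
      · exact hx2 h
      · exact hx3 j hj h
  have hlf' : ∀ x, D.Leaf x → x ≠ m ∧ x ≠ m' ∧ ∀ j < n, x ≠ some (u j) := by
    intro x hx
    refine ⟨?_, ?_, ?_⟩
    · rintro rfl
      exact hx.not_two hm
    · rintro rfl
      exact hx.not_two hm'
    · intro j hj
      exact old x hx.ne_empty j (by omega)
  have hlf : ∀ d, D.Leaf d → D'.Leaf d := by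
    intro d hd
    obtain ⟨h2, h3, h4⟩ := hlf' d hd
    obtain ⟨f, hf⟩ := hd
    exact ⟨f, by rw [sto d h2 h3 h4]; exact hf⟩
  -- the ear
  have hearj : ∀ S : Set (Option V), (∀ j < n, some (u j) ∈ S) → m ∈ S → ∀ j < n,
      Con D'.H S m (some (u j)) := by
    intro S hS hmS j
    induction j with
    | zero =>
      intro hj
      refine con_adj (PF.h_adj_of (uF' 0 (by omega)) (by rw [e0]; simp) (inN 0 hj).1 ?_) hmS
        (hS 0 hj)
      exact old m hm.ne_empty 0 (by omega)
    | succ j ih =>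
      intro hj
      refine (ih (by omega)).trans (con_adj (PF.h_adj_of (uF' (j + 1) (by omega))
        (inN j (by omega)).2 (inN (j + 1) hj).1 ?_) (hS j (by omega)) (hS (j + 1) hj))
      intro h
      exact absurd (uinj j (by omega) (j + 1) (by omega) (Option.some.inj h)) (by omega)
  have hear : ∀ S : Set (Option V), (∀ j < n, some (u j) ∈ S) → m ∈ S → m' ∈ S →
      Con D'.H S m m' := by
    intro S hS hmS hmS'
    refine (hearj S hS hmS (n - 1) (by omega)).trans (con_adj (PF.h_adj_of (uF' n le_rfl)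
      (by rw [en]; simp) (by rw [en]; simp) ?_) (hS (n - 1) (by omega)) hmS')
    exact (old m' hm'.ne_empty (n - 1) (by omega)).symm
  have hear' : ∀ S : Set (Option V), (∀ s, s ∉ S → (D.st s).Nonempty) → m ∈ S → m' ∈ S →
      Con D'.H S m m' := by
    intro S hS
    refine hear S ?_
    intro j hj
    by_contra h
    exact old _ (hS _ h) j (by omega) rfl
  -- degrees
  obtain ⟨a, b, hab, hst⟩ := hm
  have hma : D'.st m = {u 0, a, b} := by rw [stm, hst]
  obtain ⟨a', b', hab', hst'⟩ := hm'
  have hma' : D'.st m' = {u n, a', b'} := by rw [stm', hst']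
  have hm : D.Two m := ⟨a, b, hab, hst⟩
  have hm' : D.Two m' := ⟨a', b', hab', hst'⟩
  have haF : a ∈ D.F := (show a ∈ D.st m by rw [hst]; simp).1
  have hbF : b ∈ D.F := (show b ∈ D.st m by rw [hst]; simp).1
  have haF' : a' ∈ D.F := (show a' ∈ D.st m' by rw [hst']; simp).1
  have hbF' : b' ∈ D.F := (show b' ∈ D.st m' by rw [hst']; simp).1
  have h3m : D'.Three m := by
    refine ⟨u 0, a, b, ?_, ?_, hab, hma⟩
    · intro h
      exact huF 0 (by omega) (by rw [h]; exact haF)
    · intro h
      exact huF 0 (by omega) (by rw [h]; exact hbF)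
  have h3m' : D'.Three m' := by
    refine ⟨u n, a', b', ?_, ?_, hab', hma'⟩
    · intro h
      exact huF n le_rfl (by rw [h]; exact haF')
    · intro h
      exact huF n le_rfl (by rw [h]; exact hbF')
  have h2n : ∀ j < n, D'.Two (some (u j)) := by
    intro j hj
    refine ⟨u j, u (j + 1), ?_, stn j hj⟩
    exact (hu j (j + 1) (by omega) (by omega)).1
  have hthree : ∀ x, D.Three x → D'.Three x := by
    intro x hx
    have hx1 : x ≠ m := by
      rintro rfl
      exact hm.not_three hx
    have hx2 : x ≠ m' := by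
      rintro rfl
      exact hm'.not_three hx
    have hs := sto x hx1 hx2 (fun j hj => old x hx.ne_empty j (by omega))
    obtain ⟨f, g, k, q1, q2, q3, q4⟩ := hx
    exact ⟨f, g, k, q1, q2, q3, hs.trans q4⟩
  refine ⟨D', ⟨?_, ?_, ?_, ?_, ?_⟩, n3_lt hthree hm.not_three h3m⟩
  · -- leaf
    intro x f hx
    have hxl : D'.Leaf x := ⟨f, hx⟩
    have hx1 : x ≠ m := by
      rintro rfl
      exact hxl.not_three h3m
    have hx2 : x ≠ m' := by
      rintro rfl
      exact hxl.not_three h3m'
    have hx3 : ∀ j < n, x ≠ some (u j) := by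
      rintro j hj rfl
      exact hxl.not_two (h2n j hj)
    exact fr.leaf x f (by rw [← sto x hx1 hx2 hx3]; exact hx)
  · -- con
    have toM : ∀ x, (D'.st x).Nonempty → Con D'.H Set.univ m x := by
      intro x hx
      by_cases hx1 : x = m
      · subst hx1
        exact con_refl (Set.mem_univ _)
      by_cases hx2 : x = m'
      · subst hx2
        exact (fr.con m x hm.ne_empty hm'.ne_empty).mono hle subset_rfl
      by_cases hx3 : ∃ j < n, x = some (u j)
      · obtain ⟨j, hj, rfl⟩ := hx3
        exact hearj Set.univ (fun _ _ => Set.mem_univ _) (Set.mem_univ _) j hj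
      · push Not at hx3
        rw [sto x hx1 hx2 hx3] at hx
        exact (fr.con m x hm.ne_empty hx).mono hle subset_rfl
    intro x y hx hy
    exact (toM x hx).symm.trans (toM y hy)
  · -- one
    obtain ⟨x, hx⟩ := fr.one
    exact ⟨x, hlf x hx⟩
  · -- two
    intro f hf
    by_cases hfa : f = a
    · exact ⟨b, hsub hbF, by rw [hfa]; exact hab.symm⟩
    · exact ⟨a, hsub haF, fun h => hfa h.symm⟩
  · -- fr4
    intro x hx S hS hxS
    by_cases hx1 : x = m
    · subst hx1
      exact fr4_new hc fr hsub he hlf hm hm' hrg hear' S hS hxS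
    by_cases hx2 : x = m'
    · subst hx2
      exact fr4_new hc fr hsub he hlf hm' hm (fun f hf g hg h => hrg g hg f hf (PF.rg_symm h))
        (fun S h2 h3 h4 => (hear' S h2 h4 h3).symm) S hS hxS
    have hx3 : ∀ j < n, x ≠ some (u j) := by
      rintro j hj rfl
      exact (h2n j hj).not_three hx
    have hx4 : D.Three x := by
      obtain ⟨f, g, k, q1, q2, q3, q4⟩ := hx
      exact ⟨f, g, k, q1, q2, q3, (sto x hx1 hx2 hx3).symm.trans q4⟩
    exact fr4_old fr hsub he hlf hx4 S hS hxS

end Pool.Agent.Work.MP_c4d05f_lc.Str
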