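import Pool.Agent.Work.MP_c4d05f_lc.N.Str.Legs
import Pool.Agent.Work.MP_c4d05f_lc.N.Str.Brg

/-!
# Three legs, two legs (module `Legs3`, size S-M)

`legs` with `k = 3` (`k = 2`) and `X = {x | x ∈ M ∨ ∃ f ∈ E, x ∈ D.e f}`. If some `S` with
`S.card ≤ 2` separates, `bridge` gives that all items are in one rung, against `hne` (for `k = 2`:
`S.card = 2`).
-/

set_option autoImplicit false

namespace Pool.Agent.Work.MP_c4d05f_lc.Str

open Pool.Agent.Work.MP_5f857a_co.L (Con)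
open Pool.Agent.Work.MP_c4d05f_lc.N (Clean)
open Pool.Agent.Work.MP_c4d05f_lc.Hav (Anti Apart)

variable {V : Type} {G : SimpleGraph V} {L : Set V} {D : PF G}

theorem legs3 [Finite V] (hc : Clean G) (fr : D.Frame L) {E : Set V} {M : Set (Option V)}
    (hE : E ⊆ D.F) (hM : ∀ m ∈ M, D.Two m) (hE0 : E.Nonempty)
    (hne : ¬ ∀ f g, (f ∈ E ∨ ∃ m ∈ M, f ∈ D.st m) → (g ∈ E ∨ ∃ m ∈ M, g ∈ D.st m) → D.rg f g) :
    ∃ (a : Fin 3 → Option V) (J : Fin 3 → Set (Option V)),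
      (∀ i, D.Leg {x | x ∈ M ∨ ∃ f ∈ E, x ∈ D.e f} (a i) (J i)) ∧
      ∀ i j, i ≠ j → Disjoint (J i) (J j) := by
  refine legs D _ 3 fun S hS => ?_
  by_contra hcon
  push Not at hcon
  exact hne (bridge hc fr (S := S) (by omega) hE hM (fun x _ hx d hd => hcon x hx d hd)
    (Or.inl hE0)).2

theorem legs2 [Finite V] (hc : Clean G) (fr : D.Frame L) {E : Set V} {M : Set (Option V)}
    (hE : E ⊆ D.F) (hM : ∀ m ∈ M, D.Two m) (hE0 : E.Nonempty) :
    ∃ (a : Fin 2 → Option V) (J : Fin 2 → Set (Option V)),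
      (∀ i, D.Leg {x | x ∈ M ∨ ∃ f ∈ E, x ∈ D.e f} (a i) (J i)) ∧
      ∀ i j, i ≠ j → Disjoint (J i) (J j) := by
  refine legs D _ 2 fun S hS => ?_
  by_contra hcon
  push Not at hcon
  have h1 := (bridge hc fr (S := S) (by omega) hE hM (fun x _ hx d hd => hcon x hx d hd)
    (Or.inl hE0)).1
  omega

end Pool.Agent.Work.MP_c4d05f_lc.Str
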