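import Pool.Agent.Work.MP_c4d05f_lc.N.Str.LemA
import Pool.Agent.Work.MP_c4d05f_lc.N.Str.Legs3

/-!
# The neighbours of one vertex are in one rung (module `Single`, size S-M)

By contradiction: `f`, `g` adjacent to `p` with `¬ rg f g`. `legs3` with `E = Eit p`,
`M = {m | Spec p m}` (then `X = src p` by definition): `hne` by `eit_or_spec` for `f` and `g`; `hE0`: if
`Eit p` is empty, `f` and `g` are edges at special nodes, equal by `spec_unique`, so `rg f g`
(`PF.rg_of`). Then `lemA`.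
-/

set_option autoImplicit false

namespace Pool.Agent.Work.MP_c4d05f_lc.Str

open Pool.Agent.Work.MP_5f857a_co.L (Con)
open Pool.Agent.Work.MP_c4d05f_lc.N (Clean)
open Pool.Agent.Work.MP_c4d05f_lc.Hav (Anti Apart)

variable {V : Type} {G : SimpleGraph V} {L : Set V} {D : PF G}

theorem single [Finite V] (hc : Clean G) (ht : Term G L) (hn : NoStar G L) (fr : D.Frame L)
    {p : V} (hp : p ∉ D.F) {f g : V} (hf : f ∈ D.F) (hg : g ∈ D.F) (hpf : G.Adj p f)
    (hpg : G.Adj p g) : D.rg f g := by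
  by_contra hcon
  have hi : ∀ k ∈ D.F, G.Adj p k → k ∈ D.Eit p ∨ ∃ m ∈ {m | D.Spec p m}, k ∈ D.st m := by
    intro k hk hpk
    rcases eit_or_spec hk hpk with h | ⟨m, hm, hs⟩
    · exact Or.inl h
    · exact Or.inr ⟨m, hs, hk, hm⟩
  have hE0 : (D.Eit p).Nonempty := by
    by_contra h0
    rw [Set.not_nonempty_iff_eq_empty] at h0
    obtain ⟨m, hm, hfm⟩ := (hi f hf hpf).resolve_left (by rw [h0]; exact Set.notMem_empty _)
    obtain ⟨m', hm', hgm⟩ := (hi g hg hpg).resolve_left (by rw [h0]; exact Set.notMem_empty _)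
    have h1 := spec_unique hc hm hm'
    subst h1
    exact hcon (PF.rg_of hm.1 hfm hgm)
  obtain ⟨a, J, h1, h2⟩ := legs3 hc fr (E := D.Eit p) (M := {m | D.Spec p m}) (fun k hk => hk.1)
    (fun m hm => hm.1) hE0 (fun h => hcon (h f g (hi f hf hpf) (hi g hg hpg)))
  exact lemA hc ht hn fr hp h1 h2

end Pool.Agent.Work.MP_c4d05f_lc.Str
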