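import Pool.Agent.Work.MP_c4d05f_lc.N.Str.Min
import Pool.Agent.Work.MP_c4d05f_lc.N.Str.Single

/-!
# Case gamma 0: no common node (module `Gam0`, size M-L)

`legs3` with `E = Eit p ∪ Eit q`, `M = {m | Spec p m ∨ Spec q m}`, `X = src p ∪ src q`: `hne` because of
`e`, `e'` (`eit_or_spec`) and `¬ rg e e'`. `src p` and `src q` are disjoint by `hno` (a special node of
`p` is an end of a neighbour of `p`). Three legs `(a i, J i)`; two of the `a i` are in `src p` or two are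
in `src q`; by symmetry (private lemma; the situation is symmetric in `p`, `q`) `a i, a j ∈ src p`,
`i ≠ j`. If the third `a k` is also in `src p`: `lemA` (`leg_mono`). Otherwise `a k ∈ src q`: `star2` for
`p` with `U = (P \ {p}) ∪ ins (J k)` (if `a k` is special for `q`) or
`U = (P \ {p}) ∪ insert f (ins (J k))` (if `a k ∈ D.e f`, `f ∈ Eit q`).
- `Arm`: `p` is adjacent to a vertex of `P \ {p}` (`P` connected), `P \ {p}` is connected (`hR`) and
  contains `q`, `q` is adjacent to `f` or to an edge of `ins (J k)` at `a k` (`leg_con'`); `leg_con`.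
- `ins (J i)` is anticomplete to `P \ {p}`: only `q` has frame neighbours; if `g ∈ ins (J i)` is
  adjacent to `q`, then (`eit_or_spec`) both ends of `g` or a special node of `q` are in `X ∩ J i`
  `= {a i}`, but `a i ∈ src p`.
- `f ∈ Eit q` has no end in `J i` (its ends are in `src q`).
- `hf`: `f' ∈ Eit p` with `a i ∈ D.e f'`: not adjacent to `P \ {p}` (`q` adjacent to `f'` would give
  `rg e e'` by `single`), its ends are in `src p`, so not in `J k`; no common node with `f` (`hno`).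
-/

set_option autoImplicit false

namespace Pool.Agent.Work.MP_c4d05f_lc.Str

open Pool.Agent.Work.MP_5f857a_co.L (Con)
open Pool.Agent.Work.MP_c4d05f_lc.N (Clean)
open Pool.Agent.Work.MP_c4d05f_lc.Hav (Anti Apart)

variable {V : Type} {G : SimpleGraph V} {L : Set V} {D : PF G}

private theorem src_nbr {p : V} {x : Option V} (h : x ∈ D.src p) :
    ∃ f ∈ D.F, G.Adj p f ∧ x ∈ D.e f := by
  rcases h with ⟨hT, hA⟩ | ⟨f, hf, hx⟩
  · obtain ⟨f, hf⟩ := hT.ne_empty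
    exact ⟨f, hf.1, hA f hf, hf.2⟩
  · exact ⟨f, hf.1, hf.2.1, hx⟩

private theorem core0 [Finite V] (hc : Clean G) (ht : Term G L) (hn : NoStar G L)
    (fr : D.Frame L) {P : Set V} (hP : Cn G P) (hPF : ∀ x ∈ P, x ∉ D.F) {p q e e' : V}
    (hp : p ∈ P) (hq : q ∈ P)
    (hpq : p ≠ q) (he : e ∈ D.F) (he' : e' ∈ D.F) (hpe : G.Adj p e) (hqe : G.Adj q e')
    (hrg : ¬ D.rg e e') (hR : Cn G (P \ {p}))
    (hint : ∀ r ∈ P, r ≠ p → r ≠ q → ∀ w ∈ D.F, ¬ G.Adj r w)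
    {X : Set (Option V)} (hXp : D.src p ⊆ X) (hXq : D.src q ⊆ X)
    (hdis : ∀ x ∈ D.src p, x ∉ D.src q)
    {a₁ a₂ : Option V} {J₁ J₂ : Set (Option V)} (h1 : D.Leg X a₁ J₁) (h2 : D.Leg X a₂ J₂)
    (m1 : a₁ ∈ D.src p) (m2 : a₂ ∈ D.src p) (d12 : Disjoint J₁ J₂)
    {W : Set V} (hWF : ∀ w ∈ W, w ∈ D.F) (hW : ∃ f ∈ W, G.Adj q f ∧ ∃ t ∈ L, Con G W f t)
    (hW1 : Anti G (D.ins J₁) W) (hW2 : Anti G (D.ins J₂) W)
    (hWf : ∀ f ∈ D.Eit p, ∀ u ∈ W, Apart G f u) : False := by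
  have key : ∀ {a : Option V} {J : Set (Option V)}, D.Leg X a J → a ∈ D.src p →
      Anti G (D.ins J) (P \ {p}) := by
    intro a J hl ha g hg r hr
    have hrP : r ∈ P := hr.1
    have hrp : r ≠ p := fun h => hr.2 (by simp [h])
    refine ⟨fun h => hPF r hrP (h ▸ hg.1), fun hadj => ?_⟩
    by_cases hrq : r = q
    · subst hrq
      rcases eit_or_spec hg.1 hadj.symm with h | ⟨m, hm, hs⟩
      · obtain ⟨x, y, hxy, hge⟩ := PF.ends hg.1
        have hx : x ∈ D.e g := by simp [hge]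
        have hxq : x ∈ D.src r := Or.inr ⟨g, h, hx⟩
        have := hl.only x (hg.2 x hx) (hXq hxq)
        subst this
        exact hdis _ ha hxq
      · have hmq : m ∈ D.src r := Or.inl hs
        have := hl.only m (hg.2 m hm) (hXq hmq)
        subst this
        exact hdis _ ha hmq
    · exact hint r hrP hrp hrq g hg.1 hadj.symm
  obtain ⟨f₀, hf₀, hqf₀, t, htL, hcon⟩ := hW
  have hpW : p ∉ W := fun h => hPF p hp (hWF p h)
  -- the arm
  have hx : ∃ x ∈ P \ {p}, G.Adj p x := by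
    obtain ⟨w, hw⟩ := hP p hp q hq
    cases w with
    | nil => exact absurd rfl hpq
    | @cons _ v _ hadj w =>
      refine ⟨v, ⟨hw v (by simp), ?_⟩, hadj⟩
      simpa using hadj.ne'
  obtain ⟨x, hxP, hpx⟩ := hx
  have hqP : q ∈ P \ {p} := ⟨hq, by simpa using hpq.symm⟩
  have hU : Arm G L p ((P \ {p}) ∪ W) := by
    refine arm_of (x := x) (t := t) ?_ hpx ?_ htL
    · rintro (h | h)
      · exact h.2 rfl
      · exact hpW h
    · have c1 : Con G ((P \ {p}) ∪ W) x q := con_mono (hR x hxP q hqP) Set.subset_union_left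
      have c2 : Con G ((P \ {p}) ∪ W) q f₀ := con_adj hqf₀ (Or.inl hqP) (Or.inr hf₀)
      have c3 : Con G ((P \ {p}) ∪ W) f₀ t := con_mono hcon Set.subset_union_right
      exact (c1.trans c2).trans c3
  refine star2 hc ht hn fr (hPF p hp) (leg_mono h1 hXp m1) (leg_mono h2 hXp m2) d12 hU
    (anti_union_right (key h1 m1) hW1) (anti_union_right (key h2 m2) hW2) ?_
  intro f hf _ u hu
  rcases hu with hu | hu
  · have huP : u ∈ P := hu.1
    have hup : u ≠ p := fun h => hu.2 (by simp [h])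
    refine ⟨fun h => hPF u huP (h ▸ hf.1), fun hadj => ?_⟩
    by_cases huq : u = q
    · subst huq
      have r1 := single hc ht hn fr (hPF p hp) he hf.1 hpe hf.2.1
      have r2 := single hc ht hn fr (hPF u huP) hf.1 he' hadj.symm hqe
      exact hrg (PF.rg_trans r1 r2)
    · exact hint u huP hup huq f hf.1 hadj.symm
  · exact hWf f hf u hu

private theorem core1 [Finite V] (hc : Clean G) (ht : Term G L) (hn : NoStar G L)
    (fr : D.Frame L) {P : Set V} (hP : Cn G P) (hPF : ∀ x ∈ P, x ∉ D.F) {p q e e' : V}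
    (hp : p ∈ P) (hq : q ∈ P)
    (hpq : p ≠ q) (he : e ∈ D.F) (he' : e' ∈ D.F) (hpe : G.Adj p e) (hqe : G.Adj q e')
    (hrg : ¬ D.rg e e') (hR : Cn G (P \ {p}))
    (hint : ∀ r ∈ P, r ≠ p → r ≠ q → ∀ w ∈ D.F, ¬ G.Adj r w)
    (hno : ∀ f ∈ D.F, ∀ g ∈ D.F, G.Adj p f → G.Adj q g → ∀ x ∈ D.e f, x ∉ D.e g)
    {X : Set (Option V)} (hXp : D.src p ⊆ X) (hXq : D.src q ⊆ X)
    {a₁ a₂ a₃ : Option V} {J₁ J₂ J₃ : Set (Option V)} (h1 : D.Leg X a₁ J₁)
    (h2 : D.Leg X a₂ J₂) (h3 : D.Leg X a₃ J₃)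
    (m1 : a₁ ∈ D.src p) (m2 : a₂ ∈ D.src p) (m3 : a₃ ∈ D.src q) (d12 : Disjoint J₁ J₂)
    (d13 : Disjoint J₁ J₃) (d23 : Disjoint J₂ J₃) : False := by
  have hdis : ∀ x ∈ D.src p, x ∉ D.src q := by
    intro x hx hx'
    obtain ⟨f, hf, hpf, hxf⟩ := src_nbr hx
    obtain ⟨g, hg, hqg, hxg⟩ := src_nbr hx'
    exact hno f hf g hg hpf hqg x hxf hxg
  obtain ⟨ha3, hlf⟩ := leg_leaf h3
  -- edge items of `p` have no end in `J₃`
  have hp3 : ∀ f ∈ D.Eit p, ∀ x ∈ D.e f, x ∉ J₃ := by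
    intro f hf x hx hxJ
    have hxp : x ∈ D.src p := Or.inr ⟨f, hf, hx⟩
    have := h3.only x hxJ (hXp hxp)
    subst this
    exact hdis _ hxp m3
  -- edge items of `q` have no end in `J₁`, `J₂`
  have hq1 : ∀ {a : Option V} {J : Set (Option V)}, D.Leg X a J → a ∈ D.src p →
      ∀ f ∈ D.Eit q, ∀ x ∈ D.e f, x ∉ J := by
    intro a J hl ha f hf x hx hxJ
    have hxq : x ∈ D.src q := Or.inr ⟨f, hf, hx⟩
    have := hl.only x hxJ (hXq hxq)
    subst this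
    exact hdis _ ha hxq
  rcases m3 with hs | ⟨f, hf, hxf⟩
  · obtain ⟨g, hg, hag, t, htL, hcon⟩ := leg_con' fr (fun h => h.not_two hs.1) hlf
    refine core0 hc ht hn fr hP hPF hp hq hpq he he' hpe hqe hrg hR hint hXp hXq hdis h1 h2 m1 m2
      d12 (W := D.ins J₃) (fun w hw => hw.1) ⟨g, hg, hs.2 g ⟨hg.1, hag⟩, t, htL, hcon⟩
      (PF.anti_ins d13) (PF.anti_ins d23) ?_
    intro f hf u hu
    exact PF.apart_ins hf.1 (hp3 f hf) u hu
  · obtain ⟨t, htL, hcon⟩ := leg_con fr (f := f) ⟨hf.1, hxf⟩ hlf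
    refine core0 hc ht hn fr hP hPF hp hq hpq he he' hpe hqe hrg hR hint hXp hXq hdis h1 h2 m1 m2
      d12 (W := insert f (D.ins J₃)) ?_ ⟨f, Set.mem_insert _ _, hf.2.1, t, htL, hcon⟩
      ?_ ?_ ?_
    · rintro w (rfl | hw)
      · exact hf.1
      · exact hw.1
    · exact anti_insert_right (fun v hv => (PF.apart_ins hf.1 (hq1 h1 m1 f hf) v hv).symm)
        (PF.anti_ins d13)
    · exact anti_insert_right (fun v hv => (PF.apart_ins hf.1 (hq1 h2 m2 f hf) v hv).symm)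
        (PF.anti_ins d23)
    · rintro f' hf' u (rfl | hu)
      · exact PF.apart_of hf'.1 hf.1 (hno f' hf'.1 u hf.1 hf'.2.1 hf.2.1)
      · exact PF.apart_ins hf'.1 (hp3 f' hf') u hu

theorem gam0 [Finite V] (hc : Clean G) (ht : Term G L) (hn : NoStar G L) (fr : D.Frame L)
    {P : Set V} (hP : Cn G P) (hPF : ∀ x ∈ P, x ∉ D.F) {p q e e' : V} (hp : p ∈ P) (hq : q ∈ P)
    (hpq : p ≠ q) (he : e ∈ D.F) (he' : e' ∈ D.F) (hpe : G.Adj p e) (hqe : G.Adj q e')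
    (hrg : ¬ D.rg e e') (hQ : Cn G (P \ {q})) (hR : Cn G (P \ {p}))
    (hint : ∀ r ∈ P, r ≠ p → r ≠ q → ∀ w ∈ D.F, ¬ G.Adj r w)
    (hno : ∀ f ∈ D.F, ∀ g ∈ D.F, G.Adj p f → G.Adj q g → ∀ x ∈ D.e f, x ∉ D.e g)
    (hE : (D.Eit p ∪ D.Eit q).Nonempty) : False := by
  have hitem : ∀ {r f : V}, (r = p ∨ r = q) → f ∈ D.F → G.Adj r f →
      (f ∈ D.Eit p ∪ D.Eit q ∨ ∃ m ∈ {m | D.Spec p m ∨ D.Spec q m}, f ∈ D.st m) := by
    intro r f hr hf hrf
    rcases eit_or_spec hf hrf with h | ⟨m, hm, hs⟩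
    · left
      rcases hr with rfl | rfl
      · exact Or.inl h
      · exact Or.inr h
    · right
      refine ⟨m, ?_, hf, hm⟩
      rcases hr with rfl | rfl
      · exact Or.inl hs
      · exact Or.inr hs
  obtain ⟨a, J, hJ, hd⟩ := legs3 hc fr (E := D.Eit p ∪ D.Eit q)
    (M := {m | D.Spec p m ∨ D.Spec q m})
    (by rintro f (h | h) <;> exact h.1)
    (by rintro m (h | h) <;> exact h.1) hE
    (fun hall => hrg (hall e e' (hitem (Or.inl rfl) he hpe) (hitem (Or.inr rfl) he' hqe)))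
  set X : Set (Option V) := {x | x ∈ {m | D.Spec p m ∨ D.Spec q m} ∨
    ∃ f ∈ D.Eit p ∪ D.Eit q, x ∈ D.e f} with hX
  have hXp : D.src p ⊆ X := by
    rintro x (h | ⟨f, hf, hx⟩)
    · exact Or.inl (Or.inl h)
    · exact Or.inr ⟨f, Or.inl hf, hx⟩
  have hXq : D.src q ⊆ X := by
    rintro x (h | ⟨f, hf, hx⟩)
    · exact Or.inl (Or.inr h)
    · exact Or.inr ⟨f, Or.inr hf, hx⟩
  have hXs : ∀ x ∈ X, x ∈ D.src p ∨ x ∈ D.src q := by
    rintro x ((h | h) | ⟨f, hf | hf, hx⟩)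
    · exact Or.inl (Or.inl h)
    · exact Or.inr (Or.inl h)
    · exact Or.inl (Or.inr ⟨f, hf, hx⟩)
    · exact Or.inr (Or.inr ⟨f, hf, hx⟩)
  have hno' : ∀ f ∈ D.F, ∀ g ∈ D.F, G.Adj q f → G.Adj p g → ∀ x ∈ D.e f, x ∉ D.e g :=
    fun f hf g hg hqf hpg x hx hx' => hno g hg f hf hpg hqf x hx' hx
  have hint' : ∀ r ∈ P, r ≠ q → r ≠ p → ∀ w ∈ D.F, ¬ G.Adj r w :=
    fun r hr h1 h2 => hint r hr h2 h1
  have hrg' : ¬ D.rg e' e := fun h => hrg (PF.rg_symm h)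
  -- two in `src p`, one in `src q`
  have hpp : ∀ i j k, i ≠ j → i ≠ k → j ≠ k → a i ∈ D.src p → a j ∈ D.src p → a k ∈ D.src q →
      False := fun i j k hij hik hjk mi mj mk =>
    core1 hc ht hn fr hP hPF hp hq hpq he he' hpe hqe hrg hR hint hno hXp hXq (hJ i) (hJ j) (hJ k)
      mi mj mk (hd i j hij) (hd i k hik) (hd j k hjk)
  have hqq : ∀ i j k, i ≠ j → i ≠ k → j ≠ k → a i ∈ D.src q → a j ∈ D.src q → a k ∈ D.src p →
      False := fun i j k hij hik hjk mi mj mk =>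
    core1 hc ht hn fr hP hPF hq hp hpq.symm he' he hqe hpe hrg' hQ hint' hno' hXq hXp (hJ i)
      (hJ j) (hJ k) mi mj mk (hd i j hij) (hd i k hik) (hd j k hjk)
  have h01 : (0 : Fin 3) ≠ 1 := by decide
  have h02 : (0 : Fin 3) ≠ 2 := by decide
  have h12 : (1 : Fin 3) ≠ 2 := by decide
  rcases hXs _ (hJ 0).mem with a0 | a0 <;> rcases hXs _ (hJ 1).mem with a1 | a1 <;>
    rcases hXs _ (hJ 2).mem with a2 | a2
  · refine lemA hc ht hn fr (hPF p hp) (a := a) (J := J) (fun i => leg_mono (hJ i) hXp ?_) hd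
    fin_cases i
    · exact a0
    · exact a1
    · exact a2
  · exact hpp 0 1 2 h01 h02 h12 a0 a1 a2
  · exact hpp 0 2 1 h02 h01 h12.symm a0 a2 a1
  · exact hqq 1 2 0 h12 h01.symm h02.symm a1 a2 a0
  · exact hpp 1 2 0 h12 h01.symm h02.symm a1 a2 a0
  · exact hqq 0 2 1 h02 h01 h12.symm a0 a2 a1
  · exact hqq 0 1 2 h01 h02 h12 a0 a1 a2
  · refine lemA hc ht hn fr (hPF q hq) (a := a) (J := J) (fun i => leg_mono (hJ i) hXq ?_) hd
    fin_cases i
    · exact a0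
    · exact a1
    · exact a2

end Pool.Agent.Work.MP_c4d05f_lc.Str
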