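import Pool.Agent.Work.MP_c4d05f_lc.N.Str.Fan
import Pool.Agent.Work.MP_c4d05f_lc.N.Str.LegB

/-!
# The star in the second triangle case (module `Gam1`, size M)

Fan `J` at `u`, `h` := the third edge at `u`, `y` := the other end of `g` (`Two y` by
`two_of_three`). Centre `p`, `U₁ = insert g (insert h (ins (J h)))`, `U₂ = ins (J g \ {y})`,
`U₃ = P ∪ ins (J f)`.
- `k ∈ D.F` with `G.Adj p k`, `k ≠ g` (`h3`): `rg g k` by `hattp`, so `k ∈ ins (J g)` (`Fan.rg`), and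
  `y ∉ D.e k`: otherwise `g`, `k` share `y`, `p g k` is a triangle, and `g`, `f`, `h` is another
  triangle at `g`, against `hc`. So `k ∈ U₂`.
- from `k` to a leaf inside `J g \ {y}`: an end `x` of `k` is joined to a leaf `d` inside `J g`; `y`
  has only two neighbours in `H`, one of them is `u ∉ J g`; a path (`Walk.bypass`) inside `J g` from
  `x ≠ y` to `d ≠ y` through `y` would need two neighbours of `y` in `J g`. So `Con H (J g \ {y}) x d`;
  `leg_con` (`k ∈ U₂` already).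
- `g` is anticomplete to `U₂` (`u`, `y` are not in `J g \ {y}`), to `ins (J f)`, and to `P` (`hattP`,
  `no_loop`); `h` also (`no_loop`). `P` is anticomplete to `ins (J g)`, `ins (J h)` because its
  neighbours in the frame are `f` or in `ins (J f)`.
- `p` is adjacent to `g`, to `k`, to some `x ∈ P`; `P` is connected, adjacent to an element of
  `ins (J f)` (`h1`, `Fan.rg`).
-/

set_option autoImplicit false

namespace Pool.Agent.Work.MP_c4d05f_lc.Str

open Pool.Agent.Work.MP_5f857a_co.L (Con)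
open Pool.Agent.Work.MP_c4d05f_lc.N (Clean)
open Pool.Agent.Work.MP_c4d05f_lc.Hav (Anti Apart)

variable {V : Type} {G : SimpleGraph V} {L : Set V} {D : PF G}


private theorem third_g1 {u : Option V} (hu : D.Three u) {g w : V} (hg : g ∈ D.st u)
    (hw : w ∈ D.st u) (hgw : g ≠ w) : ∃ h ∈ D.st u, h ≠ g ∧ h ≠ w := by
  obtain ⟨a, b, hag, hbg, hab, hst⟩ := hu.triple hg
  have hw' : w ∈ ({g, a, b} : Set V) := hst ▸ hw
  simp only [Set.mem_insert_iff, Set.mem_singleton_iff] at hw'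
  rcases hw' with h | h | h
  · exact absurd h.symm hgw
  · exact ⟨b, by rw [hst]; simp, hbg, by rw [h]; exact hab.symm⟩
  · exact ⟨a, by rw [hst]; simp, hag, by rw [h]; exact hab⟩

private theorem fan_ends_g1 {u : Option V} {J : V → Set (Option V)} (hJ : D.Fan u J) {f g : V}
    (hf : f ∈ D.st u) (hg : g ∈ D.st u) (hfg : f ≠ g) : ∀ x ∈ D.e f, x ∉ J g := by
  intro x hx hxg
  by_cases hxu : x = u
  · subst hxu
    exact hJ.nu g hg hxg
  · exact Set.disjoint_left.1 (hJ.dj f hf g hg hfg) (hJ.nd f hf x hx hxu) hxg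

private theorem not_ins_g1 {u : Option V} {J : V → Set (Option V)} (hJ : D.Fan u J) {f g : V}
    (hf : f ∈ D.st u) (hg : g ∈ D.st u) : f ∉ D.ins (J g) :=
  fun h => hJ.nu g hg (h.2 u hf.2)

private theorem ins_dj_g1 {u : Option V} {J : V → Set (Option V)} (hJ : D.Fan u J) {f g v : V}
    (hf : f ∈ D.st u) (hg : g ∈ D.st u) (hfg : f ≠ g) (h : v ∈ D.ins (J f)) (h' : v ∈ D.ins (J g)) :
    False := by
  obtain ⟨x, y, -, he⟩ := PF.ends h.1
  have hx : x ∈ D.e v := by rw [he]; simp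
  exact Set.disjoint_left.1 (hJ.dj f hf g hg hfg) (h.2 x hx) (h'.2 x hx)

/-- The neighbours of `P` in the frame are in the rung of `w` or equal to `g`. -/
private theorem anti_P_g1 {u : Option V} {J : V → Set (Option V)} (hJ : D.Fan u J) {w h : V}
    (hw : w ∈ D.st u) (hh : h ∈ D.st u) (hwh : w ≠ h) {P : Set V} (hPF : ∀ x ∈ P, x ∉ D.F)
    (hatt : ∀ x ∈ P, ∀ f ∈ D.F, G.Adj x f → f ∈ D.st u ∨ D.rg w f) :
    Anti G (D.ins (J h)) P := by
  intro v hv x hx
  refine ⟨fun hvx => hPF x hx (hvx ▸ hv.1), fun hadj => ?_⟩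
  rcases hatt x hx v hv.1 hadj.symm with h1 | h1
  · exact not_ins_g1 hJ h1 hh hv
  · by_cases hvw : v = w
    · subst hvw
      exact not_ins_g1 hJ hw hh hv
    · exact ins_dj_g1 hJ hw hh hwh (hJ.rg w hw v h1 hvw) hv

/-- From an edge of the rung of `w` to a terminal inside `D.ins (J w)`. -/
private theorem to_leaf_g1 (fr : D.Frame L) {u : Option V} {J : V → Set (Option V)}
    (hJ : D.Fan u J) {w f : V} (hw : w ∈ D.st u) (hf : f ∈ D.ins (J w)) :
    ∃ t ∈ L, Con G (D.ins (J w)) f t := by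
  obtain ⟨x, y, -, he⟩ := PF.ends hf.1
  have hx : x ∈ D.e f := by rw [he]; simp
  obtain ⟨d, hd, hdl⟩ := hJ.lf w hw
  obtain ⟨t, ht, hc⟩ := leg_con fr (J := J w) (x := x) (f := f) ⟨hf.1, hx⟩
    ⟨d, hdl, hJ.con w hw x (hf.2 x hx) d hd⟩
  refine ⟨t, ht, con_mono hc ?_⟩
  rintro z (rfl | hz)
  · exact hf
  · exact hz

/-- From the edge `w` at `u` to a terminal. -/
private theorem to_leaf'_g1 (fr : D.Frame L) {u : Option V} {J : V → Set (Option V)}
    (hJ : D.Fan u J) {w : V} (hw : w ∈ D.st u) :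
    ∃ t ∈ L, Con G (insert w (D.ins (J w))) w t := by
  obtain ⟨y, hy, he⟩ := PF.other hw.1 hw.2
  have hye : y ∈ D.e w := by rw [he]; simp
  obtain ⟨d, hd, hdl⟩ := hJ.lf w hw
  exact leg_con fr ⟨hw.1, hye⟩ ⟨d, hdl, hJ.con w hw y (hJ.nd w hw y hye hy) d hd⟩

/-- A node of degree two with one neighbour outside `J` can be deleted from `J`. -/
private theorem con_del_g1 {J : Set (Option V)} {u y x d : Option V} {g : V} (hgy : g ∈ D.st y)
    (hey : D.e g = s(u, y)) (hy2 : D.Two y) (huJ : u ∉ J) (hxy : x ≠ y) (hdy : d ≠ y)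
    (h : Con D.H J x d) : Con D.H (J \ {y}) x d := by
  obtain ⟨k, hkg, hst⟩ := hy2.pair hgy
  -- the neighbour of `y` in `J` is unique
  have key : ∀ o, D.H.Adj y o → o ∈ J → o ∈ D.e k ∧ y ∈ D.e k := by
    rintro o ⟨hyo, m, hm, hym, hom⟩ hoJ
    have hm' : m ∈ D.st y := ⟨hm, hym⟩
    rw [hst] at hm'
    rcases hm' with rfl | hm'
    · rw [hey, Sym2.mem_iff] at hom
      rcases hom with rfl | rfl
      · exact absurd hoJ huJ
      · exact absurd rfl hyo
    · rw [Set.mem_singleton_iff] at hm'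
      subst hm'
      exact ⟨hom, hym⟩
  have hkF : k ∈ D.F := by
    have : k ∈ D.st y := by rw [hst]; simp
    exact this.1
  have uniq : ∀ o o', D.H.Adj y o → D.H.Adj y o' → o ∈ J → o' ∈ J → o = o' := by
    intro o o' h1 h2 h3 h4
    obtain ⟨ho, hy'⟩ := key o h1 h3
    obtain ⟨ho', _⟩ := key o' h2 h4
    have he := PF.e_eq hkF hy' ho h1.1
    rw [he, Sym2.mem_iff] at ho'
    rcases ho' with rfl | rfl
    · exact absurd rfl h2.1
    · rfl
  -- the exit of a component of `J \ {y}`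
  have ex : ∀ a b, a ≠ y → Con D.H J a b → ¬ Con D.H (J \ {y}) a b →
      ∃ o, D.H.Adj y o ∧ o ∈ J ∧ Con D.H (J \ {y}) a o := by
    intro a b hay hab hnot
    have ha : a ∈ J \ {y} := ⟨Pool.Agent.Work.MP_5f857a_co.L.Con.left hab, by simpa using hay⟩
    obtain ⟨c, ⟨hc1, o, ho, hco⟩, hcJ, -⟩ := Pool.Agent.Work.MP_5f857a_co.L.exit_of_con
      (O := {v | Con D.H (J \ {y}) a v}) hab (con_refl ha) hnot
    have hoJ : o ∈ J \ {y} := Pool.Agent.Work.MP_5f857a_co.L.Con.right ho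
    by_cases hcy : c = y
    · subst hcy
      exact ⟨o, hco, hoJ.1, ho⟩
    · exact absurd (Pool.Agent.Work.MP_5f857a_co.L.Con.trans ho
        (con_adj hco.symm hoJ ⟨hcJ, by simpa using hcy⟩)) hc1
  by_contra hnot
  obtain ⟨o, ho1, ho2, ho3⟩ := ex x d hxy h hnot
  obtain ⟨o', ho1', ho2', ho3'⟩ := ex d x hdy (Pool.Agent.Work.MP_5f857a_co.L.Con.symm h)
    (fun h' => hnot (Pool.Agent.Work.MP_5f857a_co.L.Con.symm h'))
  have := uniq o o' ho1 ho1' ho2 ho2'
  subst this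
  exact hnot (Pool.Agent.Work.MP_5f857a_co.L.Con.trans ho3
    (Pool.Agent.Work.MP_5f857a_co.L.Con.symm ho3'))

theorem gam1 [Finite V] (hc : Clean G) (ht : Term G L) (hn : NoStar G L) (fr : D.Frame L)
    {u : Option V} (hu : D.Three u) {f g : V} (hf : f ∈ D.st u) (hg : g ∈ D.st u) (hfg : f ≠ g)
    {p : V} (hp : p ∉ D.F) {P : Set V} (hPF : ∀ x ∈ P, x ∉ D.F)
    (hP : ∀ x ∈ P, ∀ y ∈ P, Con G P x y) (hpP : p ∉ P) (hpx : ∃ x ∈ P, G.Adj p x)
    (hattP : ∀ x ∈ P, ∀ k ∈ D.F, G.Adj x k → D.rg f k)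
    (h1 : ∃ x ∈ P, ∃ k ∈ D.F, G.Adj x k ∧ k ≠ f)
    (hattp : ∀ k ∈ D.F, G.Adj p k → D.rg g k) (h2 : G.Adj p g)
    (h3 : ∃ k ∈ D.F, G.Adj p k ∧ k ≠ g) : False := by
  obtain ⟨J, hJ⟩ := exists_fan hc ht fr hu
  obtain ⟨h, hh, hhf, hhg⟩ := third_g1 hu hf hg hfg
  obtain ⟨y, hyu, hey⟩ := PF.other hg.1 hg.2
  have hye : y ∈ D.e g := by rw [hey]; simp
  have hyJ : y ∈ J g := hJ.nd g hg y hye hyu
  have hy2 : D.Two y := two_of_three hc ht fr hu hg hye hyu
  have hyl : ¬ D.Leaf y := fun h' => h'.not_two hy2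
  obtain ⟨k, hkF, hpk, hkg⟩ := h3
  have hrk : D.rg g k := hattp k hkF hpk
  have hkJ : k ∈ D.ins (J g) := hJ.rg g hg k hrk hkg
  have hyk : y ∉ D.e k := by
    intro hyk
    have hgk : G.Adj g k := PF.adj_of_st (x := y) ⟨hg.1, hye⟩ ⟨hkF, hyk⟩ hkg.symm
    rcases hc g p k f h h2.symm hgk hpk (PF.adj_of_st hg hf hfg.symm)
      (PF.adj_of_st hg hh hhg.symm) (PF.adj_of_st hf hh hhf.symm) with h' | h'
    · exact hp (h' ▸ hf.1)
    · subst h'
      exact no_loop hc ht fr hu hg hf hfg.symm hrk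
  have hatt' : ∀ x ∈ P, ∀ k ∈ D.F, G.Adj x k → k ∈ D.st u ∨ D.rg f k :=
    fun x hx k hk hadj => Or.inr (hattP x hx k hk hadj)
  have hA1 : Arm G L p (insert g (insert h (D.ins (J h)))) := by
    obtain ⟨t, htL, hc1⟩ := to_leaf'_g1 fr hJ hh
    refine arm_of (x := g) (t := t) ?_ h2 ?_ htL
    · rintro (rfl | rfl | h')
      · exact hp hg.1
      · exact hp hh.1
      · exact hp h'.1
    · exact (con_adj (PF.adj_of_st hg hh hhg.symm) (by simp) (by simp)).trans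
        (con_mono hc1 (Set.subset_insert _ _))
  have hkJ' : k ∈ D.ins (J g \ {y}) :=
    ⟨hkJ.1, fun x hx => ⟨hkJ.2 x hx, fun hxy => hyk (by
      rw [Set.mem_singleton_iff] at hxy
      exact hxy ▸ hx)⟩⟩
  have hA2 : Arm G L p (D.ins (J g \ {y})) := by
    obtain ⟨x, x', -, hex⟩ := PF.ends hkF
    have hxk : x ∈ D.e k := by rw [hex]; simp
    have hxy : x ≠ y := fun h' => hyk (h' ▸ hxk)
    obtain ⟨d, hd, hdl⟩ := hJ.lf g hg
    have hdy : d ≠ y := fun h' => hyl (h' ▸ hdl)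
    have hcon : Con D.H (J g \ {y}) x d :=
      con_del_g1 (g := g) ⟨hg.1, hye⟩ hey hy2 (hJ.nu g hg) hxy hdy
        (hJ.con g hg x (hkJ.2 x hxk) d hd)
    obtain ⟨t, htL, hc1⟩ := leg_con fr (J := J g \ {y}) (f := k) ⟨hkF, hxk⟩ ⟨d, hdl, hcon⟩
    refine arm_of (x := k) (t := t) (fun h' => hp h'.1) hpk (con_mono hc1 ?_) htL
    rintro z (rfl | hz)
    · exact hkJ'
    · exact hz
  have hA3 : Arm G L p (P ∪ D.ins (J f)) := by
    obtain ⟨x, hx, hpx⟩ := hpx
    obtain ⟨x', hx', k', hk', hxk', hkf'⟩ := h1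
    have hki : k' ∈ D.ins (J f) := hJ.rg f hf k' (hattP x' hx' k' hk' hxk') hkf'
    obtain ⟨t, htL, hc1⟩ := to_leaf_g1 fr hJ hf hki
    refine arm_of (x := x) (t := t) ?_ hpx ?_ htL
    · rintro (h' | h')
      · exact hpP h'
      · exact hp h'.1
    · refine (con_mono (hP x hx x' hx') Set.subset_union_left).trans ?_
      exact (con_adj hxk' (Or.inl hx') (Or.inr hki)).trans (con_mono hc1 Set.subset_union_right)
  have hnoP : ∀ k ∈ D.st u, f ≠ k → ∀ v ∈ P, Apart G k v := by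
    intro k hk hfk v hv
    refine ⟨fun hvx => hPF v hv (hvx ▸ hk.1), fun hadj => ?_⟩
    exact no_loop hc ht fr hu hf hk hfk (hattP v hv k hk.1 hadj.symm)
  refine hn.apply hA1 hA2 hA3 ?_ ?_ ?_
  · refine anti_insert ?_ (anti_insert ?_ ?_)
    · exact PF.apart_ins' hg.1 hey (fun h' => hJ.nu g hg h'.1) (fun h' => h'.2 rfl)
    · exact PF.apart_ins hh.1 fun x hx hx' => fan_ends_g1 hJ hh hg hhg x hx hx'.1
    · exact PF.anti_ins ((hJ.dj h hh g hg hhg).mono_right Set.sdiff_subset)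
  · refine anti_union_right (anti_insert ?_ (anti_insert ?_ ?_)) (anti_insert ?_ (anti_insert ?_ ?_))
    · exact hnoP g hg hfg
    · exact hnoP h hh hhf.symm
    · exact anti_P_g1 hJ hf hh hhf.symm hPF hatt'
    · exact PF.apart_ins hg.1 (fan_ends_g1 hJ hg hf hfg.symm)
    · exact PF.apart_ins hh.1 (fan_ends_g1 hJ hh hf hhf)
    · exact PF.anti_ins (hJ.dj h hh f hf hhf)
  · refine anti_union_right ?_ ?_
    · exact anti_mono (anti_P_g1 hJ hf hg hfg hPF hatt') (PF.ins_mono Set.sdiff_subset) le_rfl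
    · exact PF.anti_ins ((hJ.dj g hg f hf hfg.symm).mono_left Set.sdiff_subset)


end Pool.Agent.Work.MP_c4d05f_lc.Str
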