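import Pool.Agent.Work.MP_c4d05f_lc.N.Str.Fan
import Pool.Agent.Work.MP_c4d05f_lc.N.Str.LegB

/-!
# The star in the triangle case (module `Tr`, size M)

Fan `J` at `u` (`exists_fan`), `h` := the third edge at `u` (`Three.triple`; `h ≠ g, w`). Centre `g`,
`U₁ = ins (J g)`, `U₂ = insert h (ins (J h))`, `U₃ = P ∪ ins (J w)`.
- `g` is not in these sets (`u ∉ J`, `P` is outside `D.F`).
- `g` is adjacent to an element of `ins (J g)` at its other end `y` (`two_of_three`: `Two y`, no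
  leaf; `leg_con'`), to `h`, and to some `x ∈ P` (`h1`); `P` is connected and adjacent to some
  `f ∈ ins (J w)` (`h2` and `Fan.rg`).
- `D.rg w f` implies `f = w` or `f ∈ ins (J w)`. So no `x ∈ P` is adjacent to `h` (`no_loop`, `h ≠ g`) or
  to an element of `ins (J g)`, `ins (J h)` (disjoint, and `g`, `w` are not in them since `u ∉ J`).
- the rest: `PF.anti_ins`, `PF.apart_ins`.
-/

set_option autoImplicit false

namespace Pool.Agent.Work.MP_c4d05f_lc.Str

open Pool.Agent.Work.MP_5f857a_co.L (Con)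
open Pool.Agent.Work.MP_c4d05f_lc.N (Clean)
open Pool.Agent.Work.MP_c4d05f_lc.Hav (Anti Apart)

variable {V : Type} {G : SimpleGraph V} {L : Set V} {D : PF G}


private theorem third_tr {u : Option V} (hu : D.Three u) {g w : V} (hg : g ∈ D.st u)
    (hw : w ∈ D.st u) (hgw : g ≠ w) : ∃ h ∈ D.st u, h ≠ g ∧ h ≠ w := by
  obtain ⟨a, b, hag, hbg, hab, hst⟩ := hu.triple hg
  have hw' : w ∈ ({g, a, b} : Set V) := hst ▸ hw
  simp only [Set.mem_insert_iff, Set.mem_singleton_iff] at hw'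
  rcases hw' with h | h | h
  · exact absurd h.symm hgw
  · exact ⟨b, by rw [hst]; simp, hbg, by rw [h]; exact hab.symm⟩
  · exact ⟨a, by rw [hst]; simp, hag, by rw [h]; exact hab⟩

private theorem fan_ends_tr {u : Option V} {J : V → Set (Option V)} (hJ : D.Fan u J) {f g : V}
    (hf : f ∈ D.st u) (hg : g ∈ D.st u) (hfg : f ≠ g) : ∀ x ∈ D.e f, x ∉ J g := by
  intro x hx hxg
  by_cases hxu : x = u
  · subst hxu
    exact hJ.nu g hg hxg
  · exact Set.disjoint_left.1 (hJ.dj f hf g hg hfg) (hJ.nd f hf x hx hxu) hxg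

private theorem not_ins_tr {u : Option V} {J : V → Set (Option V)} (hJ : D.Fan u J) {f g : V}
    (hf : f ∈ D.st u) (hg : g ∈ D.st u) : f ∉ D.ins (J g) :=
  fun h => hJ.nu g hg (h.2 u hf.2)

private theorem ins_dj_tr {u : Option V} {J : V → Set (Option V)} (hJ : D.Fan u J) {f g v : V}
    (hf : f ∈ D.st u) (hg : g ∈ D.st u) (hfg : f ≠ g) (h : v ∈ D.ins (J f)) (h' : v ∈ D.ins (J g)) :
    False := by
  obtain ⟨x, y, -, he⟩ := PF.ends h.1
  have hx : x ∈ D.e v := by rw [he]; simp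
  exact Set.disjoint_left.1 (hJ.dj f hf g hg hfg) (h.2 x hx) (h'.2 x hx)

/-- The neighbours of `P` in the frame are in the rung of `w` or equal to `g`. -/
private theorem anti_P_tr {u : Option V} {J : V → Set (Option V)} (hJ : D.Fan u J) {w h : V}
    (hw : w ∈ D.st u) (hh : h ∈ D.st u) (hwh : w ≠ h) {P : Set V} (hPF : ∀ x ∈ P, x ∉ D.F)
    (hatt : ∀ x ∈ P, ∀ f ∈ D.F, G.Adj x f → f ∈ D.st u ∨ D.rg w f) :
    Anti G (D.ins (J h)) P := by
  intro v hv x hx
  refine ⟨fun hvx => hPF x hx (hvx ▸ hv.1), fun hadj => ?_⟩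
  rcases hatt x hx v hv.1 hadj.symm with h1 | h1
  · exact not_ins_tr hJ h1 hh hv
  · by_cases hvw : v = w
    · subst hvw
      exact not_ins_tr hJ hw hh hv
    · exact ins_dj_tr hJ hw hh hwh (hJ.rg w hw v h1 hvw) hv

/-- From an edge of the rung of `w` to a terminal inside `D.ins (J w)`. -/
private theorem to_leaf_tr (fr : D.Frame L) {u : Option V} {J : V → Set (Option V)}
    (hJ : D.Fan u J) {w f : V} (hw : w ∈ D.st u) (hf : f ∈ D.ins (J w)) :
    ∃ t ∈ L, Con G (D.ins (J w)) f t := by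
  obtain ⟨x, y, -, he⟩ := PF.ends hf.1
  have hx : x ∈ D.e f := by rw [he]; simp
  obtain ⟨d, hd, hdl⟩ := hJ.lf w hw
  obtain ⟨t, ht, hc⟩ := leg_con fr (J := J w) (x := x) (f := f) ⟨hf.1, hx⟩
    ⟨d, hdl, hJ.con w hw x (hf.2 x hx) d hd⟩
  refine ⟨t, ht, con_mono hc ?_⟩
  rintro z (rfl | hz)
  · exact hf
  · exact hz

/-- From the edge `w` at `u` to a terminal. -/
private theorem to_leaf'_tr (fr : D.Frame L) {u : Option V} {J : V → Set (Option V)}
    (hJ : D.Fan u J) {w : V} (hw : w ∈ D.st u) :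
    ∃ t ∈ L, Con G (insert w (D.ins (J w))) w t := by
  obtain ⟨y, hy, he⟩ := PF.other hw.1 hw.2
  have hye : y ∈ D.e w := by rw [he]; simp
  obtain ⟨d, hd, hdl⟩ := hJ.lf w hw
  exact leg_con fr ⟨hw.1, hye⟩ ⟨d, hdl, hJ.con w hw y (hJ.nd w hw y hye hy) d hd⟩

theorem tr [Finite V] (hc : Clean G) (ht : Term G L) (hn : NoStar G L) (fr : D.Frame L)
    {u : Option V} (hu : D.Three u) {g w : V} (hg : g ∈ D.st u) (hw : w ∈ D.st u) (hgw : g ≠ w)
    {P : Set V} (hPF : ∀ x ∈ P, x ∉ D.F) (hP : ∀ x ∈ P, ∀ y ∈ P, Con G P x y)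
    (hatt : ∀ x ∈ P, ∀ f ∈ D.F, G.Adj x f → f = g ∨ D.rg w f) (h1 : ∃ x ∈ P, G.Adj x g)
    (h2 : ∃ x ∈ P, ∃ f ∈ D.F, G.Adj x f ∧ D.rg w f ∧ f ≠ w) : False := by
  obtain ⟨J, hJ⟩ := exists_fan hc ht fr hu
  obtain ⟨h, hh, hhg, hhw⟩ := third_tr hu hg hw hgw
  have hatt' : ∀ x ∈ P, ∀ f ∈ D.F, G.Adj x f → f ∈ D.st u ∨ D.rg w f := by
    intro x hx f hf hadj
    rcases hatt x hx f hf hadj with rfl | h'
    · exact Or.inl hg
    · exact Or.inr h'
  obtain ⟨y, hyu, hey⟩ := PF.other hg.1 hg.2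
  have hye : y ∈ D.e g := by rw [hey]; simp
  have hyJ : y ∈ J g := hJ.nd g hg y hye hyu
  have hy2 : D.Two y := two_of_three hc ht fr hu hg hye hyu
  have hyl : ¬ D.Leaf y := fun h' => h'.not_two hy2
  -- first arm
  have hA1 : Arm G L g (D.ins (J g)) := by
    obtain ⟨d, hd, hdl⟩ := hJ.lf g hg
    obtain ⟨k, hk, hyk, t, htL, hc1⟩ := leg_con' fr hyl ⟨d, hdl, hJ.con g hg y hyJ d hd⟩
    refine arm_of (not_ins_tr hJ hg hg) ?_ hc1 htL
    refine PF.adj_of_st (x := y) ⟨hg.1, hye⟩ ⟨hk.1, hyk⟩ ?_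
    rintro rfl
    exact not_ins_tr hJ hg hg hk
  have hA2 : Arm G L g (insert h (D.ins (J h))) := by
    obtain ⟨t, htL, hc1⟩ := to_leaf'_tr fr hJ hh
    refine arm_of ?_ (PF.adj_of_st hg hh hhg.symm) hc1 htL
    rintro (h' | h')
    · exact hhg h'.symm
    · exact not_ins_tr hJ hg hh h'
  have hA3 : Arm G L g (P ∪ D.ins (J w)) := by
    obtain ⟨x, hx, hxg⟩ := h1
    obtain ⟨x', hx', f, hf, hxf, hrg, hfw⟩ := h2
    have hfi : f ∈ D.ins (J w) := hJ.rg w hw f hrg hfw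
    obtain ⟨t, htL, hc1⟩ := to_leaf_tr fr hJ hw hfi
    refine arm_of (x := x) (t := t) ?_ hxg.symm ?_ htL
    · rintro (h' | h')
      · exact hPF g h' hg.1
      · exact not_ins_tr hJ hg hw h'
    · refine (con_mono (hP x hx x' hx') Set.subset_union_left).trans ?_
      exact (con_adj hxf (Or.inl hx') (Or.inr hfi)).trans (con_mono hc1 Set.subset_union_right)
  refine hn.apply hA1 hA2 hA3 ?_ ?_ ?_
  · refine anti_insert_right (fun v hv => ?_) (PF.anti_ins (hJ.dj g hg h hh hhg.symm))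
    exact (PF.apart_ins hh.1 (fan_ends_tr hJ hh hg hhg) v hv).symm
  · refine anti_union_right ?_ (PF.anti_ins (hJ.dj g hg w hw hgw))
    exact anti_P_tr hJ hw hg hgw.symm hPF hatt'
  · refine anti_union_right (anti_insert ?_ ?_) (anti_insert ?_ ?_)
    · intro v hv
      refine ⟨fun hvx => hPF v hv (hvx ▸ hh.1), fun hadj => ?_⟩
      rcases hatt v hv h hh.1 hadj.symm with h' | h'
      · exact hhg h'
      · exact no_loop hc ht fr hu hw hh hhw.symm h'
    · exact anti_P_tr hJ hw hh hhw.symm hPF hatt'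
    · exact PF.apart_ins hh.1 (fan_ends_tr hJ hh hw hhw)
    · exact PF.anti_ins (hJ.dj h hh w hw hhw)


end Pool.Agent.Work.MP_c4d05f_lc.Str
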