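import Pool.Agent.Work.MP_c4d05f_lc.N.Str.Min
import Pool.Agent.Work.MP_c4d05f_lc.N.Str.Tr
import Pool.Agent.Work.MP_c4d05f_lc.N.Str.Gam1
import Pool.Agent.Work.MP_c4d05f_lc.N.Str.Single

/-!
# Case gamma 1: a common node (module `Gamma1`, size M)

`single` for `p` and for `q`: all neighbours of `p` in the frame are in the rung of `e`, those of `q`
in the rung of `e'`, and `¬ rg e e'`. `f`, `g` are at the node `u`: `u` is not a leaf (`f ≠ g`), not of
degree two (`PF.rg_of` would give `rg e e'`), so `Three u`.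
- If all frame neighbours of `q` are `g` (so `e' = g`, `e ≠ f`): `tr` with `g`, `w := f`, `P`.
- If all frame neighbours of `p` are `f` (`e = f`, `e' ≠ g`): `tr` with `g := f`, `w := g`.
- Otherwise `gam1` with `p := q`, `P := P \ {q}` (connected by `hQ`; its frame neighbours are those of
  `p` because the inner vertices have none; some vertex of `P \ {q}` is adjacent to `q` because `P` is
  connected).
-/

set_option autoImplicit false

namespace Pool.Agent.Work.MP_c4d05f_lc.Str

open Pool.Agent.Work.MP_5f857a_co.L (Con)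
open Pool.Agent.Work.MP_c4d05f_lc.N (Clean)
open Pool.Agent.Work.MP_c4d05f_lc.Hav (Anti Apart)

variable {V : Type} {G : SimpleGraph V} {L : Set V} {D : PF G}


theorem gamma1 [Finite V] (hc : Clean G) (ht : Term G L) (hn : NoStar G L) (fr : D.Frame L)
    {P : Set V} (hP : Cn G P) (hPF : ∀ x ∈ P, x ∉ D.F) {p q e e' : V} (hp : p ∈ P) (hq : q ∈ P)
    (hpq : p ≠ q) (he : e ∈ D.F) (he' : e' ∈ D.F) (hpe : G.Adj p e) (hqe : G.Adj q e')
    (hcmp : ¬ D.cmp e e') (hQ : Cn G (P \ {q}))
    (hint : ∀ r ∈ P, r ≠ p → r ≠ q → ∀ w ∈ D.F, ¬ G.Adj r w) {f g : V} {u : Option V}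
    (hf : f ∈ D.st u) (hg : g ∈ D.st u) (hpf : G.Adj p f) (hqg : G.Adj q g) : False := by
  have hsp : ∀ k ∈ D.F, G.Adj p k → D.rg f k := fun k hk hadj =>
    single hc ht hn fr (hPF p hp) hf.1 hk hpf hadj
  have hsq : ∀ k ∈ D.F, G.Adj q k → D.rg g k := fun k hk hadj =>
    single hc ht hn fr (hPF q hq) hg.1 hk hqg hadj
  have hnr : ¬ D.rg e e' := fun h => hcmp (Or.inl h)
  have hnfg : ¬ D.rg f g := fun h =>
    hnr (PF.rg_trans (PF.rg_symm (hsp e he hpe)) (PF.rg_trans h (hsq e' he' hqe)))
  have hfg : f ≠ g := by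
    rintro rfl
    exact hnfg (PF.rg_refl f)
  have hu : D.Three u := by
    rcases PF.deg_cases hc ⟨f, hf⟩ with h | h | h
    · exact absurd (h.eq hf hg) hfg
    · exact absurd (PF.rg_of h hf hg) hnfg
    · exact h
  by_cases hA : ∀ k ∈ D.F, G.Adj q k → k = g
  · have heg : e' = g := hA e' he' hqe
    refine tr hc ht hn fr hu hg hf hfg.symm hPF hP ?_ ⟨q, hq, hqg⟩
      ⟨p, hp, e, he, hpe, hsp e he hpe, ?_⟩
    · intro x hx k hk hadj
      by_cases hxp : x = p
      · subst hxp
        exact Or.inr (hsp k hk hadj)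
      · by_cases hxq : x = q
        · subst hxq
          exact Or.inl (hA k hk hadj)
        · exact absurd hadj (hint x hx hxp hxq k hk)
    · rintro rfl
      subst heg
      exact hcmp (Or.inr ⟨u, hu, hf, hg⟩)
  · by_cases hB : ∀ k ∈ D.F, G.Adj p k → k = f
    · have hef : e = f := hB e he hpe
      refine tr hc ht hn fr hu hf hg hfg hPF hP ?_ ⟨p, hp, hpf⟩
        ⟨q, hq, e', he', hqe, hsq e' he' hqe, ?_⟩
      · intro x hx k hk hadj
        by_cases hxp : x = p
        · subst hxp
          exact Or.inl (hB k hk hadj)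
        · by_cases hxq : x = q
          · subst hxq
            exact Or.inr (hsq k hk hadj)
          · exact absurd hadj (hint x hx hxp hxq k hk)
      · rintro rfl
        subst hef
        exact hcmp (Or.inr ⟨u, hu, hf, hg⟩)
    · push Not at hA hB
      obtain ⟨k, hk, hqk, hkg⟩ := hA
      obtain ⟨k', hk', hpk', hkf'⟩ := hB
      refine gam1 (p := q) (P := P \ {q}) hc ht hn fr hu hf hg hfg (hPF q hq)
        (fun x hx => hPF x hx.1) hQ (fun h => h.2 rfl) ?_ ?_
        ⟨p, ⟨hp, by simpa using hpq⟩, k', hk', hpk', hkf'⟩ hsq hqg ⟨k, hk, hqk, hkg⟩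
      · obtain ⟨W, hW⟩ := hP q hq p hp
        cases W with
        | nil => exact absurd rfl hpq
        | @cons _ v _ hadj W' =>
          exact ⟨v, ⟨hW v (by simp), by simpa using hadj.ne.symm⟩, hadj⟩
      · rintro x ⟨hx, hxq⟩ k hk hadj
        by_cases hxp : x = p
        · subst hxp
          exact hsp k hk hadj
        · exact absurd hadj (hint x hx hxp (by simpa using hxq) k hk)


end Pool.Agent.Work.MP_c4d05f_lc.Str
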