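import Pool.Agent.Work.MP_c4d05f_lc.N.Str.Alpha
import Pool.Agent.Work.MP_c4d05f_lc.N.Str.Gamma1
import Pool.Agent.Work.MP_c4d05f_lc.N.Str.Gam0
import Pool.Agent.Work.MP_c4d05f_lc.N.Str.FrEar
import Pool.Agent.Work.MP_c4d05f_lc.SP

/-!
# Locality (module `Loc`, size M)

`hmax`: the frame has the maximal number of nodes of degree three.
`loc_cmp`: by contradiction; `min_set` gives a minimal `P` and `p, q ∈ P`, `e`, `e'` with
`¬ cmp e e'`. If `p = q`: `single`. Otherwise `min_del` for `q` and for `p` (with exchanged roles,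
`PF.cmp_symm`): `P \ {q}` and `P \ {p}` are connected, proper subsets, so `AttCmp`. `alpha`: the other
vertices of `P` have no neighbours in the frame. `gamma1`: no neighbours `f` of `p`, `g` of `q` share a
node. `gam0`: `Eit p` and `Eit q` are empty. So (`eit_or_spec`, `spec_unique`) the neighbours of `p` are
exactly the edges at a special node `m` and those of `q` the edges at `m'` (`single` shows
`rg`-classes; `¬ rg e e'`). Take an induced path from `p` to `q` inside `P` (`exists_indPath`, file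
`SP.lean`, after converting `Con` to `Reach`), its length is at least `1`; `frame_ear` contradicts
`hmax`.
`loc`: all neighbours of `P` in the frame are pairwise compatible. If two of them, `f₀`, `f₁`, are not
in the same rung, they are in `D.st u`, `Three u`, and `u` is the only end of degree three of each
of them (`two_of_three`). Another neighbour `f` with `u ∉ D.e f` would be `rg` to both.
-/

set_option autoImplicit false

namespace Pool.Agent.Work.MP_c4d05f_lc.Str

open Pool.Agent.Work.MP_5f857a_co.L (Con)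
open Pool.Agent.Work.MP_c4d05f_lc.N (Clean)
open Pool.Agent.Work.MP_c4d05f_lc.Hav (Anti Apart)

variable {V : Type} {G : SimpleGraph V} {L : Set V} {D : PF G}

private theorem uniq3_loc (hc : Clean G) (ht : Term G L) (fr : D.Frame L) {f : V}
    {u y : Option V} (hu : D.Three u) (hy : D.Three y) (hf : f ∈ D.st u) (hf' : f ∈ D.st y) :
    y = u := by
  by_contra h
  exact (two_of_three hc ht fr hu hf hf'.2 h).not_three hy

theorem loc_cmp [Finite V] (hc : Clean G) (ht : Term G L) (hn : NoStar G L) (fr : D.Frame L)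
    (hmax : ∀ D' : PF G, D'.Frame L → D'.n3 ≤ D.n3) {P : Set V} (hP : Cn G P)
    (hPF : ∀ x ∈ P, x ∉ D.F) : AttCmp D P := by
  by_contra hcon
  obtain ⟨P', hP', hPF', hcon', hmin⟩ := min_set D hP hPF hcon
  clear hP hPF hcon
  unfold AttCmp at hcon'
  push Not at hcon'
  obtain ⟨p, hp, q, hq, e, he, e', he', hpe, hqe, hcmp⟩ := hcon'
  have hnr : ¬ D.rg e e' := fun h => hcmp (Or.inl h)
  rcases eq_or_ne p q with rfl | hpq
  · exact hnr (single hc ht hn fr (hPF' p hp) he he' hpe hqe)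
  have hcmp' : ¬ D.cmp e' e := fun h => hcmp (PF.cmp_symm h)
  have hQ := min_del hP' hmin hp hq hpq he he' hpe hqe hcmp
  have hR := min_del hP' hmin hq hp hpq.symm he' he hqe hpe hcmp'
  have hss : ∀ r ∈ P', P' \ {r} ⊂ P' := fun r hr =>
    ⟨Set.sdiff_subset, fun h => (h hr).2 rfl⟩
  have hA : AttCmp D (P' \ {q}) := hmin _ (hss q hq) hQ
  have hB : AttCmp D (P' \ {p}) := hmin _ (hss p hp) hR
  have hint : ∀ r ∈ P', r ≠ p → r ≠ q → ∀ w ∈ D.F, ¬ G.Adj r w :=
    fun r hr hrp hrq w hw hrw =>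
      alpha hc ht hn fr hP' hPF' hp hq hpq he he' hpe hqe hcmp hA hB hr hrp hrq hw hrw
  have hno : ∀ f ∈ D.F, ∀ g ∈ D.F, G.Adj p f → G.Adj q g → ∀ x ∈ D.e f, x ∉ D.e g := by
    intro f hf g hg hpf hqg x hx hx'
    exact gamma1 hc ht hn fr hP' hPF' hp hq hpq he he' hpe hqe hcmp hQ hint ⟨hf, hx⟩ ⟨hg, hx'⟩
      hpf hqg
  have hE : ¬ (D.Eit p ∪ D.Eit q).Nonempty := fun h =>
    gam0 hc ht hn fr hP' hPF' hp hq hpq he he' hpe hqe hnr hQ hR hint hno h
  have hEp : ∀ f ∈ D.F, G.Adj p f → ∃ m ∈ D.e f, D.Spec p m := by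
    intro f hf hpf
    rcases eit_or_spec hf hpf with h | h
    · exact absurd ⟨f, Or.inl h⟩ hE
    · exact h
  have hEq : ∀ f ∈ D.F, G.Adj q f → ∃ m ∈ D.e f, D.Spec q m := by
    intro f hf hqf
    rcases eit_or_spec hf hqf with h | h
    · exact absurd ⟨f, Or.inr h⟩ hE
    · exact h
  obtain ⟨m, hme, hm⟩ := hEp e he hpe
  obtain ⟨m', hme', hm'⟩ := hEq e' he' hqe
  have h0 : ∀ f ∈ D.F, G.Adj p f ↔ m ∈ D.e f := by
    intro f hf
    constructor
    · intro h
      obtain ⟨m1, h1, h2⟩ := hEp f hf h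
      rw [spec_unique hc hm h2]
      exact h1
    · intro h
      exact hm.2 f ⟨hf, h⟩
  have hl : ∀ f ∈ D.F, G.Adj q f ↔ m' ∈ D.e f := by
    intro f hf
    constructor
    · intro h
      obtain ⟨m1, h1, h2⟩ := hEq f hf h
      rw [spec_unique hc hm' h2]
      exact h1
    · intro h
      exact hm'.2 f ⟨hf, h⟩
  have hrg : ∀ f ∈ D.st m, ∀ g ∈ D.st m', ¬ D.rg f g := by
    intro f hf g hg h
    exact hnr (PF.rg_trans (PF.rg_of hm.1 ⟨he, hme⟩ hf)
      (PF.rg_trans h (PF.rg_of hm'.1 hg ⟨he', hme'⟩)))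
  obtain ⟨w, hw⟩ := hP' p hp q hq
  obtain ⟨n, u, hu, hu0, hun⟩ :=
    Pool.Agent.Work.MP_c4d05f_lc.exists_indPath_of_reachable (H := G.induce P')
      ⟨w.induce P' hw⟩
  have hv : IndPath G n (fun i => (u i : V)) := by
    intro i j hij hj
    obtain ⟨h1, h2⟩ := hu i j hij hj
    exact ⟨fun he => h1 (Subtype.ext he), by simpa using h2⟩
  have hv0 : (u 0 : V) = p := by rw [hu0]
  have hvn : (u n : V) = q := by rw [hun]
  have hn1 : 1 ≤ n := by
    rcases Nat.eq_zero_or_pos n with h | h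
    · subst h
      exact absurd (hv0.symm.trans hvn) hpq
    · exact h
  obtain ⟨D', hD', hlt⟩ := frame_ear hc fr hm.1 hm'.1 hrg n hn1 (fun i => (u i : V)) hv
    (fun i _ => hPF' _ (u i).2)
    (fun f hf => by
      have := h0 f hf
      rw [← hv0] at this
      exact this)
    (fun f hf => by
      have := hl f hf
      rw [← hvn] at this
      exact this)
    (fun i hi hin f hf => hint (u i) (u i).2
      (fun h => (hv 0 i hi hin.le).1 (hv0.trans h.symm))
      (fun h => (hv i n hin le_rfl).1 (h.trans hvn.symm)) f hf)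
  exact absurd (hmax D' hD') (not_le.2 hlt)

theorem loc [Finite V] (hc : Clean G) (ht : Term G L) (hn : NoStar G L) (fr : D.Frame L)
    (hmax : ∀ D' : PF G, D'.Frame L → D'.n3 ≤ D.n3) {P : Set V} (hP : Cn G P)
    (hPF : ∀ x ∈ P, x ∉ D.F) :
    (∃ r ∈ D.F, ∀ x ∈ P, ∀ f ∈ D.F, G.Adj x f → D.rg r f) ∨
    (∃ u, D.Three u ∧ ∀ x ∈ P, ∀ f ∈ D.F, G.Adj x f → f ∈ D.st u) := by
  have hcmp := loc_cmp hc ht hn fr hmax hP hPF
  by_cases hex : ∃ x ∈ P, ∃ f ∈ D.F, G.Adj x f
  · obtain ⟨x₀, hx₀, f₀, hf₀, ha₀⟩ := hex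
    by_cases hall : ∀ x ∈ P, ∀ f ∈ D.F, G.Adj x f → D.rg f₀ f
    · exact Or.inl ⟨f₀, hf₀, hall⟩
    · push Not at hall
      obtain ⟨x₁, hx₁, f₁, hf₁, ha₁, hnr⟩ := hall
      rcases hcmp x₀ hx₀ x₁ hx₁ f₀ hf₀ f₁ hf₁ ha₀ ha₁ with h | ⟨u, hu, h1, h2⟩
      · exact absurd h hnr
      right
      refine ⟨u, hu, fun x hx f hf ha => ?_⟩
      by_contra hfu
      have k0 : D.rg f₀ f := by
        rcases hcmp x₀ hx₀ x hx f₀ hf₀ f hf ha₀ ha with h | ⟨y, hy, h3, h4⟩
        · exact h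
        · rw [uniq3_loc hc ht fr hu hy h1 h3] at h4
          exact absurd h4 hfu
      have k1 : D.rg f₁ f := by
        rcases hcmp x₁ hx₁ x hx f₁ hf₁ f hf ha₁ ha with h | ⟨y, hy, h3, h4⟩
        · exact h
        · rw [uniq3_loc hc ht fr hu hy h2 h3] at h4
          exact absurd h4 hfu
      exact hnr (PF.rg_trans k0 (PF.rg_symm k1))
  · left
    obtain ⟨x, f, hf⟩ := fr.one
    have hfF : f ∈ D.st x := by rw [hf]; exact rfl
    exact ⟨f, hfF.1, fun y hy g hg hyg => absurd ⟨y, hy, g, hg, hyg⟩ hex⟩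

end Pool.Agent.Work.MP_c4d05f_lc.Str
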