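import Pool.Agent.Work.MP_c4d05f_lc.N.Str.PathX
import Pool.Agent.Work.MP_c4d05f_lc.N.Str.Sub
import Pool.Agent.Work.MP_c4d05f_lc.N.Str.Brg

/-!
# A bigger frame from a pendant path (module `FrPend`, size L)

`pend` gives `D'`. `D'.st m = insert (u 0) (D.st m)` has three elements; `D'.st (some (u i)) =
{u i, u (i + 1)}` for `i < n`, `D'.st (some (u n)) = {u n}`, and the star of every other node is
the old one (`some (u i)` is not a node of `D` by `D.nm`; `st_eq`).
Frame: `leaf`: old leaves are not `m` (`Two m`), the new leaf has the edge `u n ∈ L`. `con`: the new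
nodes are joined to `m` along the path. `one`, `two`: clear (`n = 0` allowed; `u 0` and an edge
at `m`). `fr4`: old nodes of degree three: `fr4_old`. `x = m`: if `S` contains no new node, `m` is joined
to the new leaf along the path outside `S`. Otherwise let `S₀` be the set of the elements of `S` which
are nodes of `D` or all elements but one new node, `S₀.card ≤ 1`; if `m` is not joined to a leaf of `D` in
`D.H - S` then `bridge` with `E = ∅`, `M = {m}` and `S₀` (`m ∉ S₀`) gives `S₀.card = 2`: contradiction.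
(Walks of `D.H` which start at a node of `D` never meet a new node.)
`n3`: `n3_lt` with `m`.
-/

set_option autoImplicit false

namespace Pool.Agent.Work.MP_c4d05f_lc.Str

open Pool.Agent.Work.MP_5f857a_co.L (Con)
open Pool.Agent.Work.MP_c4d05f_lc.N (Clean)
open Pool.Agent.Work.MP_c4d05f_lc.Hav (Anti Apart)

variable {V : Type} {G : SimpleGraph V} {L : Set V} {D : PF G}

theorem frame_pend [Finite V] (hc : Clean G) (fr : D.Frame L) {m : Option V} (hm : D.Two m)
    (n : ℕ) (u : ℕ → V) (hu : IndPath G n u) (huF : ∀ i ≤ n, u i ∉ D.F)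
    (h0 : ∀ f ∈ D.F, G.Adj (u 0) f ↔ m ∈ D.e f)
    (h1 : ∀ i, 1 ≤ i → i ≤ n → ∀ f ∈ D.F, ¬ G.Adj (u i) f) (hL : u n ∈ L) :
    ∃ D' : PF G, D'.Frame L ∧ D.n3 < D'.n3 := by
  classical
  have hmn : (D.st m).Nonempty := PF.Two.ne_empty hm
  obtain ⟨D', hF, he, hu0, hui⟩ := pend D hmn n u hu huF h0 h1
  have hsub : D.F ⊆ D'.F := by rw [hF]; exact Set.subset_union_left
  have hinj : ∀ i j, i ≤ n → j ≤ n → u i = u j → i = j := by
    intro i j hi hj hij
    rcases lt_trichotomy i j with h | h | h
    · exact absurd hij (hu i j h hj).1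
    · exact h
    · exact absurd hij.symm (hu j i h hi).1
  -- new nodes are not nodes of `D`
  have hnew : ∀ i ≤ n, ¬ (D.st (some (u i))).Nonempty := by
    rintro i hi ⟨f, hf, hf'⟩
    exact huF i hi (D.nm f hf _ hf')
  have hmu : ∀ i ≤ n, m ≠ some (u i) := fun i hi h => hnew i hi (h ▸ hmn)
  have huF' : ∀ i ≤ n, u i ∈ D'.F := fun i hi => by rw [hF]; exact Or.inr ⟨i, hi, rfl⟩
  have hold : ∀ f ∈ D'.F, f ∉ D.F → ∃ i ≤ n, f = u i := by
    intro f hf hf'
    rw [hF] at hf
    exact hf.resolve_left hf'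
  -- the ends of the new edges
  have hend : ∀ i ≤ n, ∀ x, x ∈ D'.e (u i) ↔ x = some (u i) ∨ (i = 0 ∧ x = m) ∨
      (∃ j, i = j + 1 ∧ x = some (u j)) := by
    intro i hi x
    rcases i with _ | i
    · rw [hu0, Sym2.mem_iff]
      constructor
      · rintro (h | h)
        · exact Or.inr (Or.inl ⟨rfl, h⟩)
        · exact Or.inl h
      · rintro (h | ⟨-, h⟩ | ⟨j, hj, -⟩)
        · exact Or.inr h
        · exact Or.inl h
        · omega
    · rw [hui i (by omega), Sym2.mem_iff]
      constructor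
      · rintro (h | h)
        · exact Or.inr (Or.inr ⟨i, rfl, h⟩)
        · exact Or.inl h
      · rintro (h | ⟨h, -⟩ | ⟨j, hj, h⟩)
        · exact Or.inr h
        · omega
        · have : i = j := by omega
          subst this
          exact Or.inl h
  -- the stars
  have hst_old : ∀ x, x ≠ m → (∀ i ≤ n, x ≠ some (u i)) → D'.st x = D.st x := by
    intro x hxm hxu
    refine st_eq hsub he fun f hf hf' hx => ?_
    obtain ⟨i, hi, rfl⟩ := hold f hf hf'
    rcases (hend i hi x).1 hx with h | ⟨-, h⟩ | ⟨j, hj, h⟩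
    · exact hxu i hi h
    · exact hxm h
    · exact hxu j (by omega) h
  have hst_m : D'.st m = insert (u 0) (D.st m) := by
    ext f
    constructor
    · rintro ⟨hf, hx⟩
      by_cases hf' : f ∈ D.F
      · exact Or.inr ⟨hf', by rw [← he f hf']; exact hx⟩
      · obtain ⟨i, hi, rfl⟩ := hold f hf hf'
        rcases (hend i hi m).1 hx with h | ⟨h, -⟩ | ⟨j, hj, h⟩
        · exact absurd h (hmu i hi)
        · subst h
          exact Or.inl rfl
        · exact absurd h (hmu j (by omega))
    · rintro (rfl | hf)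
      · exact ⟨huF' 0 (Nat.zero_le n), (hend 0 (Nat.zero_le n) m).2 (Or.inr (Or.inl ⟨rfl, rfl⟩))⟩
      · exact st_sub hsub he m hf
  have hst_new : ∀ i ≤ n, ∀ f, f ∈ D'.st (some (u i)) ↔ f = u i ∨ (i < n ∧ f = u (i + 1)) := by
    intro i hi f
    constructor
    · rintro ⟨hf, hx⟩
      by_cases hf' : f ∈ D.F
      · exact absurd ⟨f, hf', by rw [← he f hf']; exact hx⟩ (hnew i hi)
      · obtain ⟨k, hk, rfl⟩ := hold f hf hf'
        rcases (hend k hk _).1 hx with h | ⟨h, h'⟩ | ⟨j, hj, h⟩
        · exact Or.inl (Option.some.inj h).symm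
        · exact absurd h'.symm (hmu i hi)
        · have : i = j := hinj i j hi (by omega) (Option.some.inj h)
          subst this
          right
          exact ⟨by omega, by rw [hj]⟩
    · rintro (rfl | ⟨h, rfl⟩)
      · exact ⟨huF' i hi, (hend i hi _).2 (Or.inl rfl)⟩
      · exact ⟨huF' (i + 1) h, (hend (i + 1) h _).2 (Or.inr (Or.inr ⟨i, rfl, rfl⟩))⟩
  have hst_n : D'.st (some (u n)) = {u n} := by
    ext f
    rw [hst_new n le_rfl f, Set.mem_singleton_iff]
    exact ⟨fun h => h.elim id fun h => absurd h.1 (lt_irrefl n), Or.inl⟩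
  have hst_i : ∀ i < n, D'.st (some (u i)) = {u i, u (i + 1)} := by
    intro i hi
    ext f
    rw [hst_new i hi.le f, Set.mem_insert_iff, Set.mem_singleton_iff]
    exact ⟨fun h => h.imp_right fun h => h.2, fun h => h.imp_right fun h => ⟨hi, h⟩⟩
  have hne1 : ∀ i < n, u i ≠ u (i + 1) := fun i hi => (hu i (i + 1) (Nat.lt_succ_self i) hi).1
  -- `m` has degree three
  have hm3 : D'.Three m := by
    obtain ⟨f, g, hfg, hfg'⟩ := hm
    have hf : f ∈ D.st m := by rw [hfg']; simp
    have hg : g ∈ D.st m := by rw [hfg']; simp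
    exact ⟨u 0, f, g, fun h => huF 0 (Nat.zero_le n) (h ▸ hf.1),
      fun h => huF 0 (Nat.zero_le n) (h ▸ hg.1), hfg, by rw [hst_m, hfg']⟩
  have hleafn : D'.Leaf (some (u n)) := ⟨u n, hst_n⟩
  -- old leaves
  have hleaf : ∀ d, D.Leaf d → D'.Leaf d := by
    intro d hd
    have h1 : d ≠ m := fun h => PF.Leaf.not_two (h ▸ hd) hm
    have h2 : ∀ i ≤ n, d ≠ some (u i) := fun i hi h => hnew i hi (h ▸ PF.Leaf.ne_empty hd)
    obtain ⟨f, hf⟩ := hd
    exact ⟨f, by rw [hst_old d h1 h2, hf]⟩
  have hthree : ∀ d, D.Three d → D'.Three d := by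
    intro d hd
    have h1 : d ≠ m := fun h => PF.Two.not_three hm (h ▸ hd)
    have h2 : ∀ i ≤ n, d ≠ some (u i) := fun i hi h => hnew i hi (h ▸ PF.Three.ne_empty hd)
    obtain ⟨f, g, k, a1, a2, a3, hf⟩ := hd
    exact ⟨f, g, k, a1, a2, a3, by rw [hst_old d h1 h2, hf]⟩
  -- the path
  have hadj0 : D'.H.Adj m (some (u 0)) :=
    PF.h_adj_of (huF' 0 (Nat.zero_le n)) ((hend 0 (Nat.zero_le n) m).2 (Or.inr (Or.inl ⟨rfl, rfl⟩)))
      ((hend 0 (Nat.zero_le n) _).2 (Or.inl rfl)) (hmu 0 (Nat.zero_le n))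
  have hadji : ∀ i < n, D'.H.Adj (some (u i)) (some (u (i + 1))) := fun i hi =>
    PF.h_adj_of (huF' (i + 1) hi) ((hend (i + 1) hi _).2 (Or.inr (Or.inr ⟨i, rfl, rfl⟩)))
      ((hend (i + 1) hi _).2 (Or.inl rfl)) (fun h => hne1 i hi (Option.some.inj h))
  have hpath : ∀ (J : Set (Option V)), m ∈ J → (∀ i ≤ n, some (u i) ∈ J) → ∀ i ≤ n,
      Con D'.H J m (some (u i)) := by
    intro J hmJ hJ i
    induction i with
    | zero => exact fun hi => con_adj hadj0 hmJ (hJ 0 hi)
    | succ i ih =>
      intro hi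
      exact (ih (by omega)).trans (con_adj (hadji i hi) (hJ i (by omega)) (hJ (i + 1) hi))
  refine ⟨D', ⟨?_, ?_, ⟨_, hleafn⟩, ?_, ?_⟩, n3_lt hthree (PF.Two.not_three hm) hm3⟩
  · -- leaves
    intro x f hx
    by_cases hxm : x = m
    · subst hxm
      exact absurd hm3 (PF.Leaf.not_three ⟨f, hx⟩)
    by_cases hxu : ∃ i ≤ n, x = some (u i)
    · obtain ⟨i, hi, rfl⟩ := hxu
      rcases Nat.lt_or_ge i n with h | h
      · rw [hst_i i h] at hx
        have h1 : u i ∈ ({f} : Set V) := by rw [← hx]; simp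
        have h2 : u (i + 1) ∈ ({f} : Set V) := by rw [← hx]; simp
        rw [Set.mem_singleton_iff] at h1 h2
        exact absurd (h1.trans h2.symm) (hne1 i h)
      · have : i = n := le_antisymm hi h
        subst this
        rw [hst_n] at hx
        have h1 : u i ∈ ({f} : Set V) := by rw [← hx]; simp
        rw [Set.mem_singleton_iff] at h1
        rw [← h1]
        exact hL
    · push Not at hxu
      rw [hst_old x hxm hxu] at hx
      exact fr.leaf x f hx
  · -- connected
    have key : ∀ x, (D'.st x).Nonempty → Con D'.H Set.univ m x := by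
      intro x hx
      by_cases hxm : x = m
      · subst hxm
        exact con_refl (Set.mem_univ _)
      by_cases hxu : ∃ i ≤ n, x = some (u i)
      · obtain ⟨i, hi, rfl⟩ := hxu
        exact hpath _ (Set.mem_univ _) (fun _ _ => Set.mem_univ _) i hi
      · push Not at hxu
        rw [hst_old x hxm hxu] at hx
        exact (fr.con m x hmn hx).mono (h_le hsub he) le_rfl
    intro x y hx hy
    exact (key x hx).symm.trans (key y hy)
  · -- two edges
    intro f hf
    by_cases hf' : f ∈ D.F
    · obtain ⟨g, hg, hgf⟩ := fr.two f hf'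
      exact ⟨g, hsub hg, hgf⟩
    · obtain ⟨g, hg⟩ := hmn
      exact ⟨g, hsub hg.1, fun h => hf' (h ▸ hg.1)⟩
  · -- nodes of degree three
    intro x hx S hS hxS
    by_cases hxm : x = m
    · subst hxm
      by_cases hSu : ∃ i ≤ n, some (u i) ∈ S
      · obtain ⟨i, hi, hiS⟩ := hSu
        obtain ⟨S₀, hS₀⟩ : ∃ S₀, S₀ = S.erase (some (u i)) := ⟨_, rfl⟩
        have hcard : S₀.card ≤ 1 := by
          rw [hS₀, Finset.card_erase_of_mem hiS]
          omega
        have hxS₀ : x ∉ S₀ := fun h => hxS (by rw [hS₀] at h; exact Finset.mem_of_mem_erase h)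
        obtain ⟨d, hd, hcon⟩ : ∃ d, D.Leaf d ∧ Con D.H (S₀ : Set (Option V))ᶜ x d := by
          by_contra hcon
          push Not at hcon
          have hb := bridge hc fr (S := S₀) (by omega) (E := ∅) (M := {x})
            (Set.empty_subset _) (fun y hy => by rw [Set.mem_singleton_iff.1 hy]; exact hm)
            (fun y _ hy d hd => by
              rcases hy with hy | ⟨f, hf, -⟩
              · rw [Set.mem_singleton_iff.1 hy]
                exact hcon d hd
              · exact absurd hf (Set.notMem_empty f))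
            (Or.inr ⟨x, rfl, hxS₀⟩)
          omega
        refine ⟨d, hleaf d hd, ?_⟩
        have h2 : Con D.H ({y | (D.st y).Nonempty} ∩ (S₀ : Set (Option V))ᶜ) x d := by
          refine hcon.restrict hmn fun a b' _ _ hab _ => ?_
          obtain ⟨-, f, hf, -, hb'⟩ := hab
          exact ⟨f, hf, hb'⟩
        refine h2.mono (h_le hsub he) ?_
        rintro y ⟨hy, hyS⟩ hyS'
        refine hyS ?_
        rw [hS₀]
        exact Finset.mem_coe.2 (Finset.mem_erase.2 ⟨fun h => hnew i hi (h ▸ hy), hyS'⟩)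
      · push Not at hSu
        exact ⟨_, hleafn, hpath _ hxS (fun i hi => hSu i hi) n le_rfl⟩
    by_cases hxu : ∃ i ≤ n, x = some (u i)
    · obtain ⟨i, hi, rfl⟩ := hxu
      exfalso
      rcases Nat.lt_or_ge i n with h | h
      · exact PF.Two.not_three ⟨u i, u (i + 1), hne1 i h, hst_i i h⟩ hx
      · have : i = n := le_antisymm hi h
        subst this
        exact PF.Leaf.not_three hleafn hx
    · push Not at hxu
      have hx' : D.Three x := by
        obtain ⟨f, g, k, a1, a2, a3, hf⟩ := hx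
        exact ⟨f, g, k, a1, a2, a3, by rw [← hst_old x hxm hxu, hf]⟩
      exact fr4_old fr hsub he hleaf hx' S hS hxS

end Pool.Agent.Work.MP_c4d05f_lc.Str
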