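import Pool.Agent.Work.MP_c4d05f_lc.N.Str.Bas

/-!
# Minimal connected sets (module `Min`, size S-M)

`min_set`: take `P` with `Set.ncard P` minimal. `min_del`: let `P'` be the set of the vertices
joined to `p` inside `P \ {q}`. `P' ∪ {q}` is connected: `q` is adjacent to a vertex of `P'` (a walk
from `p` to `q` inside `P`, first visit of `q`). It contains `p` and `q`, so it is not `AttCmp`;
minimality gives `P = P' ∪ {q}`, so `P \ {q} = P'` is connected.
-/

set_option autoImplicit false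

namespace Pool.Agent.Work.MP_c4d05f_lc.Str

open Pool.Agent.Work.MP_5f857a_co.L (Con)
open Pool.Agent.Work.MP_c4d05f_lc.N (Clean)
open Pool.Agent.Work.MP_c4d05f_lc.Hav (Anti Apart)

variable {V : Type} {G : SimpleGraph V} {L : Set V} {D : PF G}

/-- `P` is connected. -/
def Cn (G : SimpleGraph V) (P : Set V) : Prop := ∀ x ∈ P, ∀ y ∈ P, Con G P x y

/-- The neighbours of `P` in the frame are pairwise compatible. -/
def AttCmp (D : PF G) (P : Set V) : Prop :=
  ∀ x ∈ P, ∀ y ∈ P, ∀ f ∈ D.F, ∀ g ∈ D.F, G.Adj x f → G.Adj y g → D.cmp f g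

theorem min_set [Finite V] (D : PF G) {P : Set V} (hP : Cn G P) (hPF : ∀ x ∈ P, x ∉ D.F)
    (h : ¬ AttCmp D P) : ∃ P' : Set V, Cn G P' ∧ (∀ x ∈ P', x ∉ D.F) ∧ ¬ AttCmp D P' ∧
      ∀ Q ⊂ P', Cn G Q → AttCmp D Q := by
  obtain ⟨n, hn⟩ : ∃ n, P.ncard = n := ⟨_, rfl⟩
  induction n using Nat.strong_induction_on generalizing P with
  | _ n ih =>
    by_cases hall : ∀ Q ⊂ P, Cn G Q → AttCmp D Q
    · exact ⟨P, hP, hPF, h, hall⟩
    · push Not at hall
      obtain ⟨Q, hQP, hQ, hQc⟩ := hall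
      exact ih Q.ncard (hn ▸ Set.ncard_lt_ncard hQP (Set.toFinite P)) hQ
        (fun x hx => hPF x (hQP.1 hx)) hQc rfl

theorem min_del {P : Set V} (hP : Cn G P) (hmin : ∀ Q ⊂ P, Cn G Q → AttCmp D Q) {p q e e' : V}
    (hp : p ∈ P) (hq : q ∈ P) (hpq : p ≠ q) (he : e ∈ D.F) (he' : e' ∈ D.F) (hpe : G.Adj p e)
    (hqe : G.Adj q e') (hcmp : ¬ D.cmp e e') : Cn G (P \ {q}) := by
  set P' : Set V := {y | Con G (P \ {q}) p y} with hP'
  have hpP' : p ∈ P' := con_refl ⟨hp, hpq⟩
  have hsub : P' ⊆ P \ {q} := fun y hy => Pool.Agent.Work.MP_5f857a_co.L.Con.right hy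
  have hconn : ∀ y ∈ P', Con G P' p y := by
    intro y hy
    have h1 : Con G (P' ∩ (P \ {q})) p y :=
      Pool.Agent.Work.MP_5f857a_co.L.Con.restrict hy hpP' fun a b ha hb hab haP =>
        Pool.Agent.Work.MP_5f857a_co.L.Con.trans haP (con_adj hab ha hb)
    exact con_mono h1 Set.inter_subset_left
  have hadj : ∃ z ∈ P', G.Adj z q := by
    have hqP' : q ∉ P' := fun h => (hsub h).2 rfl
    obtain ⟨a, ha, haT, -⟩ :=
      Pool.Agent.Work.MP_5f857a_co.L.exit_of_con (hP p hp q hq) hpP' hqP'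
    obtain ⟨haP', o, ho, hao⟩ := ha
    by_cases haq : a = q
    · subst haq
      exact ⟨o, ho, hao.symm⟩
    · exact absurd (Pool.Agent.Work.MP_5f857a_co.L.Con.trans ho
        (con_adj hao.symm (hsub ho) ⟨haT, haq⟩)) haP'
  obtain ⟨z, hz, hzq⟩ := hadj
  have hQ0 : ∀ y ∈ insert q P', Con G (insert q P') p y := by
    rintro y (rfl | hy)
    · exact (con_mono (hconn z hz) (Set.subset_insert _ _)).trans
        (con_adj hzq (Set.mem_insert_of_mem _ hz) (Set.mem_insert _ _))
    · exact con_mono (hconn y hy) (Set.subset_insert _ _)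
  have hQ : Cn G (insert q P') := fun x hx y hy => (hQ0 x hx).symm.trans (hQ0 y hy)
  have hQP : insert q P' ⊆ P := by
    rintro y (rfl | hy)
    · exact hq
    · exact (hsub hy).1
  have hnot : ¬ AttCmp D (insert q P') := fun h =>
    hcmp (h p (Set.mem_insert_of_mem _ hpP') q (Set.mem_insert _ _) e he e' he' hpe hqe)
  have hEq : insert q P' = P := by
    by_contra hne
    exact hnot (hmin _ (lt_of_le_of_ne hQP hne) hQ)
  have hEq' : P \ {q} = P' := by
    apply Set.Subset.antisymm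
    · rintro y ⟨hy, hyq⟩
      rw [← hEq] at hy
      rcases hy with rfl | hy
      · exact absurd rfl hyq
      · exact hy
    · exact hsub
  rw [hEq']
  exact fun x hx y hy => (hconn x hx).symm.trans (hconn y hy)

end Pool.Agent.Work.MP_c4d05f_lc.Str
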