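import Pool.Agent.Work.MP_c4d05f_lc.N.Str.Single
import Pool.Agent.Work.MP_c4d05f_lc.N.Str.Min
import Pool.Agent.Work.MP_c4d05f_lc.N.Str.FrPend
import Pool.Agent.Work.MP_c4d05f_lc.N.Hav.Nr

/-!
# The maximal frame contains all terminals (module `Miss`, size M-L)

Suppose `t ∈ L`, `t ∉ D.F`. The frame contains a terminal (`fr.one`, `fr.leaf`) joined to `t` in `G`,
so there is a connected set `P` outside `D.F` which contains `t` and a vertex adjacent to a vertex of
`D.F` (first entry of a walk from `t` into `D.F`). Take such a `P` with `Set.ncard P` minimal and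
`p ∈ P` adjacent to an element of `D.F`. If `p ≠ t`: let `P'` be the set of the vertices joined to
`t` inside `P \ {p}`; `P' ∪ {p}` is connected, so `P = P' ∪ {p}` and `P \ {p} = P'` is connected; by
minimality of `P` no vertex of `P \ {p}` is adjacent to `D.F`.
- `Eit p` nonempty: `legs2` with `E = Eit p`, `M = {m | Spec p m}` (`X = src p`), then `star2` with
  `U = P \ {p}` if `p ≠ t`. If `p = t`: `t` has at most one neighbour `f`; `Eit p = {f}`, there is no
  special node, so the two starts are the ends of `f`, and directly: centre `f`, `ins J₁`,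
  `ins J₂`, `{t}` is a star (`eit_not_leaf`, `leg_con'`).
- `Eit p` empty: `p` is adjacent exactly to the edges at a special node `m` (`eit_or_spec`,
  `spec_unique`); an induced path from `p` to `t` inside `P` (`exists_indPath` in `SP.lean`;
  `p ≠ t` by `ht`) and `frame_pend` contradict `hmax`.
-/

set_option autoImplicit false

namespace Pool.Agent.Work.MP_c4d05f_lc.Str

open Pool.Agent.Work.MP_5f857a_co.L (Con)
open Pool.Agent.Work.MP_c4d05f_lc.N (Clean)
open Pool.Agent.Work.MP_c4d05f_lc.Hav (Anti Apart)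

variable {V : Type} {G : SimpleGraph V} {L : Set V} {D : PF G}

/-- Walks inside a component stay in the component. -/
private theorem comp_conn_set (A : Set V) {t : V} (htA : t ∈ A) :
    Hav.Conn G (Comp G A t) := by
  intro a ha b hb
  have e : Comp G A a = Comp G A t := comp_eq htA ha
  have hb' : Reach G A a b := by
    have : b ∈ Comp G A a := by rw [e]; exact hb
    exact this
  have key : Reach G (Comp G A t) a b ∧ b ∈ Comp G A t := by
    clear hb
    induction hb' with
    | refl => exact ⟨Relation.ReflTransGen.refl, ha⟩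
    | @tail p q h1 h2 ih =>
      have hq : q ∈ Comp G A t := adj_mem_comp ih.2 h2.2 h2.1
      exact ⟨ih.1.tail ⟨h2.1, hq⟩, hq⟩
  exact key.1

theorem all_in [Finite V] (hc : Clean G) (ht : Term G L) (hn : NoStar G L) (fr : D.Frame L)
    (hmax : ∀ D' : PF G, D'.Frame L → D'.n3 ≤ D.n3)
    (hcon : ∀ t ∈ L, ∀ t' ∈ L, Con G Set.univ t t') : L ⊆ D.F := by
  classical
  by_contra hnot
  obtain ⟨t, htL, htF⟩ := Set.not_subset.1 hnot
  -- a terminal of the frame
  obtain ⟨x₀, t₀, ht₀⟩ := fr.one
  have ht₀L : t₀ ∈ L := fr.leaf x₀ t₀ ht₀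
  have ht₀F : t₀ ∈ D.F := by
    have : t₀ ∈ D.st x₀ := by rw [ht₀]; rfl
    exact this.1
  have htA : t ∈ (D.F)ᶜ := htF
  -- an edge from the component of `t` to the frame
  have hB : ∃ b ∈ {x | ∃ f ∈ D.F, G.Adj x f}, b ∈ Comp G (D.F)ᶜ t := by
    obtain ⟨y, ⟨hy, x, hx, hxy⟩, -, -⟩ := Pool.Agent.Work.MP_5f857a_co.L.exit_of_con
      (O := Comp G (D.F)ᶜ t) (hcon t htL t₀ ht₀L) (self_mem_comp t)
      (fun h => comp_subset htA h ht₀F)
    have hyF : y ∈ D.F := by
      by_contra hyF
      exact hy (adj_mem_comp hx hyF hxy.symm)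
    exact ⟨x, ⟨y, hyF, hxy.symm⟩, hx⟩
  obtain ⟨d, x, hx, hx0, hxd, hxA, hxB, -⟩ := Hav.geod_set (comp_conn_set (D.F)ᶜ htA)
    (self_mem_comp t) hB
  have hxF : ∀ i ≤ d, x i ∉ D.F := fun i hi => comp_subset htA (hxA i hi)
  have hxN : ∀ i < d, ∀ f ∈ D.F, ¬ G.Adj (x i) f := fun i hi f hf h => hxB i hi ⟨f, hf, h⟩
  obtain ⟨f₀, hf₀F, hf₀⟩ := hxd
  have hpF : x d ∉ D.F := hxF d le_rfl
  by_cases hE : (D.Eit (x d)).Nonempty
  · obtain ⟨a, J, hleg, hdisj⟩ := legs2 hc fr (E := D.Eit (x d)) (M := {m | D.Spec (x d) m})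
      (fun f hf => hf.1) (fun m hm => hm.1) hE
    have h1 : D.Leg (D.src (x d)) (a 0) (J 0) := hleg 0
    have h2 : D.Leg (D.src (x d)) (a 1) (J 1) := hleg 1
    have hd : Disjoint (J 0) (J 1) := hdisj 0 1 (by simp)
    rcases Nat.eq_zero_or_pos d with hd0 | hd0
    · -- `x d = t`
      have hpt : x d = t := by rw [hd0, hx0]
      rw [hpt] at h1 h2 hE hpF
      obtain ⟨f, hf⟩ := hE
      have huniq : ∀ g, G.Adj t g → g = f := fun g hg => ht t htL g f hg hf.2.1
      have hnospec : ∀ m, ¬ D.Spec t m := by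
        rintro m ⟨⟨g, k, hgk, hst⟩, hm⟩
        exact hgk ((huniq g (hm g (by rw [hst]; simp))).trans
          (huniq k (hm k (by rw [hst]; simp))).symm)
      have hsrc : ∀ y, y ∈ D.src t ↔ y ∈ D.e f := by
        intro y
        constructor
        · rintro (h | ⟨g, hg, hy⟩)
          · exact absurd h (hnospec y)
          · rwa [← huniq g hg.2.1]
        · intro hy
          exact Or.inr ⟨f, hf, hy⟩
      have hnin : ∀ {b : Option V} {K : Set (Option V)}, D.Leg (D.src t) b K → f ∉ D.ins K := by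
        intro b K hK hfK
        obtain ⟨y, z, hyz, he⟩ := PF.ends hf.1
        have hy : y ∈ D.e f := by rw [he]; simp
        have hz : z ∈ D.e f := by rw [he]; simp
        exact hyz ((hK.only y (hfK.2 y hy) ((hsrc y).2 hy)).trans
          (hK.only z (hfK.2 z hz) ((hsrc z).2 hz)).symm)
      have harm : ∀ {b : Option V} {K : Set (Option V)}, D.Leg (D.src t) b K →
          Arm G L f (D.ins K) := by
        intro b K hK
        have hb : b ∈ D.e f := (hsrc b).1 hK.mem
        obtain ⟨-, hlf⟩ := leg_leaf hK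
        obtain ⟨g, hg, hbg, t', ht', hct'⟩ := leg_con' fr (eit_not_leaf ht fr hpF hf hb) hlf
        have hfg : f ≠ g := fun h => hnin hK (h ▸ hg)
        exact arm_of (hnin hK) (PF.adj_of_st ⟨hf.1, hb⟩ ⟨hg.1, hbg⟩ hfg) hct' ht'
      have hap : ∀ {b : Option V} {K : Set (Option V)}, D.Leg (D.src t) b K →
          Anti G (D.ins K) {t} := by
        rintro b K hK g hg _ rfl
        exact ⟨fun h => hpF (h ▸ hg.1), fun h => hnin hK (huniq g h.symm ▸ hg)⟩
      refine hn f (D.ins (J 0)) (D.ins (J 1)) {t} (harm h1) (harm h2) ?_ (PF.anti_ins hd)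
        (hap h1) (hap h2)
      exact arm_of (x := t) (fun h => hpF (h ▸ hf.1)) hf.2.1.symm (con_refl rfl) htL
    · -- the rest of the path is an arm
      refine star2 hc ht hn fr hpF h1 h2 hd (U := {y | ∃ i < d, y = x i}) ?_ ?_ ?_ ?_
      · have hpath : ∀ i ≤ d - 1, Con G {y | ∃ i < d, y = x i} (x (d - 1)) (x (d - 1 - i)) := by
          intro i
          induction i with
          | zero => exact fun _ => con_refl ⟨d - 1, by omega, rfl⟩
          | succ i ih =>
            intro hi
            refine (ih (by omega)).trans (con_adj ?_ ⟨_, by omega, rfl⟩ ⟨_, by omega, rfl⟩)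
            exact ((hx (d - 1 - (i + 1)) (d - 1 - i) (by omega) (by omega)).2.2 (by omega)).symm
        have h3 := hpath (d - 1) le_rfl
        rw [Nat.sub_self, hx0] at h3
        refine arm_of ?_ ((hx (d - 1) d (by omega) (by omega)).2.2 (by omega)).symm h3 htL
        rintro ⟨i, hi, he⟩
        exact (hx i d hi (by omega)).1 he.symm
      · rintro g hg _ ⟨i, hi, rfl⟩
        exact ⟨fun h => hxF i hi.le (h ▸ hg.1), fun h => hxN i hi g hg.1 h.symm⟩
      · rintro g hg _ ⟨i, hi, rfl⟩
        exact ⟨fun h => hxF i hi.le (h ▸ hg.1), fun h => hxN i hi g hg.1 h.symm⟩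
      · rintro g hg - _ ⟨i, hi, rfl⟩
        exact ⟨fun h => hxF i hi.le (h ▸ hg.1), fun h => hxN i hi g hg.1 h.symm⟩
  · -- a special node: a pendant path
    obtain ⟨m, -, hm⟩ : ∃ m ∈ D.e f₀, D.Spec (x d) m := by
      rcases eit_or_spec hf₀F hf₀ with h | h
      · exact absurd ⟨f₀, h⟩ hE
      · exact h
    suffices key : ∃ D' : PF G, D'.Frame L ∧ D.n3 < D'.n3 by
      obtain ⟨D', hD', hlt⟩ := key
      exact absurd (hmax D' hD') (by omega)
    refine frame_pend hc fr hm.1 d (fun i => x (d - i)) ?_ ?_ ?_ ?_ ?_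
    · intro i j hij hj
      obtain ⟨h1, h2⟩ := hx (d - j) (d - i) (by omega) (by omega)
      refine ⟨fun he => h1 he.symm, ?_⟩
      rw [G.adj_comm, h2]
      omega
    · intro i _
      exact hxF (d - i) (by omega)
    · intro f hf
      rw [Nat.sub_zero]
      constructor
      · intro h
        rcases eit_or_spec hf h with h' | ⟨m', hm', hs⟩
        · exact absurd ⟨f, h'⟩ hE
        · rwa [spec_unique hc hm hs]
      · intro h
        exact hm.2 f ⟨hf, h⟩
    · intro i h1 hi f hf
      exact hxN (d - i) (by omega) f hf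
    · rw [Nat.sub_self, hx0]
      exact htL

end Pool.Agent.Work.MP_c4d05f_lc.Str
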