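import Pool.Agent.Work.MP_c4d05f_lc.N.Str.PathX
import Pool.Agent.Work.MP_c4d05f_lc.N.Str.Sub
import Pool.Agent.Work.MP_c4d05f_lc.SP

/-!
# The first frame (module `Start`, size M)

`Con G Set.univ t₁ t₂` gives `Reach G Set.univ t₁ t₂` (induction on the walk) and an induced path
`t₁ = v 0, …, v k = t₂` (`exists_indPath` in `MP_c4d05f_lc/SP.lean`), `k ≥ 1`. Pre-frame with the one
edge `t₁`, ends `none` and `some t₁`; then `pend` at the node `some t₁` with the path
`v 1, …, v k` (`u i := v (i + 1)`, `n := k - 1`). All nodes: `none` (a leaf with the edge `t₁ ∈ L`),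
`some (v i)` for `i < k` (degree two), `some (v k)` (a leaf with the edge `t₂ ∈ L`). No node of
degree three.
-/

set_option autoImplicit false

namespace Pool.Agent.Work.MP_c4d05f_lc.Str

open Pool.Agent.Work.MP_5f857a_co.L (Con)
open Pool.Agent.Work.MP_c4d05f_lc.N (Clean)
open Pool.Agent.Work.MP_c4d05f_lc.Hav (Anti Apart)

variable {V : Type} {G : SimpleGraph V} {L : Set V} {D : PF G}

theorem start {t₁ t₂ : V} (h1 : t₁ ∈ L) (h2 : t₂ ∈ L) (hne : t₁ ≠ t₂)
    (hcon : Con G Set.univ t₁ t₂) : ∃ D : PF G, D.Frame L := by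
  classical
  obtain ⟨p, -⟩ := hcon
  obtain ⟨k, v, hv, hv0, hvk⟩ :=
    Pool.Agent.Work.MP_c4d05f_lc.exists_indPath_of_reachable (H := G) (a := t₁) (b := t₂) ⟨p⟩
  have hk : 1 ≤ k := by
    rcases Nat.eq_zero_or_pos k with h | h
    · subst h
      exact absurd (hv0.symm.trans hvk) hne
    · exact h
  have hinj : ∀ i j, i ≤ k → j ≤ k → v i = v j → i = j := by
    intro i j hi hj h
    rcases lt_trichotomy i j with h' | h' | h'
    · exact absurd h (hv i j h' hj).1
    · exact h'
    · exact absurd h.symm (hv j i h' hi).1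
  -- the pre-frame with one edge
  let D₀ : PF G :=
    { F := {t₁}
      e := fun _ => s(none, some t₁)
      ndg := by
        intro f _
        simp
      inj := by
        intro f hf g hg _
        rw [Set.mem_singleton_iff] at hf hg
        rw [hf, hg]
      adj := by
        intro f hf g hg hfg
        rw [Set.mem_singleton_iff] at hf hg
        exact absurd (hf.trans hg.symm) hfg
      nm := by
        intro f _ w hw
        simp only [Sym2.mem_iff, reduceCtorEq, false_or, Option.some.injEq] at hw
        rw [hw]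
        rfl }
  have hu : IndPath G (k - 1) (fun i => v (i + 1)) := by
    intro i j hij hj
    obtain ⟨h1, h2⟩ := hv (i + 1) (j + 1) (by omega) (by omega)
    refine ⟨h1, ?_⟩
    rw [h2]
    omega
  obtain ⟨D, hF, he, he0, hes⟩ := pend D₀ (m := some t₁)
    ⟨t₁, rfl, by simp [D₀]⟩ (k - 1) (fun i => v (i + 1)) hu
    (by
      intro i hi h
      have h' : v (i + 1) = t₁ := h
      rw [← hv0] at h'
      have := hinj (i + 1) 0 (by omega) (by omega) h'
      omega)
    (by
      intro f hf
      have hf' : f = t₁ := hf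
      subst hf'
      have h1 : G.Adj (v 0) (v 1) := (hv 0 1 (by omega) (by omega)).2.2 rfl
      rw [hv0] at h1
      constructor
      · intro _
        simp [D₀]
      · intro _
        exact h1.symm)
    (by
      intro i hi1 hi f hf hadj
      have hf' : f = t₁ := hf
      subst hf'
      rw [← hv0] at hadj
      have := (hv 0 (i + 1) (by omega) (by omega)).2.1 hadj.symm
      omega)
  have hFm : ∀ w, w ∈ D.F ↔ ∃ i ≤ k, w = v i := by
    intro w
    rw [hF]
    constructor
    · rintro (h | ⟨i, hi, h⟩)
      · exact ⟨0, by omega, (show w = t₁ from h).trans hv0.symm⟩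
      · exact ⟨i + 1, by omega, h⟩
    · rintro ⟨i, hi, h⟩
      rcases Nat.eq_zero_or_pos i with h0 | h0
      · subst h0
        exact Or.inl (h.trans hv0)
      · exact Or.inr ⟨i - 1, by omega, by
          rw [h]
          show v i = v (i - 1 + 1)
          rw [Nat.sub_add_cancel h0]⟩
  have E0 : D.e (v 0) = s(none, some (v 0)) := by
    rw [hv0]
    exact he t₁ rfl
  have E1 : ∀ i < k, D.e (v (i + 1)) = s(some (v i), some (v (i + 1))) := by
    intro i hi
    rcases Nat.eq_zero_or_pos i with h0 | h0
    · subst h0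
      rw [hv0]
      exact he0
    · have := hes (i - 1) (by omega)
      rw [Nat.sub_add_cancel h0] at this
      exact this
  have stN : D.st none = {v 0} := by
    ext w
    rw [PF.mem_st, Set.mem_singleton_iff]
    constructor
    · rintro ⟨h, h'⟩
      obtain ⟨i, hi, rfl⟩ := (hFm w).1 h
      rcases Nat.eq_zero_or_pos i with h0 | h0
      · rw [h0]
      · obtain ⟨j, rfl⟩ : ∃ j, i = j + 1 := ⟨i - 1, by omega⟩
        rw [E1 j (by omega)] at h'
        simp at h'
    · rintro rfl
      exact ⟨(hFm _).2 ⟨0, by omega, rfl⟩, by rw [E0]; simp⟩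
  have memSt : ∀ i ≤ k, ∀ j ≤ k, (v j ∈ D.st (some (v i)) ↔ j = i ∨ j = i + 1) := by
    intro i hi j hj
    rw [PF.mem_st]
    constructor
    · rintro ⟨-, h⟩
      rcases Nat.eq_zero_or_pos j with h0 | h0
      · subst h0
        rw [E0] at h
        simp only [Sym2.mem_iff, reduceCtorEq, false_or, Option.some.injEq] at h
        exact Or.inl (hinj _ _ (by omega) hi h.symm)
      · obtain ⟨l, rfl⟩ : ∃ l, j = l + 1 := ⟨j - 1, by omega⟩
        rw [E1 l (by omega)] at h
        simp only [Sym2.mem_iff, Option.some.injEq] at h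
        rcases h with h | h
        · exact Or.inr (by rw [hinj _ _ hi (by omega) h])
        · exact Or.inl (hinj _ _ (by omega) hi h.symm)
    · intro h
      refine ⟨(hFm _).2 ⟨j, hj, rfl⟩, ?_⟩
      rcases h with h | h
      · subst h
        rcases Nat.eq_zero_or_pos j with h0 | h0
        · subst h0
          rw [E0]; simp
        · obtain ⟨l, rfl⟩ : ∃ l, j = l + 1 := ⟨j - 1, by omega⟩
          rw [E1 l (by omega)]; simp
      · subst h
        rw [E1 i (by omega)]; simp
  have stM : ∀ i < k, D.st (some (v i)) = {v i, v (i + 1)} := by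
    intro i hi
    ext w
    simp only [Set.mem_insert_iff, Set.mem_singleton_iff]
    constructor
    · intro h
      obtain ⟨j, hj, rfl⟩ := (hFm w).1 h.1
      rcases (memSt i hi.le j hj).1 h with h' | h'
      · exact Or.inl (by rw [h'])
      · exact Or.inr (by rw [h'])
    · rintro (rfl | rfl)
      · exact (memSt i hi.le i hi.le).2 (Or.inl rfl)
      · exact (memSt i hi.le (i + 1) (by omega)).2 (Or.inr rfl)
  have stK : D.st (some (v k)) = {v k} := by
    ext w
    simp only [Set.mem_singleton_iff]
    constructor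
    · intro h
      obtain ⟨j, hj, rfl⟩ := (hFm w).1 h.1
      rcases (memSt k le_rfl j hj).1 h with h' | h'
      · rw [h']
      · omega
    · rintro rfl
      exact (memSt k le_rfl k le_rfl).2 (Or.inl rfl)
  have node : ∀ x, (D.st x).Nonempty → x = none ∨ ∃ i ≤ k, x = some (v i) := by
    rintro (_ | w) ⟨f, hf⟩
    · exact Or.inl rfl
    · obtain ⟨i, hi, rfl⟩ := (hFm w).1 (D.nm f hf.1 w hf.2)
      exact Or.inr ⟨i, hi, rfl⟩
  have leafN : D.Leaf none := ⟨_, stN⟩
  have leafK : D.Leaf (some (v k)) := ⟨_, stK⟩
  have twoM : ∀ i < k, D.Two (some (v i)) := fun i hi =>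
    ⟨v i, v (i + 1), (hv i (i + 1) (by omega) (by omega)).1, stM i hi⟩
  have no3 : ∀ x, ¬ D.Three x := by
    intro x hx
    rcases node x hx.ne_empty with rfl | ⟨i, hi, rfl⟩
    · exact leafN.not_three hx
    · rcases Nat.lt_or_ge i k with h | h
      · exact (twoM i h).not_three hx
      · have : i = k := by omega
        subst this
        exact leafK.not_three hx
  have conN : ∀ i ≤ k, Con D.H Set.univ none (some (v i)) := by
    intro i
    induction i with
    | zero =>
      intro _
      refine con_adj (PF.h_adj_of ((hFm (v 0)).2 ⟨0, by omega, rfl⟩) (x := none)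
        (y := some (v 0)) (by rw [E0]; simp) (by rw [E0]; simp) (by simp)) (Set.mem_univ _)
        (Set.mem_univ _)
    | succ i ih =>
      intro hi
      refine (ih (by omega)).trans (con_adj (PF.h_adj_of ((hFm (v (i + 1))).2 ⟨i + 1, hi, rfl⟩)
        (x := some (v i)) (y := some (v (i + 1))) (by rw [E1 i (by omega)]; simp)
        (by rw [E1 i (by omega)]; simp) ?_) (Set.mem_univ _) (Set.mem_univ _))
      intro h
      exact (hv i (i + 1) (by omega) (by omega)).1 (Option.some.inj h)
  have conA : ∀ x, (D.st x).Nonempty → Con D.H Set.univ none x := by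
    intro x hx
    rcases node x hx with rfl | ⟨i, hi, rfl⟩
    · exact con_refl (Set.mem_univ _)
    · exact conN i hi
  refine ⟨D, ?_, ?_, ⟨none, leafN⟩, ?_, ?_⟩
  · intro x f hx
    rcases node x (by rw [hx]; exact Set.singleton_nonempty f) with rfl | ⟨i, hi, rfl⟩
    · rw [stN] at hx
      rw [← Set.singleton_eq_singleton_iff.1 hx, hv0]
      exact h1
    · rcases Nat.lt_or_ge i k with h | h
      · exact absurd (twoM i h) (PF.Leaf.not_two ⟨f, hx⟩)
      · have : i = k := by omega
        subst this
        rw [stK] at hx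
        rw [← Set.singleton_eq_singleton_iff.1 hx, hvk]
        exact h2
  · intro x y hx hy
    exact (conA x hx).symm.trans (conA y hy)
  · intro f hf
    by_cases h : f = v 0
    · exact ⟨v 1, (hFm _).2 ⟨1, hk, rfl⟩, by
        rw [h]
        exact (hv 0 1 (by omega) (by omega)).1.symm⟩
    · exact ⟨v 0, (hFm _).2 ⟨0, by omega, rfl⟩, Ne.symm h⟩
  · intro x hx
    exact absurd hx (no3 x)

end Pool.Agent.Work.MP_c4d05f_lc.Str
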