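import Pool.Agent.Work.MP_c4d05f_lc.N.Str.Final
import Pool.Agent.Work.MP_c4d05f_lc.N.Str.Loc
import Pool.Agent.Work.MP_c4d05f_lc.N.Str.Miss
import Pool.Agent.Work.MP_c4d05f_lc.N.Str.Start

/-!
# The strip theorem (final statement; assembled from the modules of the block `Str`)
-/

set_option autoImplicit false

namespace Pool.Agent.Work.MP_c4d05f_lc.Str

open Pool.Agent.Work.MP_5f857a_co.L (Con)
open Pool.Agent.Work.MP_c4d05f_lc.N (Clean)

variable {V : Type} {G : SimpleGraph V} {L : Set V}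

/-- A frame with the maximal number of nodes of degree three. -/
theorem exists_max [Finite V] (h : ∃ D : PF G, D.Frame L) :
    ∃ D : PF G, D.Frame L ∧ ∀ D' : PF G, D'.Frame L → D'.n3 ≤ D.n3 := by
  have hb : ∀ D : PF G, D.n3 ≤ Nat.card (Option V) := fun D => by
    unfold PF.n3
    rw [← Set.ncard_univ]
    exact Set.ncard_le_ncard (Set.subset_univ _) (Set.toFinite _)
  classical
  have hex : ∃ n, ∃ D : PF G, D.Frame L ∧ Nat.card (Option V) - D.n3 = n := by
    obtain ⟨D, hD⟩ := h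
    exact ⟨_, D, hD, rfl⟩
  obtain ⟨D, hD, hn⟩ := Nat.find_spec hex
  refine ⟨D, hD, fun D' hD' => ?_⟩
  by_contra hlt
  push Not at hlt
  have h1 := Nat.find_min' hex ⟨D', hD', rfl⟩
  rw [← hn] at h1
  have h2 := hb D'
  omega

/-- **Strip theorem.** `G` is clean, the terminals have degree at most one and are pairwise joined,
there are at least two of them and there is no star. -/
theorem strips [Finite V] (hc : Clean G) (ht : Term G L) (hn : NoStar G L)
    (hcon : ∀ t ∈ L, ∀ t' ∈ L, Con G Set.univ t t')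
    (h3 : ∃ t₁ ∈ L, ∃ t₂ ∈ L, t₁ ≠ t₂) :
    ∃ π : V → V, Strips G L π := by
  obtain ⟨t₁, h1, t₂, h2, hne⟩ := h3
  obtain ⟨D, fr, hmax⟩ := exists_max (start h1 h2 hne (hcon t₁ h1 t₂ h2))
  exact strips_of_local hc ht fr (all_in hc ht hn fr hmax hcon)
    (fun P hP hPF => loc hc ht hn fr hmax hP hPF)

end Pool.Agent.Work.MP_c4d05f_lc.Str
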