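import Pool.Agent.Work.MP_c4d05f_lc.N.Str.Bas

/-!
# Facts from cleanness (module `K`, size M)

Tools: `Bas` (`mem_st`, `ends`, `other`, `one_node`, `adj_of_st`, `deg_cases`, `Three.triple`, …).
-/

set_option autoImplicit false

namespace Pool.Agent.Work.MP_c4d05f_lc.Str

open Pool.Agent.Work.MP_5f857a_co.L (Con)
open Pool.Agent.Work.MP_c4d05f_lc.N (Clean)
open Pool.Agent.Work.MP_c4d05f_lc.Hav (Anti Apart)

variable {V : Type} {G : SimpleGraph V} {L : Set V} {D : PF G}

/-- A terminal edge: by definition of a frame. -/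
theorem leaf_term (fr : D.Frame L) {x : Option V} (hx : D.Leaf x) {f : V} (hf : f ∈ D.st x) :
    f ∈ L := by
  obtain ⟨g, hg⟩ := hx
  have h : f = g := by
    rw [hg] at hf
    exact hf
  rw [h]
  exact fr.leaf x g hg

private theorem exists_ne {x : Option V} {f : V} (hf : f ∈ D.st x) (hx : ¬ D.Leaf x) :
    ∃ g ∈ D.st x, g ≠ f := by
  by_contra hcon
  push Not at hcon
  exact hx ⟨f, Set.eq_singleton_iff_unique_mem.2 ⟨hf, hcon⟩⟩

/-- The other end `y` of an edge `f` at a node `u` of degree three has degree two.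
`PF.deg_cases` for `y`. `y` is no leaf: otherwise `f ∈ L` (`leaf_term`) but `f` is adjacent to two
other elements of `D.st u`, against `ht`. `y` is not of degree three: `D.st u = {f, g, k}`,
`D.st y = {f, g', k'}` (`Three.triple`) give two triangles at `f`; `hc` gives `g' = g` or `g' = k`,
and `g'` would share two nodes with `f` (`PF.one_node`). -/
theorem two_of_three (hc : Clean G) (ht : Term G L) (fr : D.Frame L) {f : V} {u y : Option V}
    (hu : D.Three u) (hf : f ∈ D.st u) (hy : y ∈ D.e f) (hyu : y ≠ u) : D.Two y := by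
  have hfy : f ∈ D.st y := ⟨hf.1, hy⟩
  obtain ⟨g, k, hgf, hkf, hgk, he⟩ := hu.triple hf
  have hg : g ∈ D.st u := by rw [he]; simp
  have hk : k ∈ D.st u := by rw [he]; simp
  have afg : G.Adj f g := PF.adj_of_st hf hg (Ne.symm hgf)
  have afk : G.Adj f k := PF.adj_of_st hf hk (Ne.symm hkf)
  rcases PF.deg_cases hc ⟨f, hfy⟩ with h | h | h
  · exact absurd (ht f (leaf_term fr h hfy) g k afg afk) hgk
  · exact h
  · obtain ⟨g', k', hgf', hkf', hgk', he'⟩ := h.triple hfy
    have hg' : g' ∈ D.st y := by rw [he']; simp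
    have hk' : k' ∈ D.st y := by rw [he']; simp
    rcases hc f g k g' k' afg afk (PF.adj_of_st hg hk hgk)
      (PF.adj_of_st hfy hg' (Ne.symm hgf')) (PF.adj_of_st hfy hk' (Ne.symm hkf'))
      (PF.adj_of_st hg' hk' hgk') with h1 | h1
    · subst h1
      exact absurd (PF.one_node hf.1 hg.1 (Ne.symm hgf) hy hg'.2 hf.2 hg.2) hyu
    · subst h1
      exact absurd (PF.one_node hf.1 hk.1 (Ne.symm hkf) hy hg'.2 hf.2 hk.2) hyu

/-- A terminal of the frame has no neighbour outside the frame. By `fr.two` there is another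
edge `g`. Ends `x, y` of `t`. If `D.st x = {t} = D.st y` then `{x, y}` is closed under adjacency in
`H` (`Con.mem_of_closed`), but `fr.con` joins `x` to an end `z` of `g`, `z ∈ {x, y}` gives
`g ∈ D.st z = {t}`. So `t` has a neighbour `g'` in the frame; `ht` gives `p = g'`. -/
theorem term_out (ht : Term G L) (fr : D.Frame L) {t p : V} (htF : t ∈ D.F) (htL : t ∈ L)
    (h : G.Adj p t) : p ∈ D.F := by
  have key : ∀ g', g' ∈ D.F → G.Adj t g' → p ∈ D.F := by
    intro g' hg' ha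
    rw [ht t htL p g' h.symm ha]
    exact hg'
  obtain ⟨x, y, hxy, he⟩ := PF.ends htF
  have htx : t ∈ D.st x := ⟨htF, by simp [he]⟩
  have hty : t ∈ D.st y := ⟨htF, by simp [he]⟩
  by_cases hx : ∃ g ∈ D.st x, g ≠ t
  · obtain ⟨g, hg, hgt⟩ := hx
    exact key g hg.1 (PF.adj_of_st htx hg (Ne.symm hgt))
  by_cases hy : ∃ g ∈ D.st y, g ≠ t
  · obtain ⟨g, hg, hgt⟩ := hy
    exact key g hg.1 (PF.adj_of_st hty hg (Ne.symm hgt))
  push Not at hx hy
  exfalso
  obtain ⟨g, hg, hgt⟩ := fr.two t htF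
  obtain ⟨z, w, -, heg⟩ := PF.ends hg
  have hgz : g ∈ D.st z := ⟨hg, by simp [heg]⟩
  have hcon := fr.con x z ⟨t, htx⟩ ⟨g, hgz⟩
  have hz : z = x ∨ z = y := by
    refine hcon.mem_of_closed (P := fun v => v = x ∨ v = y) (Or.inl rfl) ?_
    rintro a b - - ⟨-, f, hf, haf, hbf⟩ hab
    have hft : f = t := by
      rcases hab with h1 | h1
      · exact hx f ⟨hf, h1 ▸ haf⟩
      · exact hy f ⟨hf, h1 ▸ haf⟩
    rw [hft, he, Sym2.mem_iff] at hbf
    exact hbf
  rcases hz with h1 | h1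
  · exact hgt (hx g (h1 ▸ hgz))
  · exact hgt (hy g (h1 ▸ hgz))

/-- A terminal of the frame has a leaf as an end. Ends `x ≠ y` of `t`; if neither is a leaf there are
`g ∈ D.st x`, `g' ∈ D.st y` different from `t`, both adjacent to `t`, so `g = g'` by `ht`;
`PF.one_node` gives `x = y`. -/
theorem term_leaf (ht : Term G L) {t : V} (htF : t ∈ D.F) (htL : t ∈ L) :
    ∃ x ∈ D.e t, D.Leaf x := by
  by_contra hcon
  push Not at hcon
  obtain ⟨x, y, hxy, he⟩ := PF.ends htF
  have hx : x ∈ D.e t := by simp [he]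
  have hy : y ∈ D.e t := by simp [he]
  obtain ⟨g, hg, hgt⟩ := exists_ne ⟨htF, hx⟩ (hcon x hx)
  obtain ⟨g', hg', hgt'⟩ := exists_ne ⟨htF, hy⟩ (hcon y hy)
  have h1 : g = g' := ht t htL g g' (PF.adj_of_st ⟨htF, hx⟩ hg (Ne.symm hgt))
    (PF.adj_of_st ⟨htF, hy⟩ hg' (Ne.symm hgt'))
  subst h1
  exact hxy (PF.one_node htF hg.1 (Ne.symm hgt) hx hg.2 hy hg'.2)

/-- A vertex outside the frame is adjacent to at most one edge at a node of degree three
(otherwise two triangles at `f`). -/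
theorem corner_unique (hc : Clean G) {u : Option V} (hu : D.Three u) {p f g : V} (hp : p ∉ D.F)
    (hf : f ∈ D.st u) (hg : g ∈ D.st u) (h1 : G.Adj p f) (h2 : G.Adj p g) : f = g := by
  by_contra hfg
  obtain ⟨a, b, haf, hbf, hab, he⟩ := hu.triple hf
  have ha : a ∈ D.st u := by rw [he]; simp
  have hb : b ∈ D.st u := by rw [he]; simp
  rcases hc f a b p g (PF.adj_of_st hf ha (Ne.symm haf)) (PF.adj_of_st hf hb (Ne.symm hbf))
    (PF.adj_of_st ha hb hab) h1.symm (PF.adj_of_st hf hg hfg) h2 with h | h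
  · exact hp (h ▸ ha.1)
  · exact hp (h ▸ hb.1)

/-- `PF.deg_cases`; `corner_unique` excludes degree three. -/
theorem spec_of (hc : Clean G) {p f g : V} {x : Option V} (hp : p ∉ D.F) (hf : f ∈ D.st x)
    (hg : g ∈ D.st x) (hfg : f ≠ g) (h1 : G.Adj p f) (h2 : G.Adj p g) : D.Spec p x := by
  rcases PF.deg_cases hc ⟨f, hf⟩ with h | h | h
  · exact absurd (h.eq hf hg) hfg
  · refine ⟨h, fun k hk => ?_⟩
    obtain ⟨a, -, he⟩ := h.pair hf
    rw [he] at hg hk
    simp only [Set.mem_insert_iff, Set.mem_singleton_iff] at hg hk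
    rcases hg with hg | hg
    · exact absurd hg.symm hfg
    · rcases hk with hk | hk
      · rw [hk]
        exact h1
      · rw [hk, ← hg]
        exact h2
  · exact absurd (corner_unique hc h hp hf hg h1 h2) hfg

/-- At most one special node: `D.st m = {f, g}` and `D.st m' = {f', g'}` give the triangles `p f g`
and `p f' g'`, so `{f, g} = {f', g'}` by `hc`, and `m = m'` by `PF.one_node`. -/
theorem spec_unique (hc : Clean G) {p : V} {m m' : Option V} (h : D.Spec p m)
    (h' : D.Spec p m') : m = m' := by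
  obtain ⟨f, g, hfg, he⟩ := h.1
  obtain ⟨f', g', hfg', he'⟩ := h'.1
  have hf : f ∈ D.st m := by rw [he]; simp
  have hg : g ∈ D.st m := by rw [he]; simp
  have hf' : f' ∈ D.st m' := by rw [he']; simp
  have hg' : g' ∈ D.st m' := by rw [he']; simp
  have afg := PF.adj_of_st hf hg hfg
  have afg' := PF.adj_of_st hf' hg' hfg'
  have h1 : f' ∈ D.st m := by
    rcases hc p f g f' g' (h.2 f hf) (h.2 g hg) afg (h'.2 f' hf') (h'.2 g' hg') afg' with h1 | h1
    · rw [h1]; exact hf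
    · rw [h1]; exact hg
  have h2 : g' ∈ D.st m := by
    rcases hc p f g g' f' (h.2 f hf) (h.2 g hg) afg (h'.2 g' hg') (h'.2 f' hf') afg'.symm
      with h1 | h1
    · rw [h1]; exact hf
    · rw [h1]; exact hg
  exact PF.one_node hf'.1 hg'.1 hfg' h1.2 h2.2 hf'.2 hg'.2

/-- `spec_of`. -/
theorem eit_apart (hc : Clean G) {p f g : V} (hp : p ∉ D.F) (hf : f ∈ D.Eit p) (hg : g ∈ D.F)
    (hpg : G.Adj p g) (hfg : f ≠ g) {x : Option V} (hx : x ∈ D.e f) (hx' : x ∈ D.e g) : False :=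
  hf.2.2 x hx (spec_of hc hp ⟨hf.1, hx⟩ ⟨hg, hx'⟩ hfg hf.2.1 hpg)

theorem eit_or_spec {p f : V} (hf : f ∈ D.F) (hpf : G.Adj p f) :
    f ∈ D.Eit p ∨ ∃ m ∈ D.e f, D.Spec p m := by
  by_cases h : ∃ m ∈ D.e f, D.Spec p m
  · exact Or.inr h
  · push Not at h
    exact Or.inl ⟨hf, hpf, h⟩

/-- The ends of an edge item are no leaves (`leaf_term`, `term_out`). -/
theorem eit_not_leaf (ht : Term G L) (fr : D.Frame L) {p f : V} (hp : p ∉ D.F) (hf : f ∈ D.Eit p)
    {x : Option V} (hx : x ∈ D.e f) : ¬ D.Leaf x := by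
  intro hl
  exact hp (term_out ht fr hf.1 (leaf_term fr hl ⟨hf.1, hx⟩) hf.2.1)

end Pool.Agent.Work.MP_c4d05f_lc.Str
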