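import Pool.Agent.Work.MP_c4d05f_lc.N.Str.Min
import Pool.Agent.Work.MP_c4d05f_lc.N.Str.Tr
import Pool.Agent.Work.MP_c4d05f_lc.N.Str.K

/-!
# Case alpha: an attached inner vertex (module `Alpha`, size M)

`A := P \ {q}`, `B := P \ {p}` are connected, proper subsets, so `AttCmp` (`hA`, `hB`). `r ∈ A ∩ B` is
adjacent to `w`. `w` is compatible with `e` (`A`) and with `e'` (`B`). Not `rg w e` and `rg w e'`
(otherwise `rg e e'`), not both by a common node of degree three (the node is the same, because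
`w` has at most one end of degree three by `two_of_three`; then `cmp e e'`). So (after exchanging
`p`, `e` and `q`, `e'`; state a private lemma with the additional hypothesis) `rg w e` and
`w, e' ∈ D.st u`, `Three u`.
- For every `x ∈ A` and `g ∈ D.F` adjacent to `x`: `rg w g`. Otherwise `cmp g w` gives `g ∈ D.st u`
  (the only end of `w` of degree three is `u`); `cmp g e`: `rg g e` is impossible, so `g`, `e` share
  a node of degree three, the only such end of `g` is `u`, so `e ∈ D.st u` and `cmp e e'`.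
- For every `g ∈ D.F` adjacent to `q`: `g = e'` . If `g ∈ D.st u`: `corner_unique`. Otherwise
  `cmp g w` and `cmp g e'` (both from `B`) give `rg g w` and `rg g e'` (`u` is the only end of degree
  three of `w` and of `e'`), so `rg w e'`, against `no_loop` (`w ≠ e'` because `¬ cmp e e'`, `rg w e`).
Now `tr` with `g := e'`, `w`, `P` (`e ≠ w` since otherwise `cmp e e'`).
-/

set_option autoImplicit false

namespace Pool.Agent.Work.MP_c4d05f_lc.Str

open Pool.Agent.Work.MP_5f857a_co.L (Con)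
open Pool.Agent.Work.MP_c4d05f_lc.N (Clean)
open Pool.Agent.Work.MP_c4d05f_lc.Hav (Anti Apart)

variable {V : Type} {G : SimpleGraph V} {L : Set V} {D : PF G}

private theorem uniq3 (hc : Clean G) (ht : Term G L) (fr : D.Frame L) {f : V}
    {u y : Option V} (hu : D.Three u) (hy : D.Three y) (hf : f ∈ D.st u) (hf' : f ∈ D.st y) :
    y = u := by
  by_contra h
  exact (two_of_three hc ht fr hu hf hf'.2 h).not_three hy

private theorem alpha0 [Finite V] (hc : Clean G) (ht : Term G L) (hn : NoStar G L)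
    (fr : D.Frame L) {P : Set V} (hP : Cn G P) (hPF : ∀ x ∈ P, x ∉ D.F) {p q e e' : V}
    (hp : p ∈ P) (hq : q ∈ P) (hpq : p ≠ q) (he : e ∈ D.F) (he' : e' ∈ D.F) (hpe : G.Adj p e)
    (hqe : G.Adj q e') (hcmp : ¬ D.cmp e e') (hA : AttCmp D (P \ {q}))
    (hB : AttCmp D (P \ {p})) {r w : V} (hr : r ∈ P) (hrp : r ≠ p) (hrq : r ≠ q) (hw : w ∈ D.F)
    (hrw : G.Adj r w) (hwe : D.rg w e) {u : Option V} (hu : D.Three u) (hwu : w ∈ D.st u)
    (heu : e' ∈ D.st u) : False := by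
  have hrA : r ∈ P \ {q} := ⟨hr, hrq⟩
  have hpA : p ∈ P \ {q} := ⟨hp, hpq⟩
  have hrB : r ∈ P \ {p} := ⟨hr, hrp⟩
  have hqB : q ∈ P \ {p} := ⟨hq, hpq.symm⟩
  have hne : e' ≠ w := by
    rintro rfl
    exact hcmp (Or.inl (PF.rg_symm hwe))
  have h1 : ∀ x ∈ P \ {q}, ∀ g ∈ D.F, G.Adj x g → D.rg w g := by
    intro x hx g hg hxg
    by_contra hcon
    have hgu : g ∈ D.st u := by
      rcases hA x hx r hrA g hg w hw hxg hrw with h | ⟨y, hy, h2, h3⟩
      · exact absurd (PF.rg_symm h) hcon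
      · rwa [uniq3 hc ht fr hu hy hwu h3] at h2
    rcases hA x hx p hpA g hg e he hxg hpe with h | ⟨y, hy, h2, h3⟩
    · exact hcon (PF.rg_trans hwe (PF.rg_symm h))
    · rw [uniq3 hc ht fr hu hy hgu h2] at h3
      exact hcmp (Or.inr ⟨u, hu, h3, heu⟩)
  have h2 : ∀ g ∈ D.F, G.Adj q g → g = e' := by
    intro g hg hqg
    by_cases hgu : g ∈ D.st u
    · exact corner_unique hc hu (hPF q hq) hgu heu hqg hqe
    · exfalso
      have h3 : D.rg g w := by
        rcases hB q hqB r hrB g hg w hw hqg hrw with h | ⟨y, hy, h4, h5⟩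
        · exact h
        · rw [uniq3 hc ht fr hu hy hwu h5] at h4
          exact absurd h4 hgu
      have h4 : D.rg g e' := by
        rcases hB q hqB q hqB g hg e' he' hqg hqe with h | ⟨y, hy, h4, h5⟩
        · exact h
        · rw [uniq3 hc ht fr hu hy heu h5] at h4
          exact absurd h4 hgu
      exact no_loop hc ht fr hu hwu heu hne.symm (PF.rg_trans (PF.rg_symm h3) h4)
  refine tr hc ht hn fr hu heu hwu hne hPF hP ?_ ⟨q, hq, hqe⟩ ⟨p, hp, e, he, hpe, hwe, ?_⟩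
  · intro x hx f hf hxf
    by_cases hxq : x = q
    · subst hxq
      exact Or.inl (h2 f hf hxf)
    · exact Or.inr (h1 x ⟨hx, hxq⟩ f hf hxf)
  · rintro rfl
    exact hcmp (Or.inr ⟨u, hu, hwu, heu⟩)

theorem alpha [Finite V] (hc : Clean G) (ht : Term G L) (hn : NoStar G L) (fr : D.Frame L)
    {P : Set V} (hP : Cn G P) (hPF : ∀ x ∈ P, x ∉ D.F) {p q e e' : V} (hp : p ∈ P) (hq : q ∈ P)
    (hpq : p ≠ q) (he : e ∈ D.F) (he' : e' ∈ D.F) (hpe : G.Adj p e) (hqe : G.Adj q e')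
    (hcmp : ¬ D.cmp e e') (hA : AttCmp D (P \ {q})) (hB : AttCmp D (P \ {p})) {r w : V}
    (hr : r ∈ P) (hrp : r ≠ p) (hrq : r ≠ q) (hw : w ∈ D.F) (hrw : G.Adj r w) : False := by
  have h1 : D.cmp w e := hA r ⟨hr, hrq⟩ p ⟨hp, hpq⟩ w hw e he hrw hpe
  have h2 : D.cmp w e' := hB r ⟨hr, hrp⟩ q ⟨hq, hpq.symm⟩ w hw e' he' hrw hqe
  have hcmp' : ¬ D.cmp e' e := fun h => hcmp (PF.cmp_symm h)
  rcases h1 with h1 | ⟨u, hu, h3, h4⟩
  · rcases h2 with h2 | ⟨u', hu', h5, h6⟩
    · exact hcmp (Or.inl (PF.rg_trans (PF.rg_symm h1) h2))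
    · exact alpha0 hc ht hn fr hP hPF hp hq hpq he he' hpe hqe hcmp hA hB hr hrp hrq hw hrw h1
        hu' h5 h6
  · rcases h2 with h2 | ⟨u', hu', h5, h6⟩
    · exact alpha0 hc ht hn fr hP hPF hq hp hpq.symm he' he hqe hpe hcmp' hB hA hr hrq hrp hw hrw
        h2 hu h3 h4
    · rw [uniq3 hc ht fr hu hu' h3 h5] at h6
      exact hcmp (Or.inr ⟨u, hu, h4, h6⟩)

end Pool.Agent.Work.MP_c4d05f_lc.Str
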