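import Pool.Agent.Work.MP_c4d05f_lc.N.Str.Defs

/-!
# The strip theorem: basic facts on pre-frames
-/

set_option autoImplicit false

namespace Pool.Agent.Work.MP_c4d05f_lc.Str

open Pool.Agent.Work.MP_5f857a_co.L (Con)
open Pool.Agent.Work.MP_5f857a_co.L
open Pool.Agent.Work.MP_c4d05f_lc.N (Clean)
open Pool.Agent.Work.MP_c4d05f_lc.Hav (Anti Apart)

variable {V : Type} {G : SimpleGraph V} {L : Set V}

/-! ### Walks inside a set

`h.symm`, `h.trans h'`, `h.left`, `h.right`, `h.mono hG hS`, `h.mem_of_closed`, `h.restrict`,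
`exit_of_con` are in `MP_5f857a_co/L/ConB.lean`. -/

theorem con_refl {W : Type} {K : SimpleGraph W} {S : Set W} {a : W} (h : a ∈ S) : Con K S a a :=
  Pool.Agent.Work.MP_5f857a_co.L.Con.refl h

theorem con_adj {W : Type} {K : SimpleGraph W} {S : Set W} {a b : W} (h : K.Adj a b)
    (ha : a ∈ S) (hb : b ∈ S) : Con K S a b := Pool.Agent.Work.MP_5f857a_co.L.Con.adj h ha hb

theorem con_mono {W : Type} {K : SimpleGraph W} {S T : Set W} {a b : W} (h : Con K S a b)
    (hS : S ⊆ T) : Con K T a b := Pool.Agent.Work.MP_5f857a_co.L.Con.mono le_rfl hS h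

/-! ### Anticomplete sets, arms -/

theorem anti_symm {A B : Set V} (h : Anti G A B) : Anti G B A :=
  fun u hu v hv => ⟨(h v hv u hu).1.symm, fun h' => (h v hv u hu).2 h'.symm⟩

theorem anti_mono {A B A' B' : Set V} (h : Anti G A B) (hA : A' ⊆ A) (hB : B' ⊆ B) :
    Anti G A' B' := fun u hu v hv => h u (hA hu) v (hB hv)

theorem anti_union {A B C : Set V} (h : Anti G A C) (h' : Anti G B C) : Anti G (A ∪ B) C := by
  rintro u (hu | hu) v hv
  · exact h u hu v hv
  · exact h' u hu v hv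

theorem anti_union_right {A B C : Set V} (h : Anti G A B) (h' : Anti G A C) :
    Anti G A (B ∪ C) := anti_symm (anti_union (anti_symm h) (anti_symm h'))

theorem anti_insert {A C : Set V} {a : V} (h : ∀ v ∈ C, Apart G a v) (h' : Anti G A C) :
    Anti G (insert a A) C := by
  rintro u (rfl | hu) v hv
  · exact h v hv
  · exact h' u hu v hv

theorem anti_insert_right {A C : Set V} {a : V} (h : ∀ v ∈ C, Apart G v a) (h' : Anti G C A) :
    Anti G C (insert a A) := by
  rintro v hv u (rfl | hu)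
  · exact h v hv
  · exact h' v hv u hu

/-- `NoStar` for unions in any order. -/
theorem NoStar.apply (hn : NoStar G L) {h : V} {U₁ U₂ U₃ : Set V} (h1 : Arm G L h U₁)
    (h2 : Arm G L h U₂) (h3 : Arm G L h U₃) (h12 : Anti G U₁ U₂) (h13 : Anti G U₁ U₃)
    (h23 : Anti G U₂ U₃) : False := hn h U₁ U₂ U₃ h1 h2 h3 h12 h13 h23

/-- An arm, from a neighbour of the centre which is joined to a terminal. -/
theorem arm_of {h x t : V} {U : Set V} (hh : h ∉ U) (hx : G.Adj h x) (hc : Con G U x t)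
    (ht : t ∈ L) : Arm G L h U := by
  refine ⟨hh, t, ht, hc.right, ?_⟩
  exact (con_adj hx (Set.mem_insert _ _) (Set.mem_insert_of_mem _ hc.left)).trans
    (hc.mono le_rfl (Set.subset_insert _ _))

/-! ### Edges and their ends -/

namespace PF

variable (D : PF G)

variable {D}

theorem mem_st {f : V} {x : Option V} : f ∈ D.st x ↔ f ∈ D.F ∧ x ∈ D.e f := Iff.rfl

theorem ends {f : V} (hf : f ∈ D.F) : ∃ x y, x ≠ y ∧ D.e f = s(x, y) := by
  have h := D.ndg f hf
  revert h
  generalize D.e f = z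
  induction z using Sym2.ind with
  | _ x y =>
    intro h
    exact ⟨x, y, fun he => h (by simpa using he), rfl⟩

theorem other {f : V} {x : Option V} (hf : f ∈ D.F) (hx : x ∈ D.e f) :
    ∃ y, y ≠ x ∧ D.e f = s(x, y) := by
  obtain ⟨a, b, hab, he⟩ := ends hf
  rw [he, Sym2.mem_iff] at hx
  rcases hx with rfl | rfl
  · exact ⟨b, hab.symm, he⟩
  · exact ⟨a, hab, by rw [he, Sym2.eq_swap]⟩

theorem e_eq {f : V} {x y : Option V} (_hf : f ∈ D.F) (hx : x ∈ D.e f) (hy : y ∈ D.e f)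
    (hxy : x ≠ y) : D.e f = s(x, y) := ((Sym2.mem_and_mem_iff hxy).1 ⟨hx, hy⟩)

theorem h_adj {x y : Option V} : D.H.Adj x y ↔ x ≠ y ∧ ∃ f ∈ D.F, D.e f = s(x, y) := by
  constructor
  · rintro ⟨hxy, f, hf, hx, hy⟩
    exact ⟨hxy, f, hf, e_eq hf hx hy hxy⟩
  · rintro ⟨hxy, f, hf, he⟩
    exact ⟨hxy, f, hf, by simp [he], by simp [he]⟩

theorem h_adj_of {f : V} {x y : Option V} (hf : f ∈ D.F) (hx : x ∈ D.e f) (hy : y ∈ D.e f)
    (hxy : x ≠ y) : D.H.Adj x y := ⟨hxy, f, hf, hx, hy⟩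

/-- Two different edges share at most one end. -/
theorem one_node {f g : V} {x y : Option V} (hf : f ∈ D.F) (hg : g ∈ D.F) (hfg : f ≠ g)
    (hxf : x ∈ D.e f) (hxg : x ∈ D.e g) (hyf : y ∈ D.e f) (hyg : y ∈ D.e g) : x = y := by
  by_contra hxy
  exact hfg (D.inj f hf g hg ((e_eq hf hxf hyf hxy).trans (e_eq hg hxg hyg hxy).symm))

theorem adj_of_st {f g : V} {x : Option V} (hf : f ∈ D.st x) (hg : g ∈ D.st x) (hfg : f ≠ g) :
    G.Adj f g := (D.adj f hf.1 g hg.1 hfg).2 ⟨x, hf.2, hg.2⟩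

theorem st_of_adj {f g : V} (hf : f ∈ D.F) (hg : g ∈ D.F) (h : G.Adj f g) :
    ∃ x, f ∈ D.st x ∧ g ∈ D.st x := by
  obtain ⟨x, hx, hy⟩ := (D.adj f hf g hg h.ne).1 h
  exact ⟨x, ⟨hf, hx⟩, ⟨hg, hy⟩⟩

/-- Edges without common end are not adjacent. -/
theorem apart_of {f g : V} (hf : f ∈ D.F) (hg : g ∈ D.F) (h : ∀ x, x ∈ D.e f → x ∉ D.e g) :
    Apart G f g := by
  have hfg : f ≠ g := by
    rintro rfl
    obtain ⟨x, y, -, he⟩ := ends hf
    exact h x (by simp [he]) (by simp [he])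
  refine ⟨hfg, fun hadj => ?_⟩
  obtain ⟨x, hx, hy⟩ := (D.adj f hf g hg hfg).1 hadj
  exact h x hx hy

/-! ### The set `ins J` -/

theorem mem_ins {J : Set (Option V)} {f : V} : f ∈ D.ins J ↔ f ∈ D.F ∧ ∀ x ∈ D.e f, x ∈ J :=
  Iff.rfl

theorem ins_mono {J J' : Set (Option V)} (h : J ⊆ J') : D.ins J ⊆ D.ins J' :=
  fun _ hf => ⟨hf.1, fun x hx => h (hf.2 x hx)⟩

theorem mem_ins_of {J : Set (Option V)} {f : V} {x y : Option V} (hf : f ∈ D.F)
    (he : D.e f = s(x, y)) (hx : x ∈ J) (hy : y ∈ J) : f ∈ D.ins J := by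
  refine ⟨hf, fun z hz => ?_⟩
  rw [he, Sym2.mem_iff] at hz
  rcases hz with rfl | rfl
  · exact hx
  · exact hy

theorem anti_ins {J J' : Set (Option V)} (h : Disjoint J J') : Anti G (D.ins J) (D.ins J') :=
  fun _ hf _ hg => apart_of hf.1 hg.1 fun x hx hx' =>
    Set.disjoint_left.1 h (hf.2 x hx) (hg.2 x hx')

theorem apart_ins {J : Set (Option V)} {f : V} (hf : f ∈ D.F) (h : ∀ x ∈ D.e f, x ∉ J) :
    ∀ g ∈ D.ins J, Apart G f g :=
  fun _ hg => apart_of hf hg.1 fun x hx hx' => h x hx (hg.2 x hx')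

theorem apart_ins' {J : Set (Option V)} {f : V} {x y : Option V} (hf : f ∈ D.F)
    (he : D.e f = s(x, y)) (hx : x ∉ J) (hy : y ∉ J) : ∀ g ∈ D.ins J, Apart G f g :=
  apart_ins hf fun z hz => by
    rw [he, Sym2.mem_iff] at hz
    rcases hz with rfl | rfl
    · exact hx
    · exact hy

/-! ### Degrees -/

theorem Leaf.ne_empty {x : Option V} (h : D.Leaf x) : (D.st x).Nonempty := by
  obtain ⟨f, hf⟩ := h
  exact ⟨f, by simp [hf]⟩

theorem Two.ne_empty {x : Option V} (h : D.Two x) : (D.st x).Nonempty := by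
  obtain ⟨f, g, _, hf⟩ := h
  exact ⟨f, by simp [hf]⟩

theorem Three.ne_empty {x : Option V} (h : D.Three x) : (D.st x).Nonempty := by
  obtain ⟨f, g, k, _, _, _, hf⟩ := h
  exact ⟨f, by simp [hf]⟩

theorem Leaf.eq {x : Option V} (h : D.Leaf x) {f g : V} (hf : f ∈ D.st x) (hg : g ∈ D.st x) :
    f = g := by
  obtain ⟨k, hk⟩ := h
  rw [hk] at hf hg
  rw [Set.mem_singleton_iff] at hf hg
  rw [hf, hg]

theorem Leaf.not_two {x : Option V} (h : D.Leaf x) : ¬ D.Two x := by
  rintro ⟨f, g, hfg, he⟩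
  exact hfg (h.eq (by simp [he]) (by simp [he]))

theorem Leaf.not_three {x : Option V} (h : D.Leaf x) : ¬ D.Three x := by
  rintro ⟨f, g, k, hfg, _, _, he⟩
  exact hfg (h.eq (by simp [he]) (by simp [he]))

theorem Two.not_three {x : Option V} (h : D.Two x) : ¬ D.Three x := by
  rintro ⟨f, g, k, h1, h2, h3, he⟩
  obtain ⟨a, b, _, he'⟩ := h
  rw [he'] at he
  have hf : f ∈ ({a, b} : Set V) := by rw [he]; simp
  have hg : g ∈ ({a, b} : Set V) := by rw [he]; simp
  have hk : k ∈ ({a, b} : Set V) := by rw [he]; simp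
  simp only [Set.mem_insert_iff, Set.mem_singleton_iff] at hf hg hk
  rcases hf with rfl | rfl <;> rcases hg with rfl | rfl <;> rcases hk with rfl | rfl <;>
    simp_all

/-- At a node of degree two: the two edges, given one of them. -/
theorem Two.pair {x : Option V} (h : D.Two x) {f : V} (hf : f ∈ D.st x) :
    ∃ g, g ≠ f ∧ D.st x = {f, g} := by
  obtain ⟨a, b, hab, he⟩ := h
  rw [he] at hf
  simp only [Set.mem_insert_iff, Set.mem_singleton_iff] at hf
  rcases hf with rfl | rfl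
  · exact ⟨b, hab.symm, he⟩
  · exact ⟨a, hab, by rw [he, Set.pair_comm]⟩

theorem Three.triple {x : Option V} (h : D.Three x) {f : V} (hf : f ∈ D.st x) :
    ∃ g k, g ≠ f ∧ k ≠ f ∧ g ≠ k ∧ D.st x = {f, g, k} := by
  obtain ⟨a, b, c, hab, hac, hbc, he⟩ := h
  rw [he] at hf
  simp only [Set.mem_insert_iff, Set.mem_singleton_iff] at hf
  rcases hf with rfl | rfl | rfl
  · exact ⟨b, c, hab.symm, hac.symm, hbc, he⟩
  · refine ⟨a, c, hab, hbc.symm, hac, ?_⟩
    rw [he]; ext z; simp only [Set.mem_insert_iff, Set.mem_singleton_iff]; tauto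
  · refine ⟨a, b, hac, hbc, hab, ?_⟩
    rw [he]; ext z; simp only [Set.mem_insert_iff, Set.mem_singleton_iff]; tauto

/-- In a clean graph each node has degree at most three. -/
theorem deg_cases (hc : Clean G) {x : Option V} (h : (D.st x).Nonempty) :
    D.Leaf x ∨ D.Two x ∨ D.Three x := by
  obtain ⟨f, hf⟩ := h
  by_cases h1 : D.st x = {f}
  · exact Or.inl ⟨f, h1⟩
  obtain ⟨g, hg, hgf⟩ : ∃ g ∈ D.st x, g ≠ f := by
    by_contra hcon
    push Not at hcon
    exact h1 (Set.eq_singleton_iff_unique_mem.2 ⟨hf, hcon⟩)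
  by_cases h2 : D.st x = {f, g}
  · exact Or.inr (Or.inl ⟨f, g, hgf.symm, h2⟩)
  obtain ⟨k, hk, hkf, hkg⟩ : ∃ k ∈ D.st x, k ≠ f ∧ k ≠ g := by
    by_contra hcon
    push Not at hcon
    apply h2
    ext z
    simp only [Set.mem_insert_iff, Set.mem_singleton_iff]
    constructor
    · intro hz
      by_cases hzf : z = f
      · exact Or.inl hzf
      · exact Or.inr (hcon z hz hzf)
    · rintro (rfl | rfl) <;> assumption
  refine Or.inr (Or.inr ⟨f, g, k, hgf.symm, hkf.symm, hkg.symm, ?_⟩)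
  ext z
  simp only [Set.mem_insert_iff, Set.mem_singleton_iff]
  constructor
  · intro hz
    by_contra hcon
    push Not at hcon
    obtain ⟨hzf, hzg, hzk⟩ := hcon
    have := hc f g k z g (adj_of_st hf hg hgf.symm) (adj_of_st hf hk hkf.symm)
      (adj_of_st hg hk hkg.symm) (adj_of_st hf hz (Ne.symm hzf)) (adj_of_st hf hg hgf.symm)
      (adj_of_st hz hg hzg)
    rcases this with h | h
    · exact hzg h
    · exact hzk h
  · rintro (rfl | rfl | rfl) <;> assumption

/-! ### Rungs -/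

theorem tw_symm {f g : V} (h : D.tw f g) : D.tw g f := by
  obtain ⟨hfg, x, hx⟩ := h
  exact ⟨hfg.symm, x, by rw [hx, Set.pair_comm]⟩

theorem tw_of {f g : V} {x : Option V} (h : D.Two x) (hf : f ∈ D.st x) (hg : g ∈ D.st x)
    (hfg : f ≠ g) : D.tw f g := by
  obtain ⟨k, hk, he⟩ := h.pair hf
  rw [he] at hg
  simp only [Set.mem_insert_iff, Set.mem_singleton_iff] at hg
  rcases hg with rfl | rfl
  · exact absurd rfl hfg
  · exact ⟨hfg, x, he⟩

theorem rg_refl (f : V) : D.rg f f := Relation.ReflTransGen.refl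

theorem rg_trans {f g k : V} (h : D.rg f g) (h' : D.rg g k) : D.rg f k :=
  Relation.ReflTransGen.trans h h'

theorem rg_symm {f g : V} (h : D.rg f g) : D.rg g f := by
  induction h with
  | refl => exact Relation.ReflTransGen.refl
  | tail _ h2 ih => exact Relation.ReflTransGen.head (tw_symm h2) ih

theorem rg_of {f g : V} {x : Option V} (h : D.Two x) (hf : f ∈ D.st x) (hg : g ∈ D.st x) :
    D.rg f g := by
  by_cases hfg : f = g
  · subst hfg
    exact rg_refl f
  · exact Relation.ReflTransGen.single (tw_of h hf hg hfg)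

theorem tw_mem {f g : V} (h : D.tw f g) : f ∈ D.F ∧ g ∈ D.F := by
  obtain ⟨_, x, hx⟩ := h
  have h1 : f ∈ D.st x := by simp [hx]
  have h2 : g ∈ D.st x := by simp [hx]
  exact ⟨h1.1, h2.1⟩

theorem rg_mem {f g : V} (hf : f ∈ D.F) (h : D.rg f g) : g ∈ D.F := by
  induction h with
  | refl => exact hf
  | tail _ h2 _ => exact (tw_mem h2).2

theorem cmp_symm {f g : V} (h : D.cmp f g) : D.cmp g f := by
  rcases h with h | ⟨x, h1, h2, h3⟩
  · exact Or.inl (rg_symm h)
  · exact Or.inr ⟨x, h1, h3, h2⟩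

/-! ### Walks of `H` give walks of `G` -/

/-- A walk of `H` inside `J` from `x` to `y` gives a walk of `G` from any edge at `x` to any edge at
`y` inside `ins J` and these two edges. -/
theorem con_of {J : Set (Option V)} {x y : Option V} (h : Con D.H J x y) {f g : V}
    (hf : f ∈ D.st x) (hg : g ∈ D.st y) : Con G (insert f (insert g (D.ins J))) f g := by
  obtain ⟨p, hp⟩ := h
  induction p generalizing f with
  | nil =>
    by_cases hfg : f = g
    · subst hfg
      exact con_refl (Set.mem_insert _ _)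
    · exact con_adj (adj_of_st hf hg hfg) (Set.mem_insert _ _)
        (Set.mem_insert_of_mem _ (Set.mem_insert _ _))
  | @cons u v w hadj p ih =>
    obtain ⟨huv, k, hk, huk, hvk⟩ := hadj
    have hu : u ∈ J := hp _ (by simp)
    have hv : v ∈ J := hp _ (by simp)
    have hkJ : k ∈ D.ins J := mem_ins_of hk (e_eq hk huk hvk huv) hu hv
    have h1 := ih (f := k) ⟨hk, hvk⟩ hg (fun x hx => hp x (by simp [hx]))
    have h2 : Con G (insert f (insert g (D.ins J))) k g := by
      refine h1.mono le_rfl ?_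
      rintro z (rfl | rfl | hz)
      · simp [hkJ]
      · simp
      · simp [hz]
    by_cases hfk : f = k
    · subst hfk
      exact h2
    · exact (con_adj (adj_of_st hf ⟨hk, huk⟩ hfk) (by simp) (by simp [hkJ])).trans h2

/-- The edges inside a connected set of nodes. -/
theorem exists_ins {J : Set (Option V)} {x y : Option V} (h : Con D.H J x y) (hxy : x ≠ y) :
    ∃ f ∈ D.ins J, x ∈ D.e f := by
  obtain ⟨p, hp⟩ := h
  cases p with
  | nil => exact absurd rfl hxy
  | @cons u v w hadj p =>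
    obtain ⟨huv, k, hk, huk, hvk⟩ := hadj
    exact ⟨k, mem_ins_of hk (e_eq hk huk hvk huv) (hp _ (by simp)) (hp _ (by simp)), huk⟩

end PF

end Pool.Agent.Work.MP_c4d05f_lc.Str
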