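import Pool.Agent.Work.MP_c4d05f_lc.N.Str.Bas

/-!
# Neighbours in `H` (module `Nbr`, size S)

The map which sends an edge `f ∈ D.st x` to its other end (`PF.other`) is a bijection from `D.st x`
to the neighbours of `x` in `D.H` (`PF.h_adj`, `D.inj`); `Set.ncard_congr`.
-/

set_option autoImplicit false

namespace Pool.Agent.Work.MP_c4d05f_lc.Str

open Pool.Agent.Work.MP_5f857a_co.L (Con)
open Pool.Agent.Work.MP_c4d05f_lc.N (Clean)
open Pool.Agent.Work.MP_c4d05f_lc.Hav (Anti Apart)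

variable {V : Type} {G : SimpleGraph V} {L : Set V} {D : PF G}

theorem ncard_nbr (D : PF G) (x : Option V) :
    (D.H.neighborSet x).ncard = (D.st x).ncard := by
  symm
  refine Set.ncard_congr (fun f hf => (PF.other (D := D) hf.1 hf.2).choose) ?_ ?_ ?_
  · intro f hf
    obtain ⟨h1, h2⟩ := (PF.other (D := D) hf.1 hf.2).choose_spec
    exact PF.h_adj.2 ⟨h1.symm, f, hf.1, h2⟩
  · intro f g hf hg hfg
    obtain ⟨_, h2⟩ := (PF.other (D := D) hf.1 hf.2).choose_spec
    obtain ⟨_, h4⟩ := (PF.other (D := D) hg.1 hg.2).choose_spec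
    have h5 : D.e f = s(x, (PF.other (D := D) hg.1 hg.2).choose) :=
      h2.trans (congrArg (fun z => s(x, z)) hfg)
    exact D.inj f hf.1 g hg.1 (h5.trans h4.symm)
  · intro y hy
    obtain ⟨hxy, f, hf, he⟩ := PF.h_adj.1 hy
    have hfx : f ∈ D.st x := ⟨hf, by simp [he]⟩
    refine ⟨f, hfx, ?_⟩
    obtain ⟨h1, h2⟩ := (PF.other (D := D) hfx.1 hfx.2).choose_spec
    rcases Sym2.eq_iff.1 (he.symm.trans h2) with ⟨_, h⟩ | ⟨h, h'⟩
    · exact h.symm
    · exact absurd h'.symm hxy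

end Pool.Agent.Work.MP_c4d05f_lc.Str
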