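import Pool.Agent.Work.MP_c4d05f_lc.N.Str.Bas

/-!
# A parity lemma (module `Par`, size S-M, only Mathlib)

`K'` = the graph with the edges of `K` inside `X ∪ {s}` (`SimpleGraph.fromRel` or a structure). Its
degrees: `2` on `X`, the number in question at `s`, `0` elsewhere.
`SimpleGraph.even_card_odd_degree_vertices`: if the degree of `s` were odd, the set of the vertices
of odd degree would be `{s}`, of cardinality one.
-/

set_option autoImplicit false

namespace Pool.Agent.Work.MP_c4d05f_lc.Str

open Pool.Agent.Work.MP_5f857a_co.L (Con)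
open Pool.Agent.Work.MP_c4d05f_lc.N (Clean)
open Pool.Agent.Work.MP_c4d05f_lc.Hav (Anti Apart)

variable {V : Type} {G : SimpleGraph V} {L : Set V} {D : PF G}

theorem par {W : Type} [Finite W] (K : SimpleGraph W) (X : Set W) (s : W) (hs : s ∉ X)
    (h2 : ∀ x ∈ X, (K.neighborSet x).ncard = 2)
    (hX : ∀ x ∈ X, ∀ y, K.Adj x y → y ∈ X ∨ y = s) :
    Even (Set.ncard {y | y ∈ X ∧ K.Adj s y}) := by
  classical
  cases nonempty_fintype W
  let K' : SimpleGraph W :=
    { Adj := fun x y => K.Adj x y ∧ x ∈ insert s X ∧ y ∈ insert s X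
      symm := ⟨fun _ _ h => ⟨h.1.symm, h.2.2, h.2.1⟩⟩
      loopless := ⟨fun _ h => h.1.ne rfl⟩ }
  have hadj : ∀ x y, K'.Adj x y ↔ K.Adj x y ∧ x ∈ insert s X ∧ y ∈ insert s X :=
    fun x y => Iff.rfl
  have hdeg : ∀ x, K'.degree x = (K'.neighborSet x).ncard := by
    intro x
    rw [← SimpleGraph.card_neighborSet_eq_degree, Set.ncard_eq_toFinset_card',
      Set.toFinset_card]
  have hdX : ∀ x ∈ X, K'.degree x = 2 := by
    intro x hx
    rw [hdeg, ← h2 x hx]
    congr 1
    ext y
    simp only [SimpleGraph.mem_neighborSet, hadj]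
    constructor
    · exact fun h => h.1
    · intro h
      refine ⟨h, Set.mem_insert_of_mem _ hx, ?_⟩
      rcases hX x hx y h with h' | h'
      · exact Set.mem_insert_of_mem _ h'
      · exact h' ▸ Set.mem_insert _ _
  have hdo : ∀ x, x ∉ insert s X → K'.degree x = 0 := by
    intro x hx
    rw [hdeg]
    have : K'.neighborSet x = ∅ := by
      ext y
      simp only [SimpleGraph.mem_neighborSet, hadj, Set.mem_empty_iff_false, iff_false]
      exact fun h => hx h.2.1
    rw [this, Set.ncard_empty]
  have hds : K'.degree s = Set.ncard {y | y ∈ X ∧ K.Adj s y} := by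
    rw [hdeg]
    congr 1
    ext y
    simp only [SimpleGraph.mem_neighborSet, hadj, Set.mem_ofPred_eq]
    constructor
    · rintro ⟨h1, -, h3⟩
      rcases h3 with rfl | h3
      · exact absurd rfl h1.ne
      · exact ⟨h3, h1⟩
    · rintro ⟨h1, h3⟩
      exact ⟨h3, Set.mem_insert _ _, Set.mem_insert_of_mem _ h1⟩
  rw [← hds]
  by_contra hodd
  rw [Nat.not_even_iff_odd] at hodd
  have hev := K'.even_card_odd_degree_vertices
  have hset : (Finset.univ.filter fun v => Odd (K'.degree v)) = {s} := by
    ext v
    simp only [Finset.mem_filter, Finset.mem_univ, true_and, Finset.mem_singleton]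
    constructor
    · intro hv
      by_contra hvs
      by_cases hvX : v ∈ X
      · rw [hdX v hvX] at hv
        exact absurd hv (by decide)
      · rw [hdo v (by
          rintro (h | h)
          · exact hvs h
          · exact hvX h)] at hv
        exact absurd hv (by decide)
    · rintro rfl
      exact hodd
  rw [hset, Finset.card_singleton] at hev
  exact absurd hev (by decide)

end Pool.Agent.Work.MP_c4d05f_lc.Str
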