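import Pool.Agent.Work.MP_c4d05f_lc.N.Str.K
import Pool.Agent.Work.MP_c4d05f_lc.N.Str.Par
import Pool.Agent.Work.MP_c4d05f_lc.N.Str.Nbr

/-!
# Bridges, part 1 (module `Brg1`, size M-L)

`S` has at most two nodes, `v ∉ S` is a node which is not joined to a leaf in `H - S`. Let `X` be the
set of the nodes joined to `v` in `H - S`.
1. Every `x ∈ X` has a nonempty star (for `x ≠ v`: it is adjacent to something), it is no leaf
   (`hno`), not of degree three (`fr.fr4 x S hS`, `x ∉ S` gives a leaf joined to `x`, so to `v`). So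
   `Two x` (`PF.deg_cases hc`).
2. All edges at nodes of `X` are in one rung: induction on the walk (`Con.mem_of_closed`): `PF.rg_of`
   at each node, adjacent nodes share an edge.
3. Every neighbour (in `H`) of a node of `X` is in `X` or in `S`. Suppose that the conclusion
   (`S.card = 2` and every `s ∈ S` has a neighbour in `X`) fails: then there is `s₀` such that all
   neighbours of nodes of `X` are in `X ∪ {s₀}`.
   - If `s₀` has no neighbour in `X` (or there is no such `s₀`): `X` is closed under adjacency of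
     `H`; `fr.con` joins `v` to the leaf of `fr.one`, so this leaf is in `X`: contradiction to 1.
   - Otherwise `s₀ ∉ X`, `par` and `ncard_nbr` (nodes of `X` have 2 neighbours) : the number of
     neighbours of `s₀` in `X` is even, so at least 2. `s₀` is not a leaf. If `Two s₀` then both its
     neighbours are in `X` and `X ∪ {s₀}` is closed: contradiction as before. If `Three s₀`
     (three neighbours, an even number of them in `X`): exactly one neighbour `z` is not in `X`;
     `fr.fr4 s₀ {z}` gives a leaf `d` with `Con H {z}ᶜ s₀ d`, but `X ∪ {s₀}` is closed under adjacency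
     outside `z` and contains no leaf.
-/

set_option autoImplicit false

namespace Pool.Agent.Work.MP_c4d05f_lc.Str

open Pool.Agent.Work.MP_5f857a_co.L (Con)
open Pool.Agent.Work.MP_c4d05f_lc.N (Clean)
open Pool.Agent.Work.MP_c4d05f_lc.Hav (Anti Apart)

variable {V : Type} {G : SimpleGraph V} {L : Set V} {D : PF G}

theorem brg1 [Finite V] (hc : Clean G) (fr : D.Frame L) (S : Finset (Option V))
    (hS : S.card ≤ 2) {v : Option V} (hv : (D.st v).Nonempty) (hvS : v ∉ S)
    (hno : ∀ d, D.Leaf d → ¬ Con D.H (S : Set (Option V))ᶜ v d) :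
    (∀ x, Con D.H (S : Set (Option V))ᶜ v x → D.Two x) ∧
    (∀ x y f g, Con D.H (S : Set (Option V))ᶜ v x → Con D.H (S : Set (Option V))ᶜ v y →
      f ∈ D.st x → g ∈ D.st y → D.rg f g) ∧
    S.card = 2 ∧ ∀ s ∈ S, ∃ x, Con D.H (S : Set (Option V))ᶜ v x ∧ D.H.Adj s x := by
  classical
  have hvv : Con D.H (S : Set (Option V))ᶜ v v := con_refl fun h => hvS (Finset.mem_coe.1 h)
  have hTwo : ∀ x, Con D.H (S : Set (Option V))ᶜ v x → D.Two x := by
    intro x hx
    have hne : (D.st x).Nonempty := by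
      by_cases hxv : x = v
      · rw [hxv]
        exact hv
      · obtain ⟨f, hf, hxf⟩ := PF.exists_ins hx.symm hxv
        exact ⟨f, hf.1, hxf⟩
    rcases PF.deg_cases hc hne with h | h | h
    · exact absurd hx (hno x h)
    · exact h
    · obtain ⟨d, hd, hcon⟩ := fr.fr4 x h S hS (fun hxS => hx.right (Finset.mem_coe.2 hxS))
      exact absurd (hx.trans hcon) (hno d hd)
  have hstep : ∀ x y, Con D.H (S : Set (Option V))ᶜ v x → D.H.Adj x y → y ∉ S →
      Con D.H (S : Set (Option V))ᶜ v y := fun x y hx hadj hy =>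
    hx.trans (con_adj hadj hx.right fun h => hy (Finset.mem_coe.1 h))
  obtain ⟨f0, hf0⟩ := hv
  have hrung : ∀ x, Con D.H (S : Set (Option V))ᶜ v x → ∀ g ∈ D.st x, D.rg f0 g := by
    intro x hx
    have h1 : Con D.H (S : Set (Option V))ᶜ v x ∧ ∀ g ∈ D.st x, D.rg f0 g := by
      refine hx.mem_of_closed (P := fun x => Con D.H (S : Set (Option V))ᶜ v x ∧
        ∀ g ∈ D.st x, D.rg f0 g) ⟨hvv, fun g hg => PF.rg_of (hTwo v hvv) hf0 hg⟩ ?_
      rintro a b ha hb hab ⟨h2, h3⟩
      have h4 : Con D.H (S : Set (Option V))ᶜ v b :=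
        hstep a b h2 hab fun h => hb (Finset.mem_coe.2 h)
      obtain ⟨hne, k, hk, hak, hbk⟩ := hab
      exact ⟨h4, fun g hg => PF.rg_trans (h3 k ⟨hk, hak⟩) (PF.rg_of (hTwo b h4) ⟨hk, hbk⟩ hg)⟩
    exact h1.2
  refine ⟨hTwo, fun x y f g hx hy hf hg =>
    PF.rg_trans (PF.rg_symm (hrung x hx f hf)) (hrung y hy g hg), ?_⟩
  -- the leaf
  obtain ⟨d, hd⟩ := fr.one
  have hvd : Con D.H Set.univ v d := fr.con v d ⟨f0, hf0⟩ hd.ne_empty
  -- the set of the vertices of `S` with a neighbour in `X`
  by_contra hcon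
  have hone : ∀ a ∈ S, ∀ b ∈ S, (∃ x, Con D.H (S : Set (Option V))ᶜ v x ∧ D.H.Adj a x) →
      (∃ x, Con D.H (S : Set (Option V))ᶜ v x ∧ D.H.Adj b x) → a = b := by
    intro a ha b hb h1 h2
    by_contra hab
    apply hcon
    have h3 : ({a, b} : Finset (Option V)) ⊆ S := by
      intro z hz
      rw [Finset.mem_insert, Finset.mem_singleton] at hz
      rcases hz with rfl | rfl
      · exact ha
      · exact hb
    have h4 : ({a, b} : Finset (Option V)).card = 2 := Finset.card_pair hab
    have h5 : ({a, b} : Finset (Option V)) = S := Finset.eq_of_subset_of_card_le h3 (by omega)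
    refine ⟨by rw [← h5]; exact h4, fun s hs => ?_⟩
    rw [← h5, Finset.mem_insert, Finset.mem_singleton] at hs
    rcases hs with rfl | rfl
    · exact h1
    · exact h2
  by_cases hT : ∃ s ∈ S, ∃ x, Con D.H (S : Set (Option V))ᶜ v x ∧ D.H.Adj s x
  · obtain ⟨s, hs, x0, hx0, hsx0⟩ := hT
    obtain ⟨X, hX⟩ : ∃ X : Set (Option V), ∀ x, x ∈ X ↔ Con D.H (S : Set (Option V))ᶜ v x :=
      ⟨{x | Con D.H (S : Set (Option V))ᶜ v x}, fun _ => Iff.rfl⟩
    have hsX : s ∉ X := fun h => ((hX s).1 h).right (Finset.mem_coe.2 hs)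
    have hcl : ∀ x ∈ X, ∀ y, D.H.Adj x y → y ∈ X ∨ y = s := by
      intro x hx y hxy
      by_cases hy : y ∈ S
      · exact Or.inr (hone y hy s hs ⟨x, (hX x).1 hx, hxy.symm⟩ ⟨x0, hx0, hsx0⟩)
      · exact Or.inl ((hX y).2 (hstep x y ((hX x).1 hx) hxy hy))
    have h2 : ∀ x ∈ X, (D.H.neighborSet x).ncard = 2 := by
      intro x hx
      rw [ncard_nbr]
      obtain ⟨f, g, hfg, he⟩ := hTwo x ((hX x).1 hx)
      rw [he]
      exact Set.ncard_pair hfg
    have hpar := par D.H X s hsX h2 hcl
    have hsub : {y | y ∈ X ∧ D.H.Adj s y} ⊆ D.H.neighborSet s := fun y hy => hy.2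
    have hle : Set.ncard {y | y ∈ X ∧ D.H.Adj s y} ≤ (D.st s).ncard := by
      rw [← ncard_nbr]
      exact Set.ncard_le_ncard hsub (Set.toFinite _)
    have hpos : 0 < Set.ncard {y | y ∈ X ∧ D.H.Adj s y} :=
      (Set.ncard_pos (Set.toFinite _)).2 ⟨x0, (hX x0).2 hx0, hsx0⟩
    have hsne : (D.st s).Nonempty := by
      obtain ⟨_, k, hk, hsk, _⟩ := hsx0
      exact ⟨k, hk, hsk⟩
    have hdX : d ∉ X := fun h => hno d hd ((hX d).1 h)
    rcases PF.deg_cases hc hsne with h | h | h
    · obtain ⟨f, hf⟩ := h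
      rw [hf, Set.ncard_singleton] at hle
      rcases hpar with ⟨r, hr⟩
      omega
    · have h3 : (D.st s).ncard = 2 := by
        obtain ⟨f, g, hfg, he⟩ := h
        rw [he]
        exact Set.ncard_pair hfg
      have h4 : {y | y ∈ X ∧ D.H.Adj s y} = D.H.neighborSet s := by
        refine Set.eq_of_subset_of_ncard_le hsub ?_ (Set.toFinite _)
        rw [ncard_nbr, h3]
        rcases hpar with ⟨r, hr⟩
        omega
      have h5 : d ∈ X ∨ d = s := by
        refine hvd.mem_of_closed (P := fun x => x ∈ X ∨ x = s) (Or.inl ((hX v).2 hvv)) ?_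
        rintro a b _ _ hab (ha | ha)
        · exact hcl a ha b hab
        · subst ha
          have h6 : b ∈ D.H.neighborSet a := hab
          rw [← h4] at h6
          exact Or.inl h6.1
      rcases h5 with h5 | h5
      · exact hdX h5
      · rw [h5] at hd
        exact hd.not_two h
    · have h3 : (D.st s).ncard = 3 := by
        obtain ⟨f, g, k, hfg, hfk, hgk, he⟩ := h
        rw [he]
        rw [Set.ncard_eq_three]
        exact ⟨f, g, k, hfg, hfk, hgk, rfl⟩
      have h4 : (D.H.neighborSet s \ {y | y ∈ X ∧ D.H.Adj s y}).ncard = 1 := by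
        rw [Set.ncard_sdiff hsub (Set.toFinite _), ncard_nbr, h3]
        rcases hpar with ⟨r, hr⟩
        omega
      obtain ⟨z, hz⟩ := Set.ncard_eq_one.1 h4
      have hz1 : z ∈ D.H.neighborSet s \ {y | y ∈ X ∧ D.H.Adj s y} := by
        rw [hz]
        rfl
      have hzs : s ≠ z := (show D.H.Adj s z from hz1.1).ne
      obtain ⟨d', hd', hcd⟩ := fr.fr4 s h {z} (by simp) (by simpa using hzs)
      have h5 : d' ∈ X ∨ d' = s := by
        refine hcd.mem_of_closed (P := fun x => x ∈ X ∨ x = s) (Or.inr rfl) ?_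
        rintro a b _ hb hab (ha | ha)
        · exact hcl a ha b hab
        · subst ha
          by_contra h6
          have h7 : b ∈ D.H.neighborSet a \ {y | y ∈ X ∧ D.H.Adj a y} :=
            ⟨hab, fun h8 => h6 (Or.inl h8.1)⟩
          rw [hz] at h7
          exact hb (by simpa using h7)
      rcases h5 with h5 | h5
      · exact hno d' hd' ((hX d').1 h5)
      · rw [h5] at hd'
        exact hd'.not_three h
  · have h5 : Con D.H (S : Set (Option V))ᶜ v d := by
      refine hvd.mem_of_closed (P := fun x => Con D.H (S : Set (Option V))ᶜ v x) hvv ?_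
      intro a b _ _ hab ha
      refine hstep a b ha hab fun hb => hT ⟨b, hb, a, ha, hab.symm⟩
    exact hno d hd h5

end Pool.Agent.Work.MP_c4d05f_lc.Str
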