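import Pool.Agent.Work.MP_c4d05f_lc.N.Str.Brg1

/-!
# Bridges, part 2 (module `Brg2`, size M-L)

`IsBr S f`: `f` is an edge with an end outside `S` which is not joined to a leaf in `H - S`, or both
ends of `f` are in `S`.

Proof of `two_bridges`. `S = {s, s'}` (a bridge edge gives `S.card = 2`: by `brg1`, or because the
two ends of `f` are in `S`). Cases:
(i) `f` has an end `x ∉ S` without leaf, `g` has an end `y ∉ S` without leaf. If `x`, `y` are joined
 in `H - S`: `brg1` (second part). Otherwise `s` has neighbours `x₁`, `y₁` in the components `X` of `x`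
 and `Y` of `y` (`brg1`, last part), edges `k₁ = s x₁`, `k₂ = s y₁`, `k₁ ≠ k₂`, `rg f k₁`, `rg g k₂`. `s` is not a
 leaf. `Two s`: `rg k₁ k₂` (`PF.rg_of`). `Three s`: the third edge at `s` has the other end `z`;
 `fr.fr4 s {s', z}` gives a leaf `d` joined to `s` in `H - {s', z}`; the set `{s} ∪ X ∪ Y` is closed
 under adjacency outside `{s', z}` (neighbours of `X` are in `X ∪ {s, s'}`), so `d` is in it:
 contradiction (`X`, `Y` consist of nodes with `Two`).
(ii) `f` as in (i), `g` has both ends in `S`: the same with `k₂ = g` and the closed set `{s} ∪ X`.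
(iii) both have both ends in `S`: `D.e f = D.e g`, `f = g`.
-/

set_option autoImplicit false

namespace Pool.Agent.Work.MP_c4d05f_lc.Str

open Pool.Agent.Work.MP_5f857a_co.L (Con)
open Pool.Agent.Work.MP_5f857a_co.L (Con.mono Con.right Con.left Con.trans Con.mem_of_closed)
open Pool.Agent.Work.MP_c4d05f_lc.N (Clean)
open Pool.Agent.Work.MP_c4d05f_lc.Hav (Anti Apart)

variable {V : Type} {G : SimpleGraph V} {L : Set V} {D : PF G}

/-- `f` is on a bridge of `S`. -/
def IsBr (D : PF G) (S : Finset (Option V)) (f : V) : Prop :=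
  f ∈ D.F ∧ ((∃ x ∈ D.e f, x ∉ S ∧ ∀ d, D.Leaf d → ¬ Con D.H (S : Set (Option V))ᶜ x d) ∨
    ∀ x ∈ D.e f, x ∈ S)

private theorem step [Finite V] (hc : Clean G) (fr : D.Frame L) {s s' : Option V} (hss : s ≠ s')
    {P : Option V → Prop} (hPl : ∀ d, P d → ¬ D.Leaf d)
    (hPc : ∀ a b, P a → D.H.Adj a b → b ≠ s → b ≠ s' → P b) {k₁ k₂ : V} {a₁ a₂ : Option V}
    (hk₁ : k₁ ∈ D.F) (hs1 : s ∈ D.e k₁) (he1 : D.e k₁ = s(s, a₁)) (hk₂ : k₂ ∈ D.F)
    (hs2 : s ∈ D.e k₂) (he2 : D.e k₂ = s(s, a₂)) (ha1 : P a₁) (ha2 : P a₂ ∨ a₂ = s') :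
    D.rg k₁ k₂ := by
  by_cases hkk : k₁ = k₂
  · subst hkk
    exact PF.rg_refl k₁
  have h1 : k₁ ∈ D.st s := ⟨hk₁, hs1⟩
  have h2 : k₂ ∈ D.st s := ⟨hk₂, hs2⟩
  rcases PF.deg_cases hc (x := s) ⟨k₁, h1⟩ with hl | ht | h3
  · exact absurd (hl.eq h1 h2) hkk
  · exact PF.rg_of ht h1 h2
  · exfalso
    obtain ⟨g, k, hg, hk, hgk, he⟩ := h3.triple h1
    have hk2 : k₂ = g ∨ k₂ = k := by
      rw [he] at h2
      simp only [Set.mem_insert_iff, Set.mem_singleton_iff] at h2
      rcases h2 with h | h | h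
      · exact absurd h.symm hkk
      · exact Or.inl h
      · exact Or.inr h
    obtain ⟨k₃, hk3, hst⟩ : ∃ k₃, k₃ ∈ D.st s ∧ ∀ l ∈ D.st s, l = k₁ ∨ l = k₂ ∨ l = k₃ := by
      rcases hk2 with rfl | rfl
      · refine ⟨k, by rw [he]; simp, fun l hl => ?_⟩
        rw [he] at hl
        simpa only [Set.mem_insert_iff, Set.mem_singleton_iff] using hl
      · refine ⟨g, by rw [he]; simp, fun l hl => ?_⟩
        rw [he] at hl
        simp only [Set.mem_insert_iff, Set.mem_singleton_iff] at hl
        tauto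
    obtain ⟨z, hz, hez⟩ := PF.other hk3.1 hk3.2
    classical
    obtain ⟨d, hd, hcd⟩ := fr.fr4 s h3 {s', z} (Finset.card_le_two) (by
      simp only [Finset.mem_insert, Finset.mem_singleton, not_or]
      exact ⟨hss, hz.symm⟩)
    have hPd : d = s ∨ P d := by
      refine hcd.mem_of_closed (P := fun n => n = s ∨ P n) (Or.inl rfl) ?_
      intro a b _ hb hab ha
      have hbs' : b ≠ s' := by
        rintro rfl
        exact hb (by simp)
      have hbz : b ≠ z := by
        rintro rfl
        exact hb (by simp)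
      by_cases hbs : b = s
      · exact Or.inl hbs
      right
      rcases ha with rfl | ha
      · obtain ⟨_, l, hl, hel⟩ := PF.h_adj.1 hab
        have hls : l ∈ D.st a := ⟨hl, by rw [hel]; simp⟩
        have hbl : b ∈ D.e l := by rw [hel]; simp
        rcases hst l hls with rfl | rfl | rfl
        · rw [he1, Sym2.mem_iff] at hbl
          rcases hbl with h | h
          · exact absurd h hbs
          · rw [h]; exact ha1
        · rw [he2, Sym2.mem_iff] at hbl
          rcases hbl with h | h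
          · exact absurd h hbs
          · rcases ha2 with h' | h'
            · rw [h]; exact h'
            · exact absurd (h.trans h') hbs'
        · rw [hez, Sym2.mem_iff] at hbl
          rcases hbl with h | h
          · exact absurd h hbs
          · exact absurd h hbz
      · exact hPc a b ha hab hbs hbs'
    rcases hPd with rfl | hPd
    · exact hkk (hd.eq h1 h2)
    · exact hPl d hPd hd

/-- the neighbours outside `S` -/
private theorem con_ext {S : Finset (Option V)} {x a b : Option V}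
    (h : Con D.H (S : Set (Option V))ᶜ x a) (hab : D.H.Adj a b) (hb : b ∉ S) :
    Con D.H (S : Set (Option V))ᶜ x b :=
  h.trans (con_adj hab h.right hb)

theorem two_bridges [Finite V] (hc : Clean G) (fr : D.Frame L) {S : Finset (Option V)}
    (hS : S.card ≤ 2) {f g : V} (hf : IsBr D S f) (hg : IsBr D S g) : D.rg f g := by
  -- the case with an end outside `S`
  have key : ∀ {f g : V} {x : Option V}, f ∈ D.st x → x ∉ S →
      (∀ d, D.Leaf d → ¬ Con D.H (S : Set (Option V))ᶜ x d) → IsBr D S g → D.rg f g := by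
    intro f g x hfx hxS hno hg
    classical
    obtain ⟨_, b2, b3, b4⟩ := brg1 hc fr S hS ⟨f, hfx⟩ hxS hno
    obtain ⟨s, s', hss, hSe⟩ := Finset.card_eq_two.1 b3
    have hs : s ∈ S := by rw [hSe]; simp
    have hmem : ∀ b, b ≠ s → b ≠ s' → b ∉ S := by
      intro b h1 h2 h3
      rw [hSe] at h3
      simp only [Finset.mem_insert, Finset.mem_singleton] at h3
      tauto
    obtain ⟨x₁, hx₁, hadj⟩ := b4 s hs
    obtain ⟨_, k₁, hk₁, hek₁⟩ := PF.h_adj.1 hadj
    have hfk : D.rg f k₁ := b2 x x₁ f k₁ (con_refl hxS) hx₁ hfx ⟨hk₁, by rw [hek₁]; simp⟩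
    have hx : ∀ d, Con D.H (S : Set (Option V))ᶜ x d → ¬ D.Leaf d := fun d h h' => hno d h' h
    obtain ⟨hgF, ⟨y, hyg, hyS, hno'⟩ | hg⟩ := hg
    · obtain ⟨_, c2, _, c4⟩ := brg1 hc fr S hS ⟨g, hgF, hyg⟩ hyS hno'
      obtain ⟨y₁, hy₁, hadj'⟩ := c4 s hs
      obtain ⟨_, k₂, hk₂, hek₂⟩ := PF.h_adj.1 hadj'
      have hgk : D.rg g k₂ := c2 y y₁ g k₂ (con_refl hyS) hy₁ ⟨hgF, hyg⟩ ⟨hk₂, by rw [hek₂]; simp⟩
      have h := step (P := fun n => Con D.H (S : Set (Option V))ᶜ x n ∨
          Con D.H (S : Set (Option V))ᶜ y n) hc fr hss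
        (by
          rintro d (hd | hd) hl
          · exact hno d hl hd
          · exact hno' d hl hd)
        (by
          rintro a b (ha | ha) hab h1 h2
          · exact Or.inl (con_ext ha hab (hmem b h1 h2))
          · exact Or.inr (con_ext ha hab (hmem b h1 h2)))
        hk₁ (by rw [hek₁]; simp) hek₁ hk₂ (by rw [hek₂]; simp) hek₂ (Or.inl hx₁)
        (Or.inl (Or.inr hy₁))
      exact PF.rg_trans hfk (PF.rg_trans h (PF.rg_symm hgk))
    · obtain ⟨a, b, hab, heg⟩ := PF.ends hgF
      have haS := hg a (by rw [heg]; simp)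
      have hbS := hg b (by rw [heg]; simp)
      have heg' : D.e g = s(s, s') := by
        rw [hSe] at haS hbS
        simp only [Finset.mem_insert, Finset.mem_singleton] at haS hbS
        rcases haS with rfl | rfl <;> rcases hbS with rfl | rfl
        · exact absurd rfl hab
        · exact heg
        · rw [heg, Sym2.eq_swap]
        · exact absurd rfl hab
      have h := step (P := fun n => Con D.H (S : Set (Option V))ᶜ x n) hc fr hss
        (fun d hd hl => hno d hl hd)
        (fun a b ha hab h1 h2 => con_ext ha hab (hmem b h1 h2))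
        hk₁ (by rw [hek₁]; simp) hek₁ hgF (by rw [heg']; simp) heg' hx₁ (Or.inr rfl)
      exact PF.rg_trans hfk h
  obtain ⟨hfF, ⟨x, hxf, hxS, hno⟩ | hf'⟩ := hf
  · exact key ⟨hfF, hxf⟩ hxS hno hg
  obtain ⟨hgF, ⟨y, hyg, hyS, hno⟩ | hg'⟩ := hg
  · exact PF.rg_symm (key ⟨hgF, hyg⟩ hyS hno ⟨hfF, Or.inr hf'⟩)
  obtain ⟨a, b, hab, hef⟩ := PF.ends hfF
  obtain ⟨a', b', hab', heg⟩ := PF.ends hgF
  have haS := hf' a (by rw [hef]; simp)
  have hbS := hf' b (by rw [hef]; simp)
  have haS' := hg' a' (by rw [heg]; simp)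
  have hbS' := hg' b' (by rw [heg]; simp)
  have hsub : ∀ z ∈ S, z = a ∨ z = b := by
    classical
    intro z hz
    by_contra hcon
    push Not at hcon
    have : ({z, a, b} : Finset (Option V)).card ≤ S.card := by
      refine Finset.card_le_card ?_
      intro t ht
      simp only [Finset.mem_insert, Finset.mem_singleton] at ht
      rcases ht with rfl | rfl | rfl <;> assumption
    rw [Finset.card_eq_three.2 ⟨z, a, b, hcon.1, hcon.2, hab, rfl⟩] at this
    omega
  have : D.e f = D.e g := by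
    rw [hef, heg]
    rcases hsub a' haS' with rfl | rfl <;> rcases hsub b' hbS' with rfl | rfl
    · exact absurd rfl hab'
    · rfl
    · exact Sym2.eq_swap
    · exact absurd rfl hab'
  rw [D.inj f hfF g hgF this]
  exact PF.rg_refl g

theorem br_card [Finite V] (hc : Clean G) (fr : D.Frame L) {S : Finset (Option V)}
    (hS : S.card ≤ 2) {f : V} (hf : IsBr D S f) : S.card = 2 := by
  obtain ⟨hfF, ⟨x, hxf, hxS, hno⟩ | hf'⟩ := hf
  · exact (brg1 hc fr S hS ⟨f, hfF, hxf⟩ hxS hno).2.2.1
  · classical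
    obtain ⟨a, b, hab, hef⟩ := PF.ends hfF
    have haS := hf' a (by rw [hef]; simp)
    have hbS := hf' b (by rw [hef]; simp)
    have : ({a, b} : Finset (Option V)).card ≤ S.card := by
      refine Finset.card_le_card ?_
      intro t ht
      simp only [Finset.mem_insert, Finset.mem_singleton] at ht
      rcases ht with rfl | rfl <;> assumption
    rw [Finset.card_pair hab] at this
    omega

/-- If there is a bridge edge `f`, all edges at a node `m ∈ S` of degree two are in the rung of
`f`: if both ends of `f` are in `S` (which has two elements) then `m ∈ D.e f`; otherwise the last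
part of `brg1` gives a bridge edge at `m`. -/
theorem br_node [Finite V] (hc : Clean G) (fr : D.Frame L) {S : Finset (Option V)}
    (hS : S.card ≤ 2) {f : V} (hf : IsBr D S f) {m : Option V} (hm : m ∈ S) (h2 : D.Two m) {g : V}
    (hg : g ∈ D.st m) : D.rg f g := by
  have hcard := br_card hc fr hS hf
  obtain ⟨hfF, ⟨x, hxf, hxS, hno⟩ | hf'⟩ := hf
  · obtain ⟨_, b2, _, b4⟩ := brg1 hc fr S hS ⟨f, hfF, hxf⟩ hxS hno
    obtain ⟨x₁, hx₁, hadj⟩ := b4 m hm
    obtain ⟨_, k, hk, hek⟩ := PF.h_adj.1 hadj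
    have h1 : D.rg f k := b2 x x₁ f k (con_refl hxS) hx₁ ⟨hfF, hxf⟩ ⟨hk, by rw [hek]; simp⟩
    exact PF.rg_trans h1 (PF.rg_of h2 ⟨hk, by rw [hek]; simp⟩ hg)
  · have hmf : m ∈ D.e f := by
      classical
      obtain ⟨a, b, hab, hef⟩ := PF.ends hfF
      have haS := hf' a (by rw [hef]; simp)
      have hbS := hf' b (by rw [hef]; simp)
      by_contra hcon
      rw [hef, Sym2.mem_iff, not_or] at hcon
      have : ({m, a, b} : Finset (Option V)).card ≤ S.card := by
        refine Finset.card_le_card ?_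
        intro t ht
        simp only [Finset.mem_insert, Finset.mem_singleton] at ht
        rcases ht with rfl | rfl | rfl <;> assumption
      rw [Finset.card_eq_three.2 ⟨m, a, b, hcon.1, hcon.2, hab, rfl⟩] at this
      omega
    exact PF.rg_of h2 ⟨hfF, hmf⟩ hg

end Pool.Agent.Work.MP_c4d05f_lc.Str
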