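import Pool.Agent.Work.MP_c4d05f_lc.N.Str.Fan
import Pool.Agent.Work.MP_c4d05f_lc.N.Str.LegB

/-!
# Corners are in the core (module `Core1`, size M)

`D.st u = {c, c', c''}`, fan `J` at `u`. Let `v := c ∉ Z`. Three sets `A₁ = ins (J c)`,
`A₂ = insert c' (ins (J c'))`, `A₃ = insert c'' (ins (J c''))`: if `Z` is disjoint from `Aᵢ` then `c` is
joined to a terminal inside `insert c Aᵢ ⊆ Zᶜ` (`leg_con'` at the other end of `c`, which has degree
two by `two_of_three`; `leg_con`). The sets are disjoint, so a set `Z` with at most two elements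
misses one of them. If `Z = {a, b, d}` is a triangle which meets all three sets: `A₁` is anticomplete
to `A₂` and to `A₃` (`PF.anti_ins`, `PF.apart_ins`), but the elements of `Z` are pairwise adjacent.
-/

set_option autoImplicit false

namespace Pool.Agent.Work.MP_c4d05f_lc.Str

open Pool.Agent.Work.MP_5f857a_co.L (Con)
open Pool.Agent.Work.MP_c4d05f_lc.N (Clean)
open Pool.Agent.Work.MP_c4d05f_lc.Hav (Anti Apart)

variable {V : Type} {G : SimpleGraph V} {L : Set V} {D : PF G}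

theorem corner_core [Finite V] (hc : Clean G) (ht : Term G L) (fr : D.Frame L) {u : Option V}
    (hu : D.Three u) {c : V} (hcu : c ∈ D.st u) : c ∈ core G L := by
  classical
  obtain ⟨J, hJ⟩ := exists_fan hc ht fr hu
  obtain ⟨c', c'', hc1, hc2, hc3, hst⟩ := hu.triple hcu
  have hcu' : c' ∈ D.st u := by rw [hst]; simp
  have hcu'' : c'' ∈ D.st u := by rw [hst]; simp
  have leg : ∀ f ∈ D.st u, ∃ t ∈ L, Con G (insert f (D.ins (J f))) f t := by
    intro f hf
    obtain ⟨y, hy, he⟩ := PF.other hf.1 hf.2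
    have hyJ : y ∈ J f := hJ.nd f hf y (by rw [he]; simp) hy
    obtain ⟨d, hd, hdl⟩ := hJ.lf f hf
    exact leg_con fr (x := y) ⟨hf.1, by rw [he]; simp⟩ ⟨d, hdl, hJ.con f hf y hyJ d hd⟩
  have anti : ∀ f ∈ D.st u, ∀ g ∈ D.st u, f ≠ g → ∀ x ∈ D.ins (J f),
      ∀ y ∈ insert g (D.ins (J g)), Apart G x y := by
    intro f hf g hg hfg x hx y hy
    rcases hy with rfl | hy
    · have h1 : Apart G y x := by
        refine PF.apart_ins hg.1 (fun z hz hzJ => ?_) x hx
        by_cases hzu : z = u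
        · subst hzu
          exact hJ.nu f hf hzJ
        · exact Set.disjoint_left.1 (hJ.dj f hf y hg hfg) hzJ (hJ.nd y hg z hz hzu)
      exact ⟨h1.1.symm, fun h => h1.2 h.symm⟩
    · exact PF.anti_ins (hJ.dj f hf g hg hfg) x hx y hy
  right
  intro Z hZ hcZ
  by_contra hno
  have m1 : ∃ z ∈ Z, z ∈ D.ins (J c) := by
    by_contra hcon
    push Not at hcon
    obtain ⟨t, htL, hct⟩ := leg c hcu
    refine hno ⟨t, htL, con_mono hct ?_⟩
    rintro x (rfl | hx)
    · exact hcZ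
    · exact fun hxZ => hcon x hxZ hx
  have m2 : ∀ f ∈ D.st u, f ≠ c → ∃ z ∈ Z, z ∈ insert f (D.ins (J f)) := by
    intro f hf hfc
    by_contra hcon
    push Not at hcon
    obtain ⟨t, htL, hct⟩ := leg f hf
    have hsub : insert f (D.ins (J f)) ⊆ (Z : Set V)ᶜ := fun x hx hxZ => hcon x hxZ hx
    exact hno ⟨t, htL, (con_adj (PF.adj_of_st hcu hf (Ne.symm hfc)) hcZ
      (hsub (Set.mem_insert _ _))).trans (con_mono hct hsub)⟩
  obtain ⟨z₁, hz₁, h₁⟩ := m1
  obtain ⟨z₂, hz₂, h₂⟩ := m2 c' hcu' hc1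
  obtain ⟨z₃, hz₃, h₃⟩ := m2 c'' hcu'' hc2
  have a12 := anti c hcu c' hcu' (Ne.symm hc1) z₁ h₁ z₂ h₂
  have a13 := anti c hcu c'' hcu'' (Ne.symm hc2) z₁ h₁ z₃ h₃
  have h23 : z₂ ≠ z₃ := by
    intro h
    rw [h] at h₂
    rcases h₂ with h₂ | h₂
    · rcases h₃ with h₃ | h₃
      · exact hc3 (h₂.symm.trans h₃)
      · exact (anti c'' hcu'' c' hcu' (Ne.symm hc3) z₃ h₃ z₃ (Or.inl h₂)).1 rfl
    · exact (anti c' hcu' c'' hcu'' hc3 z₃ h₂ z₃ h₃).1 rfl
  rcases hZ with hZ | ⟨a, b, d, htri, hZe⟩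
  · have hsub : ({z₁, z₂, z₃} : Finset V) ⊆ Z := by
      intro x hx
      simp only [Finset.mem_insert, Finset.mem_singleton] at hx
      rcases hx with rfl | rfl | rfl <;> assumption
    have hcard : ({z₁, z₂, z₃} : Finset V).card = 3 :=
      Finset.card_eq_three.2 ⟨z₁, z₂, z₃, a12.1, a13.1, h23, rfl⟩
    have hle := Finset.card_le_card hsub
    omega
  · have hm1 : z₁ ∈ (Z : Set V) := hz₁
    have hm2 : z₂ ∈ (Z : Set V) := hz₂
    obtain ⟨hab, had, hbd⟩ := htri
    have hne := a12.1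
    have hna := a12.2
    rw [hZe] at hm1 hm2
    simp only [Set.mem_insert_iff, Set.mem_singleton_iff] at hm1 hm2
    rcases hm1 with hm1 | hm1 | hm1 <;> rcases hm2 with hm2 | hm2 | hm2 <;> rw [hm1, hm2] at hne hna
    · exact hne rfl
    · exact hna hab
    · exact hna had
    · exact hna hab.symm
    · exact hne rfl
    · exact hna hbd
    · exact hna had.symm
    · exact hna hbd.symm
    · exact hne rfl

end Pool.Agent.Work.MP_c4d05f_lc.Str
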