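import Pool.Agent.Work.MP_c4d05f_lc.N.Str.Ends

/-!
# The strip of a rung (module `Sep`, size M)

`hL : L ⊆ D.F` and `hloc`: locality (for all connected sets outside the frame). `c` is an end of a
rung and `c' := π c` the other one (given by `h1`, `h2`). `Strip D c v` : `v` is in the rung of `c`, or
`v` is outside the frame and all frame neighbours of its component of `G - D.F` are in the rung.
`strip_closed`: let `Strip D c v`, `v ≠ c, c'`, `G.Adj v w`. Then `Strip D c w`:
- `v, w ∈ D.F`: they share a node `z`; `v` is not an end (`hpi`: ends of the rung are `c`, `c'`), so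
  `z` has degree two: `PF.rg_of`.
- `v ∈ D.F`, `w ∉ D.F`: the component `P` of `w` in `G - D.F` (`{x | Con G D.Fᶜ w x}`, connected) is
  local (`hloc`): if its frame neighbours are in `D.st u`, `Three u`, then `v ∈ D.st u` would be an
  end; so they are in the rung of some `r`, and `v` is one of them.
- `v ∉ D.F`, `w ∈ D.F`: by definition. - both outside: the same component.
`strip_term`: a terminal `t` with `Strip D c t` is `c` or `c'`: `t ∈ D.F` (`hL`), `rg c t`, and `t` is an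
end (`term_leaf`, a leaf is not of degree two).
-/

set_option autoImplicit false

namespace Pool.Agent.Work.MP_c4d05f_lc.Str

open Pool.Agent.Work.MP_5f857a_co.L (Con)
open Pool.Agent.Work.MP_5f857a_co.L (Con.mono Con.right Con.trans comp_conn')
open Pool.Agent.Work.MP_c4d05f_lc.N (Clean)
open Pool.Agent.Work.MP_c4d05f_lc.Hav (Anti Apart)

variable {V : Type} {G : SimpleGraph V} {L : Set V} {D : PF G}

/-- `v` is in the strip of the rung of `c`. -/
def Strip (D : PF G) (c v : V) : Prop :=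
  (v ∈ D.F ∧ D.rg c v) ∨
    (v ∉ D.F ∧ ∀ x f, Con G D.Fᶜ v x → f ∈ D.F → G.Adj x f → D.rg c f)

/-- The conclusion of `loc` for all connected sets. -/
def Local (D : PF G) : Prop := ∀ P : Set V, (∀ x ∈ P, ∀ y ∈ P, Con G P x y) → (∀ x ∈ P, x ∉ D.F) →
    (∃ r ∈ D.F, ∀ x ∈ P, ∀ f ∈ D.F, G.Adj x f → D.rg r f) ∨
    (∃ u, D.Three u ∧ ∀ x ∈ P, ∀ f ∈ D.F, G.Adj x f → f ∈ D.st u)

theorem strip_closed (hc : Clean G) (ht : Term G L) (fr : D.Frame L) (hloc : Local D) {c c' : V}
    (hcc : IsEnd D c) (hpi : ∀ d, IsEnd D d → D.rg c d → d = c ∨ d = c') {v w : V}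
    (hv : Strip D c v) (hvc : v ≠ c) (hvc' : v ≠ c') (hvw : G.Adj v w) : Strip D c w := by
  rcases hv with ⟨hvF, hcv⟩ | ⟨hvF, hv⟩
  · have htwo : ∀ x ∈ D.e v, D.Two x := by
      intro x hx
      by_contra h
      rcases hpi v ⟨hvF, x, hx, h⟩ hcv with h1 | h1
      · exact hvc h1
      · exact hvc' h1
    by_cases hwF : w ∈ D.F
    · obtain ⟨x, hx, hx'⟩ := PF.st_of_adj hvF hwF hvw
      exact Or.inl ⟨hwF, PF.rg_trans hcv (PF.rg_of (htwo x hx.2) hx hx')⟩
    · refine Or.inr ⟨hwF, ?_⟩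
      intro x f hx hf hxf
      have hw : Con G D.Fᶜ w w := con_refl hwF
      rcases hloc {x | Con G D.Fᶜ w x}
        (fun a ha b hb => ((comp_conn' (S := D.F) ha hb).mono le_rfl (subset_refl _)))
        (fun a ha => Con.right ha) with ⟨r, hr, hr'⟩ | ⟨u, hu, hu'⟩
      · have h1 := hr' w hw v hvF hvw.symm
        have h2 := hr' x hx f hf hxf
        exact PF.rg_trans hcv (PF.rg_trans (PF.rg_symm h1) h2)
      · have h1 := hu' w hw v hvF hvw.symm
        exact absurd hu (htwo u h1.2).not_three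
  · by_cases hwF : w ∈ D.F
    · exact Or.inl ⟨hwF, hv v w (con_refl hvF) hwF hvw⟩
    · refine Or.inr ⟨hwF, ?_⟩
      intro x f hx hf hxf
      exact hv x f ((con_adj hvw hvF hwF).trans hx) hf hxf

theorem strip_term (ht : Term G L) (fr : D.Frame L) (hL : L ⊆ D.F) {c c' : V}
    (hpi : ∀ d, IsEnd D d → D.rg c d → d = c ∨ d = c') {t : V} (ht' : t ∈ L)
    (h : Strip D c t) : t = c ∨ t = c' := by
  have htF : t ∈ D.F := hL ht'
  rcases h with ⟨_, h⟩ | ⟨h, _⟩
  · obtain ⟨x, hx, hx'⟩ := term_leaf ht htF ht'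
    exact hpi t ⟨htF, x, hx, hx'.not_two⟩ h
  · exact absurd htF h

/-- Every vertex which is not an end is in a strip, or its component of `G - D.F` has all its frame
neighbours at one node of degree three (`rung_end` and `hloc`). -/
theorem strip_cases [Finite V] (hc : Clean G) (ht : Term G L) (fr : D.Frame L) (hloc : Local D)
    (v : V) : (∃ c, IsEnd D c ∧ Strip D c v) ∨
      (v ∉ D.F ∧ ∃ u, D.Three u ∧ ∀ x f, Con G D.Fᶜ v x → f ∈ D.F → G.Adj x f → f ∈ D.st u) := by
  by_cases hvF : v ∈ D.F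
  · obtain ⟨c, hc1, hc2⟩ := rung_end hc ht fr hvF
    exact Or.inl ⟨c, hc1, Or.inl ⟨hvF, PF.rg_symm hc2⟩⟩
  · rcases hloc {x | Con G D.Fᶜ v x}
      (fun a ha b hb => ((comp_conn' (S := D.F) ha hb).mono le_rfl (subset_refl _)))
      (fun a ha => Con.right ha) with ⟨r, hr, hr'⟩ | ⟨u, hu, hu'⟩
    · obtain ⟨c, hc1, hc2⟩ := rung_end hc ht fr hr
      refine Or.inl ⟨c, hc1, Or.inr ⟨hvF, ?_⟩⟩
      intro x f hx hf hxf
      exact PF.rg_trans (PF.rg_symm hc2) (hr' x hx f hf hxf)
    · exact Or.inr ⟨hvF, u, hu, fun x f hx hf hxf => hu' x hx f hf hxf⟩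

end Pool.Agent.Work.MP_c4d05f_lc.Str
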