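import Pool.Agent.Work.MP_c4d05f_lc.N.Str.Core1
import Pool.Agent.Work.MP_c4d05f_lc.N.Str.Sep

/-!
# The core (module `CoreEq`, size M)

`⊇`: an end of degree three: `corner_core`; otherwise an end of the edge is a leaf
(`PF.deg_cases`), so the edge is in `L` (`leaf_term`).
`⊆`: `v ∈ L`: `v ∈ D.F` (`hL`), `term_leaf`. `v ∉ L` not an end; `strip_cases`.
- `Strip D c v`, `c' := π c` (`exists_pi`): `Z := {c, c'}`, `v ∉ Z`; `core` gives a terminal `t` joined to
  `v` in `G - Z`; `Con.mem_of_closed` with `strip_closed`: `Strip D c t`, so `t ∈ Z` by `strip_term`: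
  contradiction.
- otherwise `Z := D.st u` is a triangle with three elements, `v ∉ Z`; the walk from `v` to `t ∈ D.F`
  outside `Z` never leaves the component of `v` in `G - D.F` (`Con.mem_of_closed`): contradiction.
-/

set_option autoImplicit false

namespace Pool.Agent.Work.MP_c4d05f_lc.Str

open Pool.Agent.Work.MP_5f857a_co.L (Con)
open Pool.Agent.Work.MP_c4d05f_lc.N (Clean)
open Pool.Agent.Work.MP_c4d05f_lc.Hav (Anti Apart)

variable {V : Type} {G : SimpleGraph V} {L : Set V} {D : PF G}

theorem core_eq [Finite V] (hc : Clean G) (ht : Term G L) (fr : D.Frame L) (hL : L ⊆ D.F)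
    (hloc : Local D) (v : V) : v ∈ core G L ↔ IsEnd D v := by
  classical
  have hterm : v ∈ L → IsEnd D v := by
    intro hv
    obtain ⟨x, hx, hxl⟩ := term_leaf ht (hL hv) hv
    exact ⟨hL hv, x, hx, hxl.not_two⟩
  constructor
  · intro hv
    rcases hv with hv | hv
    · exact hterm hv
    by_contra hne
    rcases strip_cases hc ht fr hloc v with ⟨c, hce, hs⟩ | ⟨hvF, u, hu, hcomp⟩
    · obtain ⟨π, h1, h2⟩ := exists_pi hc ht fr
      have hpi : ∀ d, IsEnd D d → D.rg c d → d = c ∨ d = π c := fun d hd hr => h2 c d hce hd hr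
      have hvc : v ≠ c := by
        rintro rfl
        exact hne hce
      have hvc' : v ≠ π c := by
        intro h
        exact hne (h ▸ (h1 c hce).1)
      obtain ⟨t, htL, hcon⟩ := hv {c, π c} (Or.inl Finset.card_le_two) (by simp [hvc, hvc'])
      have hst : Strip D c t := by
        refine hcon.mem_of_closed (P := fun x => Strip D c x) hs (fun x y hx _ hxy hsx => ?_)
        have hx' : x ≠ c ∧ x ≠ π c := by simpa using hx
        exact strip_closed hc ht fr hloc hce hpi hsx hx'.1 hx'.2 hxy
      have htr := hcon.right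
      rcases strip_term ht fr hL hpi htL hst with h | h
      · exact htr (by simp [h])
      · exact htr (by simp [h])
    · obtain ⟨f, g, k, hfg, hfk, hgk, hst⟩ := hu
      have hf : f ∈ D.st u := by simp [hst]
      have hg : g ∈ D.st u := by simp [hst]
      have hk : k ∈ D.st u := by simp [hst]
      have hT : Tri G f g k := ⟨PF.adj_of_st hf hg hfg, PF.adj_of_st hf hk hfk,
        PF.adj_of_st hg hk hgk⟩
      have hvZ : v ∉ ({f, g, k} : Finset V) := by
        intro h
        have : v ∈ D.st u := by
          rw [hst]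
          simpa using h
        exact hvF this.1
      obtain ⟨t, htL, hcon⟩ := hv {f, g, k} (Or.inr ⟨f, g, k, hT, by simp⟩) hvZ
      have hct : Con G D.Fᶜ v t := by
        refine hcon.mem_of_closed (P := fun x => Con G D.Fᶜ v x) (con_refl hvF)
          (fun x y _ hy hxy hPx => ?_)
        by_cases hyF : y ∈ D.F
        · exfalso
          have h3 := hcomp x y hPx hyF hxy
          rw [hst] at h3
          exact hy (by simpa using h3)
        · exact hPx.trans (con_adj hxy hPx.right hyF)
      exact hct.right (hL htL)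
  · rintro ⟨hvF, x, hx, hx2⟩
    rcases PF.deg_cases hc (x := x) ⟨v, hvF, hx⟩ with h | h | h
    · exact Or.inl (leaf_term fr h ⟨hvF, hx⟩)
    · exact absurd h hx2
    · exact corner_core hc ht fr h ⟨hvF, hx⟩

end Pool.Agent.Work.MP_c4d05f_lc.Str
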