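import Pool.Agent.Work.MP_5f857a_co.L.Menger
import Pool.Agent.Work.MP_c4d05f_lc.N.Alg.Defs
import Pool.Agent.Work.MP_c4d05f_lc.N.Hav.Bas

/-!
# The strip theorem (block `Str`): definitions

`Con G J a b` (file `MP_5f857a_co/L/Defs.lean`): `a` and `b` are joined by a walk of `G` inside `J`
(in particular `a, b ∈ J`). `Anti G A B`: the sets `A` and `B` are disjoint and anticomplete.
`Clean G`: each vertex is in at most one triangle.

A pre-frame `D : PF G` is a graph `D.H` on the type `Option V` of nodes whose edges are (indexed by)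
the vertices `f ∈ D.F` of `G`; `D.e f` is the pair of ends of the edge `f`; two edges share an end
iff they are adjacent in `G`: the graph induced by `D.F` is the line graph of `D.H`.
-/

set_option autoImplicit false

namespace Pool.Agent.Work.MP_c4d05f_lc.Str

open Pool.Agent.Work.MP_5f857a_co.L (Con)
open Pool.Agent.Work.MP_c4d05f_lc.N (Clean)
open Pool.Agent.Work.MP_c4d05f_lc.Hav (Anti Apart)

variable {V : Type}

/-- Each terminal has at most one neighbour. -/
def Term (G : SimpleGraph V) (L : Set V) : Prop := ∀ t ∈ L, ∀ a b, G.Adj t a → G.Adj t b → a = b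

/-- `h` is joined to a terminal of `U` inside `U ∪ {h}`. -/
def Arm (G : SimpleGraph V) (L : Set V) (h : V) (U : Set V) : Prop :=
  h ∉ U ∧ ∃ t ∈ L, t ∈ U ∧ Con G (insert h U) h t

/-- There is no centre `h` with three anticomplete arms. -/
def NoStar (G : SimpleGraph V) (L : Set V) : Prop :=
  ∀ (h : V) (U₁ U₂ U₃ : Set V), Arm G L h U₁ → Arm G L h U₂ → Arm G L h U₃ →
    Anti G U₁ U₂ → Anti G U₁ U₃ → Anti G U₂ U₃ → False

/-- `a b c` is a triangle. -/
def Tri (G : SimpleGraph V) (a b c : V) : Prop := G.Adj a b ∧ G.Adj a c ∧ G.Adj b c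

/-- The core: terminals, and the vertices that are not separated from the terminals by two
vertices or by a triangle. -/
def core (G : SimpleGraph V) (L : Set V) : Set V :=
  {v | v ∈ L ∨ ∀ Z : Finset V, (Z.card ≤ 2 ∨ ∃ a b c, Tri G a b c ∧ (Z : Set V) = {a, b, c}) →
    v ∉ Z → ∃ t ∈ L, Con G (Z : Set V)ᶜ v t}

/-- The conclusion of the strip theorem. -/
structure Strips (G : SimpleGraph V) (L : Set V) (π : V → V) : Prop where
  mem : ∀ c ∈ core G L, π c ∈ core G L
  inv : ∀ c ∈ core G L, π (π c) = c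
  ne : ∀ c ∈ core G L, π c ≠ c
  tri : ∀ c ∈ core G L, c ∉ L → ∃ a b, Tri G c a b ∧ a ∈ core G L ∧ a ∉ L ∧ b ∈ core G L ∧ b ∉ L ∧
    π c ≠ a ∧ π c ≠ b
  comp : ∀ v ∉ core G L,
    (∃ a b c, Tri G a b c ∧ a ∈ core G L ∧ a ∉ L ∧ b ∈ core G L ∧ b ∉ L ∧ c ∈ core G L ∧ c ∉ L ∧
      ∀ u w, Con G (core G L)ᶜ v u → w ∈ core G L → G.Adj u w → w = a ∨ w = b ∨ w = c) ∨
    (∃ c ∈ core G L, ∀ u w, Con G (core G L)ᶜ v u → w ∈ core G L → G.Adj u w → w = c ∨ w = π c)
  adj : ∀ c ∈ core G L, ∀ d ∈ core G L, G.Adj c d → d = π c ∨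
    (c ∉ L ∧ d ∉ L ∧ ∃ b ∈ core G L, b ∉ L ∧ Tri G c d b)

/-- Pre-frames. -/
structure PF (G : SimpleGraph V) where
  /-- the edges of the graph `H` (vertices of `G`) -/
  F : Set V
  /-- the ends of an edge -/
  e : V → Sym2 (Option V)
  ndg : ∀ f ∈ F, ¬ (e f).IsDiag
  inj : ∀ f ∈ F, ∀ g ∈ F, e f = e g → f = g
  adj : ∀ f ∈ F, ∀ g ∈ F, f ≠ g → (G.Adj f g ↔ ∃ x, x ∈ e f ∧ x ∈ e g)
  nm : ∀ f ∈ F, ∀ v, some v ∈ e f → v ∈ F

namespace PF

variable {G : SimpleGraph V} (D : PF G)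

/-- The graph `H` on the nodes. -/
def H : SimpleGraph (Option V) where
  Adj x y := x ≠ y ∧ ∃ f ∈ D.F, x ∈ D.e f ∧ y ∈ D.e f
  symm := ⟨fun _ _ h => ⟨h.1.symm, h.2.choose, h.2.choose_spec.1, h.2.choose_spec.2.2,
    h.2.choose_spec.2.1⟩⟩
  loopless := ⟨fun _ h => h.1 rfl⟩

/-- The edges at the node `x`. -/
def st (x : Option V) : Set V := {f | f ∈ D.F ∧ x ∈ D.e f}

/-- Nodes of degree one. -/
def Leaf (x : Option V) : Prop := ∃ f, D.st x = {f}

/-- Nodes of degree two. -/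
def Two (x : Option V) : Prop := ∃ f g, f ≠ g ∧ D.st x = {f, g}

/-- Nodes of degree three. -/
def Three (x : Option V) : Prop := ∃ f g h, f ≠ g ∧ f ≠ h ∧ g ≠ h ∧ D.st x = {f, g, h}

/-- The edges with both ends in `J`. -/
def ins (J : Set (Option V)) : Set V := {f | f ∈ D.F ∧ ∀ x ∈ D.e f, x ∈ J}

/-- `f` and `g` are the two edges at a node of degree two. -/
def tw (f g : V) : Prop := f ≠ g ∧ ∃ x, D.st x = {f, g}

/-- `f` and `g` are in the same rung. -/
def rg (f g : V) : Prop := Relation.ReflTransGen D.tw f g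

/-- `f` and `g` are compatible: in the same rung or in a triangle of the frame. -/
def cmp (f g : V) : Prop := D.rg f g ∨ ∃ x, D.Three x ∧ f ∈ D.st x ∧ g ∈ D.st x

/-- `D` is a frame for the terminals `L`. -/
structure Frame (L : Set V) : Prop where
  leaf : ∀ x f, D.st x = {f} → f ∈ L
  con : ∀ x y, (D.st x).Nonempty → (D.st y).Nonempty → Con D.H Set.univ x y
  one : ∃ x, D.Leaf x
  two : ∀ f ∈ D.F, ∃ g ∈ D.F, g ≠ f
  fr4 : ∀ x, D.Three x → ∀ S : Finset (Option V), S.card ≤ 2 → x ∉ S →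
    ∃ d, D.Leaf d ∧ Con D.H (S : Set (Option V))ᶜ x d

/-- `m` is a node of degree two and `p` is adjacent to both edges at `m`. -/
def Spec (p : V) (m : Option V) : Prop := D.Two m ∧ ∀ f ∈ D.st m, G.Adj p f

/-- The neighbours of `p` in the frame that are not edges at a special node. -/
def Eit (p : V) : Set V := {f | f ∈ D.F ∧ G.Adj p f ∧ ∀ m ∈ D.e f, ¬ D.Spec p m}

/-- The source nodes of `p`: special nodes and ends of the other neighbours. -/
def src (p : V) : Set (Option V) := {x | D.Spec p x ∨ ∃ f ∈ D.Eit p, x ∈ D.e f}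

/-- A leg: a connected set of nodes which contains the source node `a`, no other element of `X`,
and a leaf. -/
structure Leg (X : Set (Option V)) (a : Option V) (J : Set (Option V)) : Prop where
  mem : a ∈ X
  only : ∀ x ∈ J, x ∈ X → x = a
  con : ∀ x ∈ J, Con D.H J a x
  lf : ∃ d ∈ J, D.Leaf d

/-- Three disjoint legs that start at the node `u` (`J f` is the leg through the edge `f`). -/
structure Fan (u : Option V) (J : V → Set (Option V)) : Prop where
  nu : ∀ f ∈ D.st u, u ∉ J f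
  nd : ∀ f ∈ D.st u, ∀ y ∈ D.e f, y ≠ u → y ∈ J f
  con : ∀ f ∈ D.st u, ∀ x ∈ J f, ∀ y ∈ J f, Con D.H (J f) x y
  lf : ∀ f ∈ D.st u, ∃ d ∈ J f, D.Leaf d
  dj : ∀ f ∈ D.st u, ∀ g ∈ D.st u, f ≠ g → Disjoint (J f) (J g)
  rg : ∀ f ∈ D.st u, ∀ g, D.rg f g → g ≠ f → g ∈ D.ins (J f)

/-- The number of nodes of degree three. -/
noncomputable def n3 : ℕ := Set.ncard {x | D.Three x}

end PF

end Pool.Agent.Work.MP_c4d05f_lc.Str
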