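import Pool.Agent.Work.MP_c4d05f_lc.N.Str.Fan0

/-!
# Fans, part 2 (module `Fan`, size S-M)

`fan0` gives everything but `rg`. Let `f ∈ D.st u` and `D.rg f g`; induction on the chain: `g = f`
or `g ∈ D.ins (J f)`. Step from `g` to `k` at the node `z`, `D.st z = {g, k}`:
- `g = f`: `z ≠ u` (`u` has degree three), so `z` is the other end of `f` and `z ∈ J f`; `z` is no
  leaf, `J f` contains a leaf and is connected, so `z` has a neighbour in `J f`; it is not `u`, so
  it is the other end of `k`: `k ∈ D.ins (J f)`.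
- `g ∈ D.ins (J f)`: `z ∈ J f`. If `z ∈ D.e f` then `f ∈ D.st z = {g, k}`, `f ≠ g` (`u ∉ J f`), so
  `k = f`. Otherwise `z` has two different neighbours in `J f`; they are the other ends of `g` and `k`,
  so `k ∈ D.ins (J f)`.
-/

set_option autoImplicit false

namespace Pool.Agent.Work.MP_c4d05f_lc.Str

open Pool.Agent.Work.MP_5f857a_co.L (Con)
open Pool.Agent.Work.MP_c4d05f_lc.N (Clean)
open Pool.Agent.Work.MP_c4d05f_lc.Hav (Anti Apart)

variable {V : Type} {G : SimpleGraph V} {L : Set V} {D : PF G}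

private theorem rg_ins {u : Option V} (hu : D.Three u) {J : V → Set (Option V)}
    (h1 : ∀ f ∈ D.st u, u ∉ J f) (h2 : ∀ f ∈ D.st u, ∀ y ∈ D.e f, y ≠ u → y ∈ J f)
    (h3 : ∀ f ∈ D.st u, ∀ x ∈ J f, ∀ y ∈ J f, Con D.H (J f) x y)
    (h4 : ∀ f ∈ D.st u, ∃ d ∈ J f, D.Leaf d)
    (h6 : ∀ f ∈ D.st u, ∀ x ∈ J f, ¬ D.Leaf x → x ∉ D.e f →
        ∃ y ∈ J f, ∃ z ∈ J f, y ≠ z ∧ D.H.Adj x y ∧ D.H.Adj x z) {f : V} (hf : f ∈ D.st u) {g : V}
    (h : D.rg f g) : g = f ∨ g ∈ D.ins (J f) := by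
  have hfJ : f ∉ D.ins (J f) := fun h5 => h1 f hf (h5.2 u hf.2)
  induction h with
  | refl => exact Or.inl rfl
  | @tail g k _ hgk ih =>
    obtain ⟨hne, z, hz⟩ := hgk
    have hz2 : D.Two z := ⟨g, k, hne, hz⟩
    have hnl : ¬ D.Leaf z := fun h5 => h5.not_two hz2
    have hgz : g ∈ D.st z := by rw [hz]; exact Set.mem_insert _ _
    rcases ih with rfl | hg
    · -- the chain is at `f`
      have hzu : z ≠ u := by
        rintro rfl
        exact hz2.not_three hu
      have hzJ : z ∈ J g := h2 g hf z hgz.2 hzu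
      obtain ⟨d, hd, hdl⟩ := h4 g hf
      have hzd : z ≠ d := by
        rintro rfl
        exact hnl hdl
      obtain ⟨f', hf', hzf'⟩ := PF.exists_ins (h3 g hf z hzJ d hd) hzd
      have h5 : f' ∈ D.st z := ⟨hf'.1, hzf'⟩
      rw [hz, Set.mem_insert_iff, Set.mem_singleton_iff] at h5
      rcases h5 with h5 | h5
      · rw [h5] at hf'
        exact absurd hf' hfJ
      · rw [h5] at hf'
        exact Or.inr hf'
    · have hzJ : z ∈ J f := hg.2 z hgz.2
      by_cases hzf : z ∈ D.e f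
      · have h5 : f ∈ D.st z := ⟨hf.1, hzf⟩
        rw [hz, Set.mem_insert_iff, Set.mem_singleton_iff] at h5
        rcases h5 with h5 | h5
        · rw [← h5] at hg
          exact absurd hg hfJ
        · exact Or.inl h5.symm
      · obtain ⟨y, hy, y', hy', hyy, ha, ha'⟩ := h6 f hf z hzJ hnl hzf
        obtain ⟨-, e1, he1, he1'⟩ := PF.h_adj.1 ha
        obtain ⟨-, e2, he2, he2'⟩ := PF.h_adj.1 ha'
        have h5 : e1 ∈ D.st z := ⟨he1, by rw [he1']; exact Sym2.mem_mk_left _ _⟩
        have h7 : e2 ∈ D.st z := ⟨he2, by rw [he2']; exact Sym2.mem_mk_left _ _⟩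
        rw [hz, Set.mem_insert_iff, Set.mem_singleton_iff] at h5 h7
        right
        rcases h5 with h5 | h5
        · rcases h7 with h7 | h7
          · exfalso
            rw [h5] at he1'
            rw [h7, he1', Sym2.congr_right] at he2'
            exact hyy he2'
          · rw [← h7]
            exact PF.mem_ins_of he2 he2' hzJ hy'
        · rw [← h5]
          exact PF.mem_ins_of he1 he1' hzJ hy

theorem exists_fan [Finite V] (hc : Clean G) (ht : Term G L) (fr : D.Frame L) {u : Option V}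
    (hu : D.Three u) : ∃ J, D.Fan u J := by
  obtain ⟨J, h1, h2, h3, h4, h5, h6⟩ := fan0 hc ht fr hu
  refine ⟨J, h1, h2, h3, h4, h5, fun f hf g hfg hne => ?_⟩
  exact (rg_ins hu h1 h2 h3 h4 h6 hf hfg).resolve_left hne

/-- Two different edges at a node of degree three are not in the same rung: `g ∈ D.ins (J f)` but
`u ∉ J f`. -/
theorem no_loop [Finite V] (hc : Clean G) (ht : Term G L) (fr : D.Frame L) {u : Option V}
    (hu : D.Three u) {f g : V} (hf : f ∈ D.st u) (hg : g ∈ D.st u) (hfg : f ≠ g) :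
    ¬ D.rg f g := by
  intro h
  obtain ⟨J, hJ⟩ := exists_fan hc ht fr hu
  exact hJ.nu f hf ((hJ.rg f hf g h hfg.symm).2 u hg.2)

end Pool.Agent.Work.MP_c4d05f_lc.Str
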