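import Pool.Agent.Work.MP_c4d05f_lc.N.Str.EndsG
import Pool.Agent.Work.MP_c4d05f_lc.N.Str.Fan

/-!
# The two ends of a rung (module `Ends`, size M-L)

`T` := the graph on `V` with adjacency `D.tw` (`PF.tw_symm`). `D.rg f g` iff `T.Reachable f g`.
Degrees: `tw f a` at the node `x`, `D.st x = {f, a}`: `x` is one of the two ends of `f` and determines
`a`; so at most two neighbours. For `f ∈ D.F`: `IsEnd D f` iff `D1 T f`: if one end of `f` is not of
degree two then only the other one gives a neighbour. If both ends `x ≠ y` are of degree two they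
give two neighbours, which are different by `PF.one_node`. An `IsEnd` element `f` has a neighbour in
`T`: one of its ends is of degree two: if an end is of degree three use `two_of_three`; if both
are leaves, `{x, y}` is closed in `H`, against `fr.two` and `fr.con` (as in `term_out`).
`rung_end`: every `f ∈ D.F` is in the rung of an `IsEnd` element: otherwise all elements of the rung
have both ends of degree two; the set of the ends of the elements of the rung is closed under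
adjacency in `H` (every edge at such a node is in the rung), so by `fr.con` it contains the leaf of
`fr.one`: contradiction.
`exists_pi`: for `IsEnd c` choose `π c ≠ c`, `IsEnd`, in the same rung (`ends_exists`); uniqueness from
`ends_unique`; for other `c` put `π c = c`.
-/

set_option autoImplicit false

namespace Pool.Agent.Work.MP_c4d05f_lc.Str

open Pool.Agent.Work.MP_5f857a_co.L (Con)
open Pool.Agent.Work.MP_c4d05f_lc.N (Clean)
open Pool.Agent.Work.MP_c4d05f_lc.Hav (Anti Apart)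

variable {V : Type} {G : SimpleGraph V} {L : Set V} {D : PF G}

/-- `f` is an edge with an end that is not of degree two. -/
def IsEnd (D : PF G) (f : V) : Prop := f ∈ D.F ∧ ∃ x ∈ D.e f, ¬ D.Two x

theorem rung_end [Finite V] (hc : Clean G) (ht : Term G L) (fr : D.Frame L) {f : V}
    (hf : f ∈ D.F) : ∃ c, IsEnd D c ∧ D.rg f c := by
  by_contra hcon
  push Not at hcon
  have htwo : ∀ g, D.rg f g → ∀ x ∈ D.e g, D.Two x := by
    intro g hg x hx
    by_contra hx2
    exact hcon g ⟨PF.rg_mem hf hg, x, hx, hx2⟩ hg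
  obtain ⟨x, y, hxy, he⟩ := PF.ends hf
  obtain ⟨d, hd⟩ := fr.one
  have hcon' := fr.con x d ⟨f, hf, by simp [he]⟩ hd.ne_empty
  have hN : ∃ g, D.rg f g ∧ d ∈ D.e g := by
    refine Pool.Agent.Work.MP_5f857a_co.L.Con.mem_of_closed
      (P := fun z => ∃ g, D.rg f g ∧ z ∈ D.e g) hcon' ⟨f, PF.rg_refl f, by simp [he]⟩ ?_
    rintro z w _ _ hzw ⟨g, hg, hzg⟩
    obtain ⟨_, k, hk, hzk, hwk⟩ := hzw
    exact ⟨k, PF.rg_trans hg (PF.rg_of (htwo g hg z hzg) ⟨PF.rg_mem hf hg, hzg⟩ ⟨hk, hzk⟩), hwk⟩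
  obtain ⟨g, hg, hdg⟩ := hN
  exact hd.not_two (htwo g hg d hdg)

/-- The graph of the rungs. -/
private def TG (D : PF G) : SimpleGraph V where
  Adj f g := D.tw f g
  symm := ⟨fun _ _ h => PF.tw_symm h⟩
  loopless := ⟨fun _ h => h.1 rfl⟩

private theorem tg_rg {f g : V} (h : (TG D).Reachable f g) : D.rg f g := by
  rw [SimpleGraph.reachable_iff_reflTransGen] at h
  exact h

private theorem rg_tg {f g : V} (h : D.rg f g) : (TG D).Reachable f g := by
  rw [SimpleGraph.reachable_iff_reflTransGen]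
  exact h

private theorem pair_inj {f a b : V} {x : Option V} (hfa : f ≠ a)
    (h1 : D.st x = {f, a}) (h2 : D.st x = {f, b}) : a = b := by
  have : a ∈ ({f, b} : Set V) := by rw [← h2, h1]; simp
  simp only [Set.mem_insert_iff, Set.mem_singleton_iff] at this
  rcases this with h | h
  · exact absurd h.symm hfa
  · exact h

private theorem node_mem {f a : V} {x : Option V} (h1 : D.st x = {f, a}) : f ∈ D.st x ∧ a ∈ D.st x := by
  constructor <;> simp [h1]

private theorem tg_deg (x a b c : V) (ha : (TG D).Adj x a) (hb : (TG D).Adj x b)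
    (hc : (TG D).Adj x c) : a = b ∨ a = c ∨ b = c := by
  obtain ⟨h1, u, hu⟩ := ha
  obtain ⟨h2, v, hv⟩ := hb
  obtain ⟨h3, w, hw⟩ := hc
  have hux := (node_mem hu).1
  have hvx := (node_mem hv).1
  have hwx := (node_mem hw).1
  by_cases huv : u = v
  · subst huv
    exact Or.inl (pair_inj h1 hu hv)
  by_cases huw : u = w
  · subst huw
    exact Or.inr (Or.inl (pair_inj h1 hu hw))
  have hvw : v = w := by
    have he := PF.e_eq hux.1 hux.2 hvx.2 huv
    have := hwx.2
    rw [he, Sym2.mem_iff] at this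
    rcases this with h | h
    · exact absurd h.symm huw
    · exact h.symm
  subst hvw
  exact Or.inr (Or.inr (pair_inj h2 hv hw))

private theorem d1_of {f : V} (h : IsEnd D f) : D1 (TG D) f := by
  obtain ⟨hf, x, hx, hx2⟩ := h
  intro a b ha hb
  obtain ⟨h1, u, hu⟩ := ha
  obtain ⟨h2, v, hv⟩ := hb
  have hux := (node_mem hu).1
  have hvx := (node_mem hv).1
  have hun : x ≠ u := by
    rintro rfl
    exact hx2 ⟨f, a, h1, hu⟩
  have hvn : x ≠ v := by
    rintro rfl
    exact hx2 ⟨f, b, h2, hv⟩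
  have he := PF.e_eq hf hx hux.2 hun
  have huv : u = v := by
    have := hvx.2
    rw [he, Sym2.mem_iff] at this
    rcases this with h | h
    · exact absurd h.symm hvn
    · exact h.symm
  subst huv
  exact pair_inj h1 hu hv

private theorem of_d1 {f : V} (hf : f ∈ D.F) (h : D1 (TG D) f) : IsEnd D f := by
  by_contra hcon
  have htwo : ∀ x ∈ D.e f, D.Two x := by
    intro x hx
    by_contra hx2
    exact hcon ⟨hf, x, hx, hx2⟩
  obtain ⟨x, y, hxy, he⟩ := PF.ends hf
  have hx : x ∈ D.e f := by simp [he]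
  have hy : y ∈ D.e f := by simp [he]
  obtain ⟨g, hgf, hg⟩ := (htwo x hx).pair ⟨hf, hx⟩
  obtain ⟨k, hkf, hk⟩ := (htwo y hy).pair ⟨hf, hy⟩
  have hgk : g = k := h g k ⟨hgf.symm, x, hg⟩ ⟨hkf.symm, y, hk⟩
  subst hgk
  have h1 := (node_mem hg).2
  have h2 := (node_mem hk).2
  exact hxy (PF.one_node hf h1.1 hgf.symm hx h1.2 hy h2.2)

private theorem end_nbr (hc : Clean G) (ht : Term G L) (fr : D.Frame L) {f : V}
    (hfe : IsEnd D f) : ∃ z, (TG D).Adj f z := by
  have hf := hfe.1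
  obtain ⟨x, y, hxy, he⟩ := PF.ends hf
  have hx : x ∈ D.e f := by simp [he]
  have hy : y ∈ D.e f := by simp [he]
  by_cases hx2 : D.Two x
  · obtain ⟨g, hgf, hg⟩ := hx2.pair ⟨hf, hx⟩
    exact ⟨g, hgf.symm, x, hg⟩
  by_cases hy2 : D.Two y
  · obtain ⟨g, hgf, hg⟩ := hy2.pair ⟨hf, hy⟩
    exact ⟨g, hgf.symm, y, hg⟩
  exfalso
  rcases PF.deg_cases hc (x := x) ⟨f, hf, hx⟩ with hx1 | hx1 | hx1
  · rcases PF.deg_cases hc (x := y) ⟨f, hf, hy⟩ with hy1 | hy1 | hy1
    · obtain ⟨g, hg, hgf⟩ := fr.two f hf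
      obtain ⟨z, w, hzw, hge⟩ := PF.ends hg
      have hz : z ∈ D.e g := by simp [hge]
      have hcon := fr.con x z ⟨f, hf, hx⟩ ⟨g, hg, hz⟩
      have hN : z = x ∨ z = y := by
        refine Pool.Agent.Work.MP_5f857a_co.L.Con.mem_of_closed
          (P := fun z => z = x ∨ z = y) hcon (Or.inl rfl) ?_
        rintro a b _ _ ⟨hab, k, hk, hak, hbk⟩ hP
        have hkf : k = f := by
          rcases hP with rfl | rfl
          · exact hx1.eq ⟨hk, hak⟩ ⟨hf, hx⟩
          · exact hy1.eq ⟨hk, hak⟩ ⟨hf, hy⟩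
        subst hkf
        rw [he, Sym2.mem_iff] at hbk
        exact hbk
      rcases hN with rfl | rfl
      · exact hgf (hx1.eq ⟨hg, hz⟩ ⟨hf, hx⟩)
      · exact hgf (hy1.eq ⟨hg, hz⟩ ⟨hf, hy⟩)
    · exact hy2 hy1
    · exact hx2 (two_of_three hc ht fr hy1 ⟨hf, hy⟩ hx hxy)
  · exact hx2 hx1
  · exact hy2 (two_of_three hc ht fr hx1 ⟨hf, hx⟩ hy hxy.symm)

theorem exists_pi [Finite V] (hc : Clean G) (ht : Term G L) (fr : D.Frame L) :
    ∃ π : V → V, (∀ c, IsEnd D c → IsEnd D (π c) ∧ π (π c) = c ∧ π c ≠ c ∧ D.rg c (π c)) ∧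
      ∀ c d, IsEnd D c → IsEnd D d → D.rg c d → d = c ∨ d = π c := by
  have hex : ∀ c, IsEnd D c → ∃ y, y ≠ c ∧ IsEnd D y ∧ D.rg c y := by
    intro c hcc
    obtain ⟨z, hz⟩ := end_nbr hc ht fr hcc
    obtain ⟨y, hy, hr, h1⟩ := ends_exists (TG D) tg_deg (d1_of hcc) hz
    exact ⟨y, hy, of_d1 (PF.rg_mem hcc.1 (tg_rg hr)) h1, tg_rg hr⟩
  have huq : ∀ c y d, IsEnd D c → IsEnd D y → y ≠ c → D.rg c y → IsEnd D d → D.rg c d →
      d = c ∨ d = y := by
    intro c y d h1 h2 h3 h4 h5 h6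
    exact ends_unique (TG D) tg_deg (d1_of h1) (d1_of h2) (d1_of h5) (Ne.symm h3) (rg_tg h4)
      (rg_tg h6)
  classical
  choose! π hπ using hex
  refine ⟨π, fun c hcc => ?_, fun c d h1 h2 h3 => ?_⟩
  · obtain ⟨h1, h2, h3⟩ := hπ c hcc
    obtain ⟨h1', h2', h3'⟩ := hπ (π c) h2
    refine ⟨h2, ?_, h1, h3⟩
    rcases huq c (π c) (π (π c)) hcc h2 h1 h3 h2' (PF.rg_trans h3 h3') with h | h
    · exact h
    · exact absurd h h1'
  · exact huq c (π c) d h1 (hπ c h1).2.1 (hπ c h1).1 (hπ c h1).2.2 h2 h3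

end Pool.Agent.Work.MP_c4d05f_lc.Str
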