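import Pool.Agent.Work.MP_c4d05f_lc.N.Str.Bas

/-!
# Graphs with degrees at most two (module `EndsG`, size M, only Mathlib)

`hdeg`: each vertex has at most two neighbours. `D1 T x`: `x` has at most one neighbour.
`ends_exists`: take a longest path that starts at `x` (finite graph); its last vertex `y ≠ x` has
all its neighbours on the path (maximality); an inner vertex `z` of the path has its two neighbours
(predecessor and successor) on the path and no other, and the first vertex `x` has only its
successor: so `y` has only its predecessor as a neighbour.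
`ends_unique`: a path from `x` to `y`; its support is closed under adjacency (inner vertices have two
neighbours on it, the two end vertices have one), so `z` is on it; if `z` is an inner vertex it has
two different neighbours, against `D1`.
-/

set_option autoImplicit false

namespace Pool.Agent.Work.MP_c4d05f_lc.Str

open Pool.Agent.Work.MP_5f857a_co.L (Con)
open Pool.Agent.Work.MP_c4d05f_lc.N (Clean)
open Pool.Agent.Work.MP_c4d05f_lc.Hav (Anti Apart)

variable {V : Type} {G : SimpleGraph V} {L : Set V} {D : PF G}

/-- `x` has at most one neighbour. -/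
def D1 {W : Type} (T : SimpleGraph W) (x : W) : Prop := ∀ a b, T.Adj x a → T.Adj x b → a = b

private theorem reach_fn {W : Type} (T : SimpleGraph W) (f : ℕ → W) (n : ℕ)
    (h : ∀ i < n, T.Adj (f i) (f (i + 1))) : ∀ i ≤ n, T.Reachable (f 0) (f i) := by
  intro i
  induction i with
  | zero => intro _; exact SimpleGraph.Reachable.refl _
  | succ i ih => intro hi; exact (ih (by omega)).trans (h i (by omega)).reachable

/-- neighbours of a vertex on a path: inner vertices and the first vertex -/
private theorem nb_fn {W : Type} (T : SimpleGraph W)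
    (hdeg : ∀ x a b c, T.Adj x a → T.Adj x b → T.Adj x c → a = b ∨ a = c ∨ b = c) (f : ℕ → W)
    (n : ℕ) (h : ∀ i < n, T.Adj (f i) (f (i + 1)))
    (hinj : ∀ i ≤ n, ∀ j ≤ n, f i = f j → i = j) (hx : D1 T (f 0)) (i : ℕ) (hi : i < n) (a : W)
    (ha : T.Adj (f i) a) : a = f (i + 1) ∨ (0 < i ∧ a = f (i - 1)) := by
  rcases Nat.eq_zero_or_pos i with h0 | h0
  · subst h0
    left
    exact hx _ _ ha (h 0 hi)
  · obtain ⟨k, rfl⟩ : ∃ k, i = k + 1 := ⟨i - 1, by omega⟩
    have h1 : T.Adj (f (k + 1)) (f k) := (h k (by omega)).symm
    have h2 : T.Adj (f (k + 1)) (f (k + 1 + 1)) := h (k + 1) hi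
    rcases hdeg _ _ _ _ ha h1 h2 with h3 | h3 | h3
    · right
      exact ⟨h0, by simpa using h3⟩
    · left; exact h3
    · exact absurd (hinj _ (by omega) _ (by omega) h3) (by omega)

theorem ends_exists {W : Type} [Finite W] (T : SimpleGraph W)
    (hdeg : ∀ x a b c, T.Adj x a → T.Adj x b → T.Adj x c → a = b ∨ a = c ∨ b = c) {x z : W}
    (hx : D1 T x) (hxz : T.Adj x z) : ∃ y, y ≠ x ∧ T.Reachable x y ∧ D1 T y := by
  classical
  have := Fintype.ofFinite W
  let P : ℕ → Prop := fun n => ∃ f : ℕ → W, f 0 = x ∧ (∀ i < n, T.Adj (f i) (f (i + 1))) ∧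
    ∀ i ≤ n, ∀ j ≤ n, f i = f j → i = j
  have hb : ∀ n, P n → n ≤ Fintype.card W := by
    rintro n ⟨f, _, _, hinj⟩
    have h1 : Function.Injective (fun i : Fin (n + 1) => f i) := by
      intro i j hij
      exact Fin.ext (hinj i (by omega) j (by omega) hij)
    have := Fintype.card_le_of_injective _ h1
    rw [Fintype.card_fin] at this
    omega
  have h1 : P 1 := by
    refine ⟨fun i => if i = 0 then x else z, by simp, ?_, ?_⟩
    · intro i hi
      have : i = 0 := by omega
      subst this
      simpa using hxz
    · intro i hi j hj hij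
      have h1 : i = 0 ∨ i = 1 := by omega
      have h2 : j = 0 ∨ j = 1 := by omega
      rcases h1 with rfl | rfl <;> rcases h2 with rfl | rfl
      · rfl
      · simp only [if_true, one_ne_zero, if_false] at hij
        exact absurd hij hxz.ne
      · simp only [if_true, one_ne_zero, if_false] at hij
        exact absurd hij.symm hxz.ne
      · rfl
  set n := Nat.findGreatest P (Fintype.card W) with hn
  have hPn : P n := Nat.findGreatest_spec (hb 1 h1) h1
  have hn1 : 1 ≤ n := Nat.le_findGreatest (hb 1 h1) h1
  have hmax : ¬ P (n + 1) := by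
    intro h
    have := Nat.le_findGreatest (hb _ h) h
    omega
  obtain ⟨f, hf0, hadj, hinj⟩ := hPn
  have key : ∀ a, T.Adj (f n) a → a = f (n - 1) := by
    intro a ha
    by_cases hmem : ∃ i ≤ n, f i = a
    · obtain ⟨i, hi, rfl⟩ := hmem
      have hin : i ≠ n := by
        rintro rfl
        exact ha.ne rfl
      rcases nb_fn T hdeg f n hadj hinj (by rw [hf0]; exact hx) i (by omega) _ ha.symm with h | h
      · have := hinj _ (le_refl n) _ (by omega) h
        rw [this]
        simp
      · have := hinj _ (le_refl n) _ (by omega) h.2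
        omega
    · exfalso
      apply hmax
      refine ⟨fun i => if i ≤ n then f i else a, by simp [hf0], ?_, ?_⟩
      · intro i hi
        rcases Nat.lt_or_ge i n with h2 | h2
        · simp only [show i ≤ n by omega, show i + 1 ≤ n by omega, if_true]
          exact hadj i h2
        · have h4 : i = n := by omega
          rw [h4]
          simp only [le_refl, if_true, show ¬ (n + 1 ≤ n) by omega, if_false]
          exact ha
      · intro i hi j hj hij
        push Not at hmem
        by_cases h2 : i ≤ n <;> by_cases h3 : j ≤ n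
        · simp only [h2, h3, if_true] at hij
          exact hinj i h2 j h3 hij
        · simp only [h2, h3, if_true, if_false] at hij
          exact absurd hij (hmem i h2)
        · simp only [h2, h3, if_true, if_false] at hij
          exact absurd hij.symm (hmem j h3)
        · omega
  refine ⟨f n, ?_, ?_, ?_⟩
  · intro h
    have := hinj n (le_refl n) 0 (by omega) (h.trans hf0.symm)
    omega
  · rw [← hf0]
    exact reach_fn T f n hadj n (le_refl n)
  · intro a b ha hb
    rw [key a ha, key b hb]

theorem ends_unique {W : Type} [Finite W] (T : SimpleGraph W)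
    (hdeg : ∀ x a b c, T.Adj x a → T.Adj x b → T.Adj x c → a = b ∨ a = c ∨ b = c) {x y z : W}
    (hx : D1 T x) (hy : D1 T y) (hz : D1 T z) (hxy : x ≠ y) (h1 : T.Reachable x y)
    (h2 : T.Reachable x z) : z = x ∨ z = y := by
  classical
  obtain ⟨p, hp⟩ := h1.exists_isPath
  set n := p.length with hn
  set f : ℕ → W := fun i => p.getVert i with hf
  have hf0 : f 0 = x := p.getVert_zero
  have hfn : f n = y := p.getVert_length
  have hadj : ∀ i < n, T.Adj (f i) (f (i + 1)) := fun i hi => p.adj_getVert_succ hi
  have hinj : ∀ i ≤ n, ∀ j ≤ n, f i = f j → i = j := fun i hi j hj h =>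
    hp.getVert_injOn (by simpa using hi) (by simpa using hj) h
  have hn0 : 0 < n := by
    rcases Nat.eq_zero_or_pos n with h | h
    · exfalso
      rw [h] at hfn
      exact hxy (hf0.symm.trans hfn)
    · exact h
  have hclosed : ∀ u v, T.Adj u v → (∃ i ≤ n, f i = u) → ∃ i ≤ n, f i = v := by
    rintro u v huv ⟨i, hi, rfl⟩
    rcases Nat.lt_or_ge i n with h3 | h3
    · rcases nb_fn T hdeg f n hadj hinj (by rw [hf0]; exact hx) i h3 _ huv with h | h
      · exact ⟨i + 1, by omega, h.symm⟩
      · exact ⟨i - 1, by omega, h.2.symm⟩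
    · have : i = n := by omega
      subst this
      have h4 : T.Adj (f n) (f (n - 1)) := by
        have := hadj (n - 1) (by omega)
        rw [Nat.sub_add_cancel (by omega)] at this
        exact this.symm
      refine ⟨n - 1, by omega, ?_⟩
      rw [hfn] at huv h4
      exact hy _ _ h4 huv
  have hmem : ∃ i ≤ n, f i = z := by
    obtain ⟨q⟩ := h2
    have : ∀ (u v : W) (q : T.Walk u v), (∃ i ≤ n, f i = u) → ∃ i ≤ n, f i = v := by
      intro u v q
      induction q with
      | nil => exact id
      | cons h _ ih => exact fun hu => ih (hclosed _ _ h hu)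
    exact this x z q ⟨0, by omega, hf0⟩
  obtain ⟨i, hi, rfl⟩ := hmem
  rcases Nat.eq_zero_or_pos i with h3 | h3
  · left; rw [h3]; exact hf0
  · rcases Nat.lt_or_ge i n with h4 | h4
    · exfalso
      obtain ⟨k, rfl⟩ : ∃ k, i = k + 1 := ⟨i - 1, by omega⟩
      have h5 : T.Adj (f (k + 1)) (f k) := (hadj k (by omega)).symm
      have h6 : T.Adj (f (k + 1)) (f (k + 1 + 1)) := hadj (k + 1) h4
      have := hinj _ (by omega) _ (by omega) (hz _ _ h5 h6)
      omega
    · right
      have : i = n := by omega
      rw [this]
      exact hfn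

end Pool.Agent.Work.MP_c4d05f_lc.Str
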