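import Pool.Agent.Work.MP_c4d05f_lc.N.Str.Bas

/-!
# Adding one edge to a pre-frame (module `Ext`, size M)

`e' := Function.update D.e p s(x, some p)` (resp. `s(x, y)`), `F' := insert p D.F`. The node
`some p` is new: `some p ∈ D.e f` would give `p ∈ D.F` by `D.nm`; also `x ≠ some p` by `hx`.
-/

set_option autoImplicit false

namespace Pool.Agent.Work.MP_c4d05f_lc.Str

open Pool.Agent.Work.MP_5f857a_co.L (Con)
open Pool.Agent.Work.MP_c4d05f_lc.N (Clean)
open Pool.Agent.Work.MP_c4d05f_lc.Hav (Anti Apart)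

variable {V : Type} {G : SimpleGraph V} {L : Set V} {D : PF G}

private theorem ext_gen (D : PF G) {p : V} (hp : p ∉ D.F) (z : Sym2 (Option V))
    (hz : ¬ z.IsDiag) (hi : ∀ g ∈ D.F, z ≠ D.e g)
    (ha : ∀ g ∈ D.F, G.Adj p g ↔ ∃ y, y ∈ z ∧ y ∈ D.e g)
    (hm : ∀ v, some v ∈ z → v ∈ insert p D.F) :
    ∃ D' : PF G, D'.F = insert p D.F ∧ (∀ f ∈ D.F, D'.e f = D.e f) ∧ D'.e p = z := by
  classical
  have hne : ∀ f ∈ D.F, f ≠ p := fun f hf h => hp (h ▸ hf)
  have hep : (Function.update D.e p z) p = z := Function.update_self ..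
  have hef : ∀ f ∈ D.F, (Function.update D.e p z) f = D.e f := fun f hf =>
    Function.update_of_ne (hne f hf) ..
  refine ⟨⟨insert p D.F, Function.update D.e p z, ?_, ?_, ?_, ?_⟩, rfl, hef, hep⟩
  · rintro f (rfl | hf)
    · rw [hep]
      exact hz
    · rw [hef f hf]
      exact D.ndg f hf
  · rintro f (rfl | hf) g (rfl | hg) h
    · rfl
    · rw [hep, hef g hg] at h
      exact absurd h (hi g hg)
    · rw [hep, hef f hf] at h
      exact absurd h.symm (hi f hf)
    · rw [hef f hf, hef g hg] at h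
      exact D.inj f hf g hg h
  · rintro f (rfl | hf) g (rfl | hg) h
    · exact absurd rfl h
    · rw [hep, hef g hg]
      exact ha g hg
    · rw [hep, hef f hf, G.adj_comm, ha f hf]
      constructor
      · rintro ⟨y, h1, h2⟩
        exact ⟨y, h2, h1⟩
      · rintro ⟨y, h1, h2⟩
        exact ⟨y, h2, h1⟩
    · rw [hef f hf, hef g hg]
      exact D.adj f hf g hg h
  · rintro f (rfl | hf) v hv
    · rw [hep] at hv
      exact hm v hv
    · rw [hef f hf] at hv
      exact Or.inr (D.nm f hf v hv)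

private theorem not_some {D : PF G} {p : V} (hp : p ∉ D.F) {f : V} (hf : f ∈ D.F) :
    some p ∉ D.e f := fun h => hp (D.nm f hf p h)

private theorem st_nm {D : PF G} {v : V} (h : (D.st (some v)).Nonempty) : v ∈ D.F := by
  obtain ⟨f, hf⟩ := h
  exact D.nm f hf.1 v hf.2

/-- Add the pendant edge `p` at the node `x`; the new node is `some p`. -/
theorem ext (D : PF G) {x : Option V} (hx : (D.st x).Nonempty) {p : V} (hp : p ∉ D.F)
    (hN : ∀ f ∈ D.F, G.Adj p f ↔ x ∈ D.e f) :
    ∃ D' : PF G, D'.F = insert p D.F ∧ (∀ f ∈ D.F, D'.e f = D.e f) ∧ D'.e p = s(x, some p) := by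
  refine ext_gen D hp _ ?_ ?_ ?_ ?_
  · intro h
    have h1 : x = some p := by simpa using h
    subst h1
    exact hp (st_nm hx)
  · intro g hg h
    exact not_some hp hg (h ▸ Sym2.mem_mk_right _ _)
  · intro g hg
    rw [hN g hg]
    constructor
    · intro h
      exact ⟨x, Sym2.mem_mk_left _ _, h⟩
    · rintro ⟨y, h1, h2⟩
      rw [Sym2.mem_iff] at h1
      rcases h1 with rfl | rfl
      · exact h2
      · exact absurd h2 (not_some hp hg)
  · intro v hv
    rw [Sym2.mem_iff] at hv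
    rcases hv with rfl | h
    · exact Or.inr (st_nm hx)
    · exact Or.inl (by simpa using h)

/-- Add the edge `p` between the nodes `x` and `y`. -/
theorem close (D : PF G) {x y : Option V} (hx : (D.st x).Nonempty) (hy : (D.st y).Nonempty)
    (hxy : x ≠ y) (hna : ¬ D.H.Adj x y) {p : V} (hp : p ∉ D.F)
    (hN : ∀ f ∈ D.F, G.Adj p f ↔ x ∈ D.e f ∨ y ∈ D.e f) :
    ∃ D' : PF G, D'.F = insert p D.F ∧ (∀ f ∈ D.F, D'.e f = D.e f) ∧ D'.e p = s(x, y) := by
  refine ext_gen D hp _ ?_ ?_ ?_ ?_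
  · intro h
    exact hxy (by simpa using h)
  · intro g hg h
    exact hna (PF.h_adj_of hg (h ▸ Sym2.mem_mk_left _ _) (h ▸ Sym2.mem_mk_right _ _) hxy)
  · intro g hg
    rw [hN g hg]
    constructor
    · rintro (h | h)
      · exact ⟨x, Sym2.mem_mk_left _ _, h⟩
      · exact ⟨y, Sym2.mem_mk_right _ _, h⟩
    · rintro ⟨z, h1, h2⟩
      rw [Sym2.mem_iff] at h1
      rcases h1 with rfl | rfl
      · exact Or.inl h2
      · exact Or.inr h2
  · intro v hv
    rw [Sym2.mem_iff] at hv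
    rcases hv with rfl | rfl
    · exact Or.inr (st_nm hx)
    · exact Or.inr (st_nm hy)

end Pool.Agent.Work.MP_c4d05f_lc.Str
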