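import Pool.Agent.Work.MP_c4d05f_lc.N.Str.K

/-!
# Fans, part 1 (module `Fan0`, size M-L)

Let `H'` be `D.H` without the edges at `u`. Menger's theorem
(`Pool.Agent.Work.MP_5f857a_co.L.menger`, `k = 3`) for `H'`, `A` = the set of the three other ends
of the edges at `u`, `B` = the leaves. Let `S.card ≤ 2` and `S' = S.erase u`. `fr.fr4 u S'` gives a walk
of `D.H` from `u` to a leaf `d` outside `S'`. Induction on this walk: some `a ∈ A` is joined to `d`
in `H'` outside `S'` and without `u` (take the last visit of `u`). So `Con H' Sᶜ a d`.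
The three disjoint connections start at three different elements of `A`, so at all of them;
replace them by paths (`Walk.bypass`, `Walk.toPath`): `J f` := the support of the path starting at
the other end `y` of `f`. The walks of `H'` which start at `y ≠ u` do not contain `u`. A node of the
path which is neither the start nor the last node (a leaf) has two different neighbours on it.
-/

set_option autoImplicit false

namespace Pool.Agent.Work.MP_c4d05f_lc.Str

open Pool.Agent.Work.MP_5f857a_co.L (Con)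
open Pool.Agent.Work.MP_c4d05f_lc.N (Clean)
open Pool.Agent.Work.MP_c4d05f_lc.Hav (Anti Apart)

variable {V : Type} {G : SimpleGraph V} {L : Set V} {D : PF G}

private theorem inner_two {W : Type} {K : SimpleGraph W} {a b : W} (p : K.Walk a b) (hp : p.IsPath)
    {x : W} (hx : x ∈ p.support) (hxa : x ≠ a) (hxb : x ≠ b) :
    ∃ y ∈ p.support, ∃ z ∈ p.support, y ≠ z ∧ K.Adj x y ∧ K.Adj x z := by
  induction p with
  | nil =>
    exact absurd (by simpa using hx) hxa
  | @cons u v w hadj q ih =>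
    rw [SimpleGraph.Walk.cons_isPath_iff] at hp
    rw [SimpleGraph.Walk.support_cons, List.mem_cons] at hx
    have hxq : x ∈ q.support := hx.resolve_left hxa
    by_cases hxv : x = v
    · subst hxv
      cases q with
      | nil => exact absurd rfl hxb
      | @cons _ v' _ hadj' q' =>
        refine ⟨u, by simp, v', by simp, ?_, hadj.symm, hadj'⟩
        intro he
        exact hp.2 (by rw [he]; simp)
    · obtain ⟨y, hy, z, hz, h⟩ := ih hp.1 hxq hxv hxb
      exact ⟨y, by simp [hy], z, by simp [hz], h⟩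

private theorem path_set {W : Type} {K : SimpleGraph W} {J : Set W} {y t : W} (h : Con K J y t) :
    ∃ J' ⊆ J, y ∈ J' ∧ t ∈ J' ∧ (∀ x ∈ J', Con K J' y x) ∧
      ∀ x ∈ J', x ≠ y → x ≠ t → ∃ a ∈ J', ∃ b ∈ J', a ≠ b ∧ K.Adj x a ∧ K.Adj x b := by
  classical
  obtain ⟨p, hp⟩ := h
  refine ⟨{v | v ∈ p.bypass.support}, fun v hv => hp v (p.support_bypass_subset_support hv),
    p.bypass.start_mem_support, p.bypass.end_mem_support, ?_, ?_⟩
  · intro x hx
    exact ⟨p.bypass.takeUntil x hx, fun w hw => p.bypass.support_takeUntil_subset_support hx hw⟩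
  · intro x hx h1 h2
    exact inner_two p.bypass p.bypass_isPath hx h1 h2

private theorem last_visit {W : Type} {K : SimpleGraph W} {S : Set W} {u x d : W}
    (h : Con K S x d) (hd : d ≠ u) :
    Con K (S \ {u}) x d ∨ ∃ a, K.Adj u a ∧ Con K (S \ {u}) a d := by
  obtain ⟨p, hp⟩ := h
  induction p with
  | nil =>
    exact Or.inl (con_refl ⟨hp _ (by simp), hd⟩)
  | @cons v w c hadj q ih =>
    rcases ih hd (fun z hz => hp z (by simp [hz])) with h1 | h1
    · by_cases hvu : v = u
      · subst hvu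
        exact Or.inr ⟨w, hadj, h1⟩
      · have hv : v ∈ S \ {u} := ⟨hp v (by simp), hvu⟩
        exact Or.inl ((con_adj hadj hv h1.left).trans h1)
    · exact Or.inr h1

/-- the graph without the edges at `u` -/
private def rem {W : Type} (K : SimpleGraph W) (u : W) : SimpleGraph W where
  Adj x y := K.Adj x y ∧ x ≠ u ∧ y ≠ u
  symm := ⟨fun _ _ h => ⟨h.1.symm, h.2.2, h.2.1⟩⟩
  loopless := ⟨fun _ h => h.1.ne rfl⟩

private theorem rem_le {W : Type} {K : SimpleGraph W} {u : W} : rem K u ≤ K := fun _ _ h => h.1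

private theorem con_rem {W : Type} {K : SimpleGraph W} {S : Set W} {u a b : W} (h : Con K S a b)
    (hu : u ∉ S) : Con (rem K u) S a b := by
  obtain ⟨p, hp⟩ := h
  induction p with
  | nil => exact con_refl (hp _ (by simp))
  | @cons v w c hadj q ih =>
    have hv : v ∈ S := hp _ (by simp)
    have hw : w ∈ S := hp _ (by simp)
    have h1 : (rem K u).Adj v w := by
      refine ⟨hadj, ?_, ?_⟩
      · rintro rfl
        exact hu hv
      · rintro rfl
        exact hu hw
    exact (con_adj h1 hv hw).trans (ih fun z hz => hp z (by simp [hz]))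

private theorem rem_ne {W : Type} {K : SimpleGraph W} {S : Set W} {u a b : W}
    (h : Con (rem K u) S a b) (ha : a ≠ u) : b ≠ u :=
  h.mem_of_closed (P := fun v => v ≠ u) ha fun _ _ _ _ hadj _ => hadj.2.2

theorem fan0 [Finite V] (hc : Clean G) (ht : Term G L) (fr : D.Frame L) {u : Option V}
    (hu : D.Three u) : ∃ J : V → Set (Option V),
      (∀ f ∈ D.st u, u ∉ J f) ∧
      (∀ f ∈ D.st u, ∀ y ∈ D.e f, y ≠ u → y ∈ J f) ∧
      (∀ f ∈ D.st u, ∀ x ∈ J f, ∀ y ∈ J f, Con D.H (J f) x y) ∧
      (∀ f ∈ D.st u, ∃ d ∈ J f, D.Leaf d) ∧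
      (∀ f ∈ D.st u, ∀ g ∈ D.st u, f ≠ g → Disjoint (J f) (J g)) ∧
      (∀ f ∈ D.st u, ∀ x ∈ J f, ¬ D.Leaf x → x ∉ D.e f →
        ∃ y ∈ J f, ∃ z ∈ J f, y ≠ z ∧ D.H.Adj x y ∧ D.H.Adj x z) := by
  classical
  have : Fintype (Option V) := Fintype.ofFinite _
  -- the other ends
  have hoe : ∀ f, ∃ y, f ∈ D.st u → y ≠ u ∧ D.e f = s(u, y) := by
    intro f
    by_cases hf : f ∈ D.st u
    · obtain ⟨y, h1, h2⟩ := PF.other hf.1 hf.2
      exact ⟨y, fun _ => ⟨h1, h2⟩⟩
    · exact ⟨none, fun h => absurd h hf⟩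
  choose oe hoe using hoe
  have hoinj : ∀ f ∈ D.st u, ∀ g ∈ D.st u, oe f = oe g → f = g := by
    intro f hf g hg he
    apply D.inj f hf.1 g hg.1
    rw [(hoe f hf).2, (hoe g hg).2, he]
  obtain ⟨f₁, f₂, f₃, h12, h13, h23, hst⟩ := hu
  have hu' : D.Three u := ⟨f₁, f₂, f₃, h12, h13, h23, hst⟩
  let A : Finset (Option V) := {oe f₁, oe f₂, oe f₃}
  let B : Finset (Option V) := Finset.univ.filter fun x => D.Leaf x
  have hA : ∀ f ∈ D.st u, oe f ∈ A := by
    intro f hf
    rw [hst] at hf
    simp only [Set.mem_insert_iff, Set.mem_singleton_iff] at hf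
    rcases hf with rfl | rfl | rfl <;> simp [A]
  have hAcard : A.card ≤ 3 := Finset.card_le_three
  have hm := Pool.Agent.Work.MP_5f857a_co.L.menger (rem D.H u) A B 3 (by
    intro X hX
    obtain ⟨d, hd, hcon⟩ := fr.fr4 u hu' (X.erase u)
      (le_trans (Finset.card_erase_le) (by omega)) (Finset.notMem_erase u X)
    have hdu : d ≠ u := by
      rintro rfl
      exact hd.not_three hu'
    rcases last_visit (u := u) hcon hdu with h1 | ⟨a, ha, h1⟩
    · exact absurd h1.left (fun h => h.2 rfl)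
    · obtain ⟨hua, f, hf, huf, haf⟩ := ha
      have hfst : f ∈ D.st u := ⟨hf, huf⟩
      have hao : a = oe f := by
        have h2 := (hoe f hfst).2
        rw [h2, Sym2.mem_iff] at haf
        rcases haf with h3 | h3
        · exact absurd h3.symm hua
        · exact h3
      refine ⟨a, hao ▸ hA f hfst, d, by simp [B, hd], ?_⟩
      refine con_mono (con_rem h1 (fun h => h.2 rfl)) ?_
      rintro v ⟨hv, hvu⟩ hvX
      exact hv (by
        rw [Finset.mem_coe, Finset.mem_erase]
        exact ⟨hvu, by exact_mod_cast hvX⟩))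
  obtain ⟨T, hTB, hTc, a, J, h1, h2⟩ := hm
  have hainj : Set.InjOn a (T : Set (Option V)) := by
    intro t ht t' ht' he
    by_contra hne
    exact Set.disjoint_left.1 (h2 t ht t' ht' hne) (h1 t ht).2.left
      (he ▸ (h1 t' ht').2.left)
  have himg : T.image a = A := by
    refine Finset.eq_of_subset_of_card_le ?_ ?_
    · intro v hv
      obtain ⟨t, ht, rfl⟩ := Finset.mem_image.1 hv
      exact (h1 t ht).1
    · rw [Finset.card_image_of_injOn hainj, hTc]
      exact hAcard
  have key : ∀ f, ∃ t, ∃ J' : Set (Option V), f ∈ D.st u → t ∈ T ∧ a t = oe f ∧ J' ⊆ J t ∧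
      oe f ∈ J' ∧ t ∈ J' ∧ (∀ x ∈ J', Con (rem D.H u) J' (oe f) x) ∧
      ∀ x ∈ J', x ≠ oe f → x ≠ t → ∃ a ∈ J', ∃ b ∈ J', a ≠ b ∧ (rem D.H u).Adj x a ∧
        (rem D.H u).Adj x b := by
    intro f
    by_cases hf : f ∈ D.st u
    · have hmem : oe f ∈ T.image a := by
        rw [himg]
        exact hA f hf
      obtain ⟨t, ht, hat⟩ := Finset.mem_image.1 hmem
      have hcon := (h1 t ht).2
      rw [hat] at hcon
      obtain ⟨J', hsub, k1, k2, k3, k4⟩ := path_set hcon
      exact ⟨t, J', fun _ => ⟨ht, hat, hsub, k1, k2, k3, k4⟩⟩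
    · exact ⟨none, ∅, fun h => absurd h hf⟩
  choose tt K hK using key
  refine ⟨K, ?_, ?_, ?_, ?_, ?_, ?_⟩
  · intro f hf hmem
    exact rem_ne ((hK f hf).2.2.2.2.2.1 u hmem) (hoe f hf).1 rfl
  · intro f hf y hy hyu
    rw [(hoe f hf).2, Sym2.mem_iff] at hy
    rcases hy with h3 | h3
    · exact absurd h3 hyu
    · rw [h3]
      exact (hK f hf).2.2.2.1
  · intro f hf x hx y hy
    exact (((hK f hf).2.2.2.2.2.1 x hx).symm.trans ((hK f hf).2.2.2.2.2.1 y hy)).mono rem_le
      (le_refl _)
  · intro f hf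
    refine ⟨tt f, (hK f hf).2.2.2.2.1, ?_⟩
    have := hTB (hK f hf).1
    simpa [B] using this
  · intro f hf g hg hfg
    have hne : tt f ≠ tt g := by
      intro he
      apply hfg
      apply hoinj f hf g hg
      rw [← (hK f hf).2.1, ← (hK g hg).2.1, he]
    exact (h2 _ (hK f hf).1 _ (hK g hg).1 hne).mono (hK f hf).2.2.1 (hK g hg).2.2.1
  · intro f hf x hx hnl hxe
    have hx1 : x ≠ oe f := by
      rintro rfl
      apply hxe
      rw [(hoe f hf).2]
      simp
    have hx2 : x ≠ tt f := by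
      rintro rfl
      apply hnl
      have := hTB (hK f hf).1
      simpa [B] using this
    obtain ⟨y, hy, z, hz, hyz, hxy, hxz⟩ := (hK f hf).2.2.2.2.2.2 x hx hx1 hx2
    exact ⟨y, hy, z, hz, hyz, hxy.1, hxz.1⟩

end Pool.Agent.Work.MP_c4d05f_lc.Str
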