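import Pool.Agent.Work.MP_c4d05f_lc.N.Str.CoreEq

/-!
# Strips from a local frame (module `Final`, size M-L)

`π` from `exists_pi`, `core_eq`: the core is the set of the ends.
- `mem`, `inv`, `ne`: `exists_pi`.
- `tri`: `c` an end, `c ∉ L`: it has an end which is not of degree two; it is no leaf (`leaf_term`),
  so `Three u`, `D.st u = {c, a, b}` (`Three.triple`); `a`, `b` are ends, not in `L` (they have two
  neighbours in `D.st u`, `ht`); `π c ≠ a`: otherwise `rg c a`, against `no_loop`.
- `comp`: `v` not an end; `strip_cases`. `Strip D c v`: for `u` joined to `v` outside the core,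
  `Strip D c u` (`Con.mem_of_closed`, `strip_closed`; the vertices of the walk are not `c`, `π c`); `w` in the
  core, adjacent to `u`: `Strip D c w` and `w ∈ D.F`, so `rg c w` and `w = c` or `w = π c`. In the other
  case `D.st u₀ = {a, b, c}`; the walk stays in the component of `v` in `G - D.F` (an element of `D.F`
  adjacent to it is in `D.st u₀`, so in the core); so `w ∈ D.st u₀`. `a, b, c ∉ L` as before.
- `adj`: ends `c`, `d` adjacent: they share a node `x` (`PF.st_of_adj`), not a leaf; `Two x`: `rg c d`,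
  so `d = π c`; `Three x`: the third edge `b` at `x`.
-/

set_option autoImplicit false

namespace Pool.Agent.Work.MP_c4d05f_lc.Str

open Pool.Agent.Work.MP_5f857a_co.L (Con)
open Pool.Agent.Work.MP_c4d05f_lc.N (Clean)
open Pool.Agent.Work.MP_c4d05f_lc.Hav (Anti Apart)

variable {V : Type} {G : SimpleGraph V} {L : Set V} {D : PF G}

private theorem three_not_mem (ht : Term G L) {x : Option V} (hx : D.Three x) {f : V}
    (hf : f ∈ D.st x) : f ∉ L := by
  intro hfL
  obtain ⟨g, k, hgf, hkf, hgk, hst⟩ := hx.triple hf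
  have hg : g ∈ D.st x := by simp [hst]
  have hk : k ∈ D.st x := by simp [hst]
  exact hgk (ht f hfL g k (PF.adj_of_st hf hg hgf.symm) (PF.adj_of_st hf hk hkf.symm))

private theorem isEnd_of_three {x : Option V} (hx : D.Three x) {f : V}
    (hf : f ∈ D.st x) : IsEnd D f := ⟨hf.1, x, hf.2, fun h => h.not_three hx⟩

theorem strips_of_local [Finite V] (hc : Clean G) (ht : Term G L) (fr : D.Frame L) (hL : L ⊆ D.F)
    (hloc : Local D) : ∃ π : V → V, Strips G L π := by
  obtain ⟨π, hπ, huniq⟩ := exists_pi hc ht fr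
  have hcore : ∀ v, v ∈ core G L ↔ IsEnd D v := core_eq hc ht fr hL hloc
  refine ⟨π, ?_, ?_, ?_, ?_, ?_, ?_⟩
  · intro c hcc
    rw [hcore] at hcc ⊢
    exact (hπ c hcc).1
  · intro c hcc
    exact (hπ c ((hcore c).1 hcc)).2.1
  · intro c hcc
    exact (hπ c ((hcore c).1 hcc)).2.2.1
  · intro c hcc hcL
    have hce := (hcore c).1 hcc
    obtain ⟨hcF, x, hx, hx2⟩ := hce
    have hcx : c ∈ D.st x := ⟨hcF, hx⟩
    rcases PF.deg_cases hc ⟨c, hcx⟩ with h | h | h
    · exact absurd (leaf_term fr h hcx) hcL
    · exact absurd h hx2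
    · obtain ⟨a, b, hac, hbc, hab, hst⟩ := h.triple hcx
      have ha : a ∈ D.st x := by simp [hst]
      have hb : b ∈ D.st x := by simp [hst]
      have hrg := (hπ c ((hcore c).1 hcc)).2.2.2
      refine ⟨a, b, ⟨PF.adj_of_st hcx ha hac.symm, PF.adj_of_st hcx hb hbc.symm,
        PF.adj_of_st ha hb hab⟩, (hcore a).2 (isEnd_of_three h ha), three_not_mem ht h ha,
        (hcore b).2 (isEnd_of_three h hb), three_not_mem ht h hb, ?_, ?_⟩
      · intro he
        rw [he] at hrg
        exact no_loop hc ht fr h hcx ha hac.symm hrg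
      · intro he
        rw [he] at hrg
        exact no_loop hc ht fr h hcx hb hbc.symm hrg
  · intro v hv
    rcases strip_cases hc ht fr hloc v with ⟨c, hcc, hs⟩ | ⟨hvF, u₀, hu₀, hall⟩
    · right
      have hcC : c ∈ core G L := (hcore c).2 hcc
      have hpC : π c ∈ core G L := (hcore _).2 (hπ c hcc).1
      have hpi : ∀ d, IsEnd D d → D.rg c d → d = c ∨ d = π c := fun d hd h => huniq c d hcc hd h
      refine ⟨c, hcC, fun u w hcon hw hadj => ?_⟩
      have hstep : ∀ x y, x ∉ core G L → G.Adj x y → Strip D c x → Strip D c y := by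
        intro x y hx hxy hsx
        exact strip_closed hc ht fr hloc hcc hpi hsx (fun h => hx (h ▸ hcC))
          (fun h => hx (h ▸ hpC)) hxy
      have hu : Strip D c u := by
        refine Pool.Agent.Work.MP_5f857a_co.L.Con.mem_of_closed (P := fun x => Strip D c x) hcon hs ?_
        intro x y hx _ hxy hsx
        exact hstep x y hx hxy hsx
      have hw' : Strip D c w := hstep u w hcon.right hadj hu
      have hwe := (hcore w).1 hw
      rcases hw' with ⟨_, hr⟩ | ⟨hn, _⟩
      · exact hpi w hwe hr
      · exact absurd hwe.1 hn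
    · left
      obtain ⟨a, b, c, hab, hac, hbc, hst⟩ := hu₀
      have hu3 : D.Three u₀ := ⟨a, b, c, hab, hac, hbc, hst⟩
      have ha : a ∈ D.st u₀ := by simp [hst]
      have hb : b ∈ D.st u₀ := by simp [hst]
      have hc' : c ∈ D.st u₀ := by simp [hst]
      refine ⟨a, b, c, ⟨PF.adj_of_st ha hb hab, PF.adj_of_st ha hc' hac,
        PF.adj_of_st hb hc' hbc⟩, (hcore a).2 (isEnd_of_three hu3 ha), three_not_mem ht hu3 ha,
        (hcore b).2 (isEnd_of_three hu3 hb), three_not_mem ht hu3 hb,
        (hcore c).2 (isEnd_of_three hu3 hc'), three_not_mem ht hu3 hc', ?_⟩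
      intro u w hcon hw hadj
      have hu : Con G D.Fᶜ v u := by
        refine Pool.Agent.Work.MP_5f857a_co.L.Con.mem_of_closed (P := fun x => Con G D.Fᶜ v x) hcon
          (con_refl hvF) ?_
        intro x y _ hy hxy hvx
        have hyF : y ∉ D.F := by
          intro hyF
          exact hy ((hcore y).2 (isEnd_of_three hu3 (hall x y hvx hyF hxy)))
        exact hvx.trans (con_adj hxy hvx.right hyF)
      have hwe := (hcore w).1 hw
      have := hall u w hu hwe.1 hadj
      rw [hst] at this
      simpa using this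
  · intro c hcc d hdd hadj
    have hce := (hcore c).1 hcc
    have hde := (hcore d).1 hdd
    obtain ⟨x, hcx, hdx⟩ := PF.st_of_adj hce.1 hde.1 hadj
    rcases PF.deg_cases hc ⟨c, hcx⟩ with h | h | h
    · exact absurd (h.eq hcx hdx) hadj.ne
    · rcases huniq c d hce hde (PF.rg_of h hcx hdx) with h' | h'
      · exact absurd h'.symm hadj.ne
      · exact Or.inl h'
    · right
      refine ⟨three_not_mem ht h hcx, three_not_mem ht h hdx, ?_⟩
      obtain ⟨g, k, hgc, hkc, hgk, hst⟩ := h.triple hcx
      have hg : g ∈ D.st x := by simp [hst]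
      have hk : k ∈ D.st x := by simp [hst]
      have hd : d = g ∨ d = k := by
        have := hdx
        rw [hst] at this
        simp only [Set.mem_insert_iff, Set.mem_singleton_iff] at this
        rcases this with h1 | h1 | h1
        · exact absurd h1.symm hadj.ne
        · exact Or.inl h1
        · exact Or.inr h1
      rcases hd with rfl | rfl
      · exact ⟨k, (hcore k).2 (isEnd_of_three h hk), three_not_mem ht h hk, hadj,
          PF.adj_of_st hcx hk hkc.symm, PF.adj_of_st hg hk hgk⟩
      · exact ⟨g, (hcore g).2 (isEnd_of_three h hg), three_not_mem ht h hg, hadj,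
          PF.adj_of_st hcx hg hgc.symm, PF.adj_of_st hk hg hgk.symm⟩

end Pool.Agent.Work.MP_c4d05f_lc.Str
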