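import Pool.Agent.Work.MP_c4d05f_lc.N.Str.LegB

/-!
# Legs from Menger's theorem (module `Legs`, size M)

`trim`: induction on the walk from `u` to `d`: if a vertex of the tail is in `X` use the induction
hypothesis, otherwise the first vertex `u` is the only element of `X` and the support of the whole
walk is the leg (connected: initial segments of the walk, `Walk.takeUntil`).
`legs`: `Pool.Agent.Work.MP_5f857a_co.L.menger` with `A := X.toFinset` and `B :=` the set of the
leaves (`Option V` is finite; `classical`), then `trim` for each of the `k` sets and a bijection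
`Fin k ≃ T`.
-/

set_option autoImplicit false

namespace Pool.Agent.Work.MP_c4d05f_lc.Str

open Pool.Agent.Work.MP_5f857a_co.L (Con)
open Pool.Agent.Work.MP_c4d05f_lc.N (Clean)
open Pool.Agent.Work.MP_c4d05f_lc.Hav (Anti Apart)

variable {V : Type} {G : SimpleGraph V} {L : Set V} {D : PF G}

private theorem trim_walk {X : Set (Option V)} {u d : Option V} (w : D.H.Walk u d)
    (hX : ∃ y ∈ w.support, y ∈ X) (hd : D.Leaf d) :
    ∃ a, ∃ J' ⊆ {x | x ∈ w.support}, D.Leg X a J' := by
  classical
  induction w with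
  | @nil u =>
    obtain ⟨y, hy, hyX⟩ := hX
    have hyu : y = u := by simpa using hy
    subst hyu
    refine ⟨y, {y}, ?_, ?_⟩
    · intro x hx
      have hx' : x = y := hx
      subst hx'
      simp
    · exact ⟨hyX, fun x hx _ => hx, fun x hx => by
        have hx' : x = y := hx
        subst hx'
        exact con_refl (Set.mem_singleton _), y, Set.mem_singleton _, hd⟩
  | @cons u v d hadj w ih =>
    by_cases h1 : ∃ y ∈ w.support, y ∈ X
    · obtain ⟨a, J', hJ', hleg⟩ := ih h1 hd
      refine ⟨a, J', fun x hx => ?_, hleg⟩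
      have := hJ' hx
      simp only [Set.mem_ofPred_eq] at this
      simp only [Set.mem_ofPred_eq, SimpleGraph.Walk.support_cons, List.mem_cons]
      exact Or.inr this
    · obtain ⟨y, hy, hyX⟩ := hX
      have huX : u ∈ X := by
        rw [SimpleGraph.Walk.support_cons, List.mem_cons] at hy
        rcases hy with rfl | hy
        · exact hyX
        · exact absurd ⟨y, hy, hyX⟩ h1
      refine ⟨u, {x | x ∈ (SimpleGraph.Walk.cons hadj w).support}, fun x hx => hx, huX, ?_, ?_, ?_⟩
      · intro x hx hxX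
        rw [Set.mem_ofPred_eq, SimpleGraph.Walk.support_cons, List.mem_cons] at hx
        rcases hx with rfl | hx
        · rfl
        · exact absurd ⟨x, hx, hxX⟩ h1
      · intro x hx
        rw [Set.mem_ofPred_eq] at hx
        exact ⟨(SimpleGraph.Walk.cons hadj w).takeUntil x hx,
          fun z hz => SimpleGraph.Walk.support_takeUntil_subset_support _ hx hz⟩
      · exact ⟨d, SimpleGraph.Walk.end_mem_support _, hd⟩

theorem trim {X J : Set (Option V)} {u d : Option V} (h : Con D.H J u d) (hu : u ∈ X)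
    (hd : D.Leaf d) : ∃ a, ∃ J' ⊆ J, D.Leg X a J' := by
  obtain ⟨w, hw⟩ := h
  obtain ⟨a, J', hJ', hleg⟩ := trim_walk w ⟨u, w.start_mem_support, hu⟩ hd
  exact ⟨a, J', fun x hx => hw x (hJ' hx), hleg⟩

theorem legs [Finite V] (D : PF G) (X : Set (Option V)) (k : ℕ)
    (h : ∀ S : Finset (Option V), S.card < k →
      ∃ x ∈ X, ∃ d, D.Leaf d ∧ Con D.H (S : Set (Option V))ᶜ x d) :
    ∃ (a : Fin k → Option V) (J : Fin k → Set (Option V)), (∀ i, D.Leg X (a i) (J i)) ∧
      ∀ i j, i ≠ j → Disjoint (J i) (J j) := by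
  classical
  have : Fintype (Option V) := Fintype.ofFinite _
  obtain ⟨T, hTB, hTk, a, J, hJ, hdj⟩ := Pool.Agent.Work.MP_5f857a_co.L.menger D.H
    (Set.toFinite X).toFinset (Set.toFinite {d | D.Leaf d}).toFinset k (by
      intro S hS
      obtain ⟨x, hx, d, hd, hc⟩ := h S hS
      exact ⟨x, (Set.Finite.mem_toFinset _).2 hx, d, (Set.Finite.mem_toFinset _).2 hd, hc⟩)
  have hleg : ∀ t : T, ∃ b, ∃ J' ⊆ J t, D.Leg X b J' := by
    intro t
    obtain ⟨h1, h2⟩ := hJ t t.2
    exact trim h2 ((Set.Finite.mem_toFinset _).1 h1) ((Set.Finite.mem_toFinset (Set.toFinite {d | D.Leaf d})).1 (hTB t.2))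
  choose b J' hJ' hl using hleg
  let e : T ≃ Fin k := T.equivFinOfCardEq hTk
  refine ⟨fun i => b (e.symm i), fun i => J' (e.symm i), fun i => hl _, fun i j hij => ?_⟩
  have hne : ((e.symm i : T) : Option V) ≠ (e.symm j : T) := fun h' =>
    hij (e.symm.injective (Subtype.ext h'))
  exact (hdj _ (e.symm i).2 _ (e.symm j).2 hne).mono (hJ' _) (hJ' _)

end Pool.Agent.Work.MP_c4d05f_lc.Str
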