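import Pool.Agent.Work.MP_c4d05f_lc.N.Str.Star2

/-!
# Three legs at one vertex (module `LemA`, size M)

Each `a i` is special or an end of some `f ∈ Eit p`. An edge has only two ends and the `a i` are
three different nodes (the `J i` are disjoint), so after a permutation no `f ∈ Eit p` has both `a 2`
and one of `a 0`, `a 1` as ends (if `a i`, `a j` are the ends of the same `f`, the third one is not
an end of an edge item containing `a i` or `a j`, by `eit_apart`). `star2` for `a 0`, `a 1` with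
`U = ins (J 2)` if `a 2` is special (`leg_con'`), `U = insert f (ins (J 2))` if `a 2 ∈ D.e f`,
`f ∈ Eit p` (`leg_con`). The ends of edge items are in `src p`, so they are in `J i` only if they are
equal to `a i`.
-/

set_option autoImplicit false

namespace Pool.Agent.Work.MP_c4d05f_lc.Str

open Pool.Agent.Work.MP_5f857a_co.L (Con)
open Pool.Agent.Work.MP_c4d05f_lc.N (Clean)
open Pool.Agent.Work.MP_c4d05f_lc.Hav (Anti Apart)

variable {V : Type} {G : SimpleGraph V} {L : Set V} {D : PF G}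

private theorem lemA_aux (hc : Clean G) (ht : Term G L) (hn : NoStar G L) (fr : D.Frame L) {p : V}
    (hp : p ∉ D.F) {a₁ a₂ a₃ : Option V} {J₁ J₂ J₃ : Set (Option V)} (h1 : D.Leg (D.src p) a₁ J₁)
    (h2 : D.Leg (D.src p) a₂ J₂) (h3 : D.Leg (D.src p) a₃ J₃) (d12 : Disjoint J₁ J₂)
    (d13 : Disjoint J₁ J₃) (d23 : Disjoint J₂ J₃)
    (hk : ∀ f ∈ D.Eit p, a₃ ∈ D.e f → a₁ ∉ D.e f ∧ a₂ ∉ D.e f) : False := by
  obtain ⟨m3, d, hd, hcd⟩ := leg_leaf h3
  by_cases hs : D.Spec p a₃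
  · have hnl : ¬ D.Leaf a₃ := fun hl => hl.not_two hs.1
    obtain ⟨g, hg, hga, t, htL, hct⟩ := leg_con' fr hnl ⟨d, hd, hcd⟩
    have A3 : Arm G L p (D.ins J₃) :=
      arm_of (fun h => hp h.1) (hs.2 g ⟨hg.1, hga⟩) hct htL
    refine star2 hc ht hn fr hp h1 h2 d12 A3 (PF.anti_ins d13) (PF.anti_ins d23) ?_
    intro f hf _
    refine PF.apart_ins hf.1 fun x hx hxJ => ?_
    have := h3.only x hxJ (Or.inr ⟨f, hf, hx⟩)
    subst this
    exact hf.2.2 x hx hs
  · obtain ⟨f₃, he3, hf3⟩ : ∃ f₃ ∈ D.Eit p, a₃ ∈ D.e f₃ := by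
      rcases h3.mem with h | h
      · exact absurd h hs
      · exact h
    obtain ⟨t, htL, hct⟩ := leg_con (f := f₃) fr ⟨he3.1, hf3⟩ ⟨d, hd, hcd⟩
    have A3 : Arm G L p (insert f₃ (D.ins J₃)) := by
      refine arm_of ?_ he3.2.1 hct htL
      rintro (h | h)
      · exact hp (h ▸ he3.1)
      · exact hp h.1
    obtain ⟨hn1, hn2⟩ := hk f₃ he3 hf3
    have hx1 : ∀ x ∈ D.e f₃, x ∉ J₁ := by
      intro x hx hxJ
      have := h1.only x hxJ (Or.inr ⟨f₃, he3, hx⟩)
      subst this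
      exact hn1 hx
    have hx2 : ∀ x ∈ D.e f₃, x ∉ J₂ := by
      intro x hx hxJ
      have := h2.only x hxJ (Or.inr ⟨f₃, he3, hx⟩)
      subst this
      exact hn2 hx
    refine star2 hc ht hn fr hp h1 h2 d12 A3 ?_ ?_ ?_
    · exact anti_insert_right (fun v hv => ⟨(PF.apart_ins he3.1 hx1 v hv).1.symm,
        fun h => (PF.apart_ins he3.1 hx1 v hv).2 h.symm⟩) (PF.anti_ins d13)
    · exact anti_insert_right (fun v hv => ⟨(PF.apart_ins he3.1 hx2 v hv).1.symm,
        fun h => (PF.apart_ins he3.1 hx2 v hv).2 h.symm⟩) (PF.anti_ins d23)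
    · intro f hf hor u hu
      have hne : f ≠ f₃ := by
        rintro rfl
        rcases hor with h | h
        · exact hn1 h
        · exact hn2 h
      rcases hu with hu | hu
      · subst hu
        exact PF.apart_of hf.1 he3.1 fun x hx hx' =>
          eit_apart hc hp hf he3.1 he3.2.1 hne hx hx'
      · refine PF.apart_ins hf.1 (fun x hx hxJ => ?_) u hu
        have := h3.only x hxJ (Or.inr ⟨f, hf, hx⟩)
        subst this
        exact eit_apart hc hp hf he3.1 he3.2.1 hne hx hf3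

/-- if an edge item joins `a` and `b`, then no edge item joins the third node with one of them -/
private theorem lemA_pair (hc : Clean G) {p : V} (hp : p ∉ D.F) {a b c : Option V} (hab : a ≠ b)
    (hac : a ≠ c) (hbc : b ≠ c) {f : V} (hf : f ∈ D.Eit p) (ha : a ∈ D.e f) (hb : b ∈ D.e f) :
    ∀ g ∈ D.Eit p, c ∈ D.e g → a ∉ D.e g ∧ b ∉ D.e g := by
  intro g hg hcg
  have hcf : c ∉ D.e f := by
    intro h
    rw [PF.e_eq hf.1 ha hb hab, Sym2.mem_iff] at h
    rcases h with h | h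
    · exact hac h.symm
    · exact hbc h.symm
  have hne : f ≠ g := by
    rintro rfl
    exact hcf hcg
  exact ⟨fun h => eit_apart hc hp hf hg.1 hg.2.1 hne ha h,
    fun h => eit_apart hc hp hf hg.1 hg.2.1 hne hb h⟩

theorem lemA (hc : Clean G) (ht : Term G L) (hn : NoStar G L) (fr : D.Frame L) {p : V}
    (hp : p ∉ D.F) {a : Fin 3 → Option V} {J : Fin 3 → Set (Option V)}
    (h : ∀ i, D.Leg (D.src p) (a i) (J i)) (hd : ∀ i j, i ≠ j → Disjoint (J i) (J j)) :
    False := by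
  have hne : ∀ i j, i ≠ j → a i ≠ a j := by
    intro i j hij he
    have m1 := (leg_leaf (h i)).1
    have m2 := (leg_leaf (h j)).1
    rw [he] at m1
    exact Set.disjoint_left.1 (hd i j hij) m1 m2
  have n01 : (0 : Fin 3) ≠ 1 := by decide
  have n02 : (0 : Fin 3) ≠ 2 := by decide
  have n12 : (1 : Fin 3) ≠ 2 := by decide
  by_cases h01 : ∃ f ∈ D.Eit p, a 0 ∈ D.e f ∧ a 1 ∈ D.e f
  · obtain ⟨f, hf, h0, h1⟩ := h01
    exact lemA_aux hc ht hn fr hp (h 0) (h 1) (h 2) (hd _ _ n01) (hd _ _ n02) (hd _ _ n12)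
      (lemA_pair hc hp (hne _ _ n01) (hne _ _ n02) (hne _ _ n12) hf h0 h1)
  by_cases h02 : ∃ f ∈ D.Eit p, a 0 ∈ D.e f ∧ a 2 ∈ D.e f
  · obtain ⟨f, hf, h0, h2⟩ := h02
    exact lemA_aux hc ht hn fr hp (h 0) (h 2) (h 1) (hd _ _ n02) (hd _ _ n01) (hd _ _ n12.symm)
      (lemA_pair hc hp (hne _ _ n02) (hne _ _ n01) (hne _ _ n12.symm) hf h0 h2)
  refine lemA_aux hc ht hn fr hp (h 1) (h 2) (h 0) (hd _ _ n12) (hd _ _ n01.symm)
    (hd _ _ n02.symm) ?_
  intro f hf h0
  exact ⟨fun h1 => h01 ⟨f, hf, h0, h1⟩, fun h2 => h02 ⟨f, hf, h0, h2⟩⟩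

end Pool.Agent.Work.MP_c4d05f_lc.Str
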