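import Pool.Agent.Work.MP_c4d05f_lc.N.Str.Ext

/-!
# Adding a pendant path or an ear (module `PathX`, size M)

`pend`: induction on `n` (`ext` at the node `m` for `u 0`, at the node `some (u n)` for `u (n + 1)`;
`IndPath.mono` is in `MP_c4d05f_lc/SP.lean`; unfold `IndPath`): the neighbours of `u (n + 1)` in the
old frame `D.F ∪ {u 0, …, u n}` are exactly `u n`, and `some (u n)` is an end only of `u n`.
`ear`: `pend` for `n - 1`, then `close` between `some (u (n - 1))` and `m'` for `u n` (these nodes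
are not adjacent: an edge between them would be `u (n - 1)`, whose ends are `some (u (n - 1))` and
`m` or `some (u (n - 2))`; `m' ≠ m`, and `m'` is not one of the new nodes by `D.nm`).
-/

set_option autoImplicit false

namespace Pool.Agent.Work.MP_c4d05f_lc.Str

open Pool.Agent.Work.MP_5f857a_co.L (Con)
open Pool.Agent.Work.MP_c4d05f_lc.N (Clean)
open Pool.Agent.Work.MP_c4d05f_lc.Hav (Anti Apart)

variable {V : Type} {G : SimpleGraph V} {L : Set V} {D : PF G}

private theorem node_ne (D : PF G) {y : Option V} (hy : (D.st y).Nonempty) {v : V} (hv : v ∉ D.F) :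
    y ≠ some v := by
  rintro rfl
  obtain ⟨f, hf, hx⟩ := hy
  exact hv (D.nm f hf v hx)

private theorem edge_ne (D : PF G) {f v : V} (hf : f ∈ D.F) (hv : v ∉ D.F) : some v ∉ D.e f :=
  fun h => hv (D.nm f hf v h)

/-- The ends of the new edges. -/
private theorem new_ends {D' : PF G} {m : Option V} {n : ℕ} {u : ℕ → V}
    (h0 : D'.e (u 0) = s(m, some (u 0)))
    (h1 : ∀ i < n, D'.e (u (i + 1)) = s(some (u i), some (u (i + 1)))) (i : ℕ) (hi : i ≤ n)
    {y : Option V} (hy : y ∈ D'.e (u i)) : y = some (u i) ∨ (i = 0 ∧ y = m) ∨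
      ∃ j, i = j + 1 ∧ y = some (u j) := by
  rcases i with _ | i
  · rw [h0, Sym2.mem_iff] at hy
    rcases hy with rfl | rfl
    · exact Or.inr (Or.inl ⟨rfl, rfl⟩)
    · exact Or.inl rfl
  · rw [h1 i (by omega), Sym2.mem_iff] at hy
    rcases hy with rfl | rfl
    · exact Or.inr (Or.inr ⟨i, rfl, rfl⟩)
    · exact Or.inl rfl

private theorem self_end {D' : PF G} {m : Option V} {n : ℕ} {u : ℕ → V}
    (h0 : D'.e (u 0) = s(m, some (u 0)))
    (h1 : ∀ i < n, D'.e (u (i + 1)) = s(some (u i), some (u (i + 1)))) (i : ℕ) (hi : i ≤ n) :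
    some (u i) ∈ D'.e (u i) := by
  rcases i with _ | i
  · rw [h0]
    simp
  · rw [h1 i (by omega)]
    simp

private theorem ind_inj {n : ℕ} {u : ℕ → V} (hu : IndPath G n u) {i j : ℕ} (hi : i ≤ n)
    (hj : j ≤ n) (h : u i = u j) : i = j := by
  rcases lt_trichotomy i j with h1 | h1 | h1
  · exact absurd h (hu i j h1 hj).1
  · exact h1
  · exact absurd h.symm (hu j i h1 hi).1

/-- The last new node is only an end of the last new edge. -/
private theorem last_end {D' : PF G} {m : Option V} {n : ℕ} {u : ℕ → V}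
    (hu : IndPath G (n + 1) u) (hm : m ≠ some (u n)) (h0 : D'.e (u 0) = s(m, some (u 0)))
    (h1 : ∀ i < n, D'.e (u (i + 1)) = s(some (u i), some (u (i + 1)))) (i : ℕ) (hi : i ≤ n) :
    G.Adj (u (n + 1)) (u i) ↔ some (u n) ∈ D'.e (u i) := by
  rw [G.adj_comm, (hu i (n + 1) (by omega) le_rfl).2]
  constructor
  · intro h
    obtain rfl : n = i := by omega
    exact self_end h0 h1 n le_rfl
  · intro h
    rcases new_ends h0 h1 i hi h with h2 | ⟨_, h2⟩ | ⟨j, hj, h2⟩
    · rw [ind_inj hu (by omega) (by omega) (Option.some_injective _ h2)]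
    · exact absurd h2.symm hm
    · have := ind_inj hu (i := n) (j := j) (by omega) (by omega) (Option.some_injective _ h2)
      omega

/-- Add the pendant path `u 0, …, u n` at the node `m`. -/
theorem pend (D : PF G) {m : Option V} (hm : (D.st m).Nonempty) (n : ℕ) (u : ℕ → V)
    (hu : IndPath G n u) (huF : ∀ i ≤ n, u i ∉ D.F)
    (h0 : ∀ f ∈ D.F, G.Adj (u 0) f ↔ m ∈ D.e f)
    (h1 : ∀ i, 1 ≤ i → i ≤ n → ∀ f ∈ D.F, ¬ G.Adj (u i) f) :
    ∃ D' : PF G, D'.F = D.F ∪ {v | ∃ i ≤ n, v = u i} ∧ (∀ f ∈ D.F, D'.e f = D.e f) ∧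
      D'.e (u 0) = s(m, some (u 0)) ∧
      ∀ i < n, D'.e (u (i + 1)) = s(some (u i), some (u (i + 1))) := by
  induction n with
  | zero =>
    obtain ⟨D', hF, he, hp⟩ := ext D hm (huF 0 le_rfl) h0
    refine ⟨D', ?_, he, hp, fun i hi => absurd hi (by omega)⟩
    rw [hF]
    ext v
    simp only [Set.mem_insert_iff, Set.mem_union, Set.mem_ofPred_eq, Nat.le_zero_eq, exists_eq_left]
    tauto
  | succ n ih =>
    obtain ⟨D₁, hF, he, hp, hs⟩ := ih (fun i j hij hj => hu i j hij (hj.trans (Nat.le_succ n))) (fun i hi => huF i (by omega))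
      (fun i hi hi' => h1 i hi (by omega))
    have hmem : ∀ i ≤ n, u i ∈ D₁.F := fun i hi => by
      rw [hF]
      exact Or.inr ⟨i, hi, rfl⟩
    have hmn : ∀ i ≤ n + 1, m ≠ some (u i) := fun i hi => node_ne D hm (huF i hi)
    obtain ⟨D₂, hF2, he2, hp2⟩ := ext D₁ (x := some (u n)) (p := u (n + 1))
      ⟨u n, hmem n le_rfl, self_end hp hs n le_rfl⟩ (by
        rw [hF]
        rintro (h | ⟨i, hi, h⟩)
        · exact huF (n + 1) le_rfl h
        · have := ind_inj hu le_rfl (by omega) h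
          omega) (by
        intro f hf
        rw [hF] at hf
        rcases hf with hf | ⟨i, hi, rfl⟩
        · rw [he f hf]
          exact iff_of_false (h1 (n + 1) (by omega) le_rfl f hf) (edge_ne D hf (huF n (by omega)))
        · exact last_end hu (hmn n (by omega)) hp hs i hi)
    refine ⟨D₂, ?_, fun f hf => ?_, ?_, fun i hi => ?_⟩
    · rw [hF2, hF]
      ext v
      simp only [Set.mem_insert_iff, Set.mem_union, Set.mem_ofPred_eq]
      constructor
      · rintro (h | h | ⟨i, hi, h⟩)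
        · exact Or.inr ⟨n + 1, le_rfl, h⟩
        · exact Or.inl h
        · exact Or.inr ⟨i, by omega, h⟩
      · rintro (h | ⟨i, hi, h⟩)
        · exact Or.inr (Or.inl h)
        · rcases Nat.lt_or_ge n i with h' | h'
          · obtain rfl : i = n + 1 := by omega
            exact Or.inl h
          · exact Or.inr (Or.inr ⟨i, h', h⟩)
    · rw [he2 f (by rw [hF]; exact Or.inl hf), he f hf]
    · rw [he2 _ (hmem 0 (by omega)), hp]
    · rcases Nat.lt_or_ge i n with h' | h'
      · rw [he2 _ (hmem (i + 1) (by omega)), hs i h']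
      · obtain rfl : i = n := by omega
        exact hp2

/-- Add the ear `u 0, …, u n` (`n ≥ 1`) between the nodes `m` and `m'`. -/
theorem ear (D : PF G) {m m' : Option V} (hm : (D.st m).Nonempty) (hm' : (D.st m').Nonempty)
    (hmm : m ≠ m') (n : ℕ) (hn : 1 ≤ n) (u : ℕ → V)
    (hu : IndPath G n u) (huF : ∀ i ≤ n, u i ∉ D.F)
    (h0 : ∀ f ∈ D.F, G.Adj (u 0) f ↔ m ∈ D.e f)
    (hl : ∀ f ∈ D.F, G.Adj (u n) f ↔ m' ∈ D.e f)
    (h1 : ∀ i, 1 ≤ i → i < n → ∀ f ∈ D.F, ¬ G.Adj (u i) f) :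
    ∃ D' : PF G, D'.F = D.F ∪ {v | ∃ i ≤ n, v = u i} ∧ (∀ f ∈ D.F, D'.e f = D.e f) ∧
      D'.e (u 0) = s(m, some (u 0)) ∧
      (∀ i, i + 1 < n → D'.e (u (i + 1)) = s(some (u i), some (u (i + 1)))) ∧
      D'.e (u n) = s(some (u (n - 1)), m') := by
  obtain ⟨n, rfl⟩ : ∃ k, n = k + 1 := ⟨n - 1, by omega⟩
  obtain ⟨D₁, hF, he, hp, hs⟩ := pend D hm n u (fun i j hij hj => hu i j hij (hj.trans (Nat.le_succ n)))
    (fun i hi => huF i (by omega)) h0 (fun i hi hi' => h1 i hi (by omega))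
  have hmem : ∀ i ≤ n, u i ∈ D₁.F := fun i hi => by
    rw [hF]
    exact Or.inr ⟨i, hi, rfl⟩
  have hmn : ∀ i ≤ n + 1, m ≠ some (u i) := fun i hi => node_ne D hm (huF i hi)
  have hmn' : ∀ i ≤ n + 1, m' ≠ some (u i) := fun i hi => node_ne D hm' (huF i hi)
  have hnot : ∀ i ≤ n, m' ∉ D₁.e (u i) := by
    intro i hi h
    rcases new_ends hp hs i hi h with h2 | ⟨_, h2⟩ | ⟨j, hj, h2⟩
    · exact hmn' i (by omega) h2
    · exact hmm h2.symm
    · exact hmn' j (by omega) h2
  obtain ⟨D₂, hF2, he2, hp2⟩ := close D₁ (x := some (u n)) (y := m') (p := u (n + 1))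
    ⟨u n, hmem n le_rfl, self_end hp hs n le_rfl⟩ (by
      obtain ⟨f, hf, hx⟩ := hm'
      exact ⟨f, by rw [hF]; exact Or.inl hf, by rw [he f hf]; exact hx⟩)
    (hmn' n (by omega)).symm (by
      rintro ⟨_, f, hf, hx, hy⟩
      rw [hF] at hf
      rcases hf with hf | ⟨i, hi, rfl⟩
      · rw [he f hf] at hx
        exact edge_ne D hf (huF n (by omega)) hx
      · exact hnot i hi hy) (by
      rw [hF]
      rintro (h | ⟨i, hi, h⟩)
      · exact huF (n + 1) le_rfl h
      · have := ind_inj hu le_rfl (by omega) h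
        omega) (by
      intro f hf
      rw [hF] at hf
      rcases hf with hf | ⟨i, hi, rfl⟩
      · rw [he f hf, hl f hf]
        exact ⟨Or.inr, fun h => h.resolve_left (edge_ne D hf (huF n (by omega)))⟩
      · rw [last_end hu (hmn n (by omega)) hp hs i hi]
        exact ⟨Or.inl, fun h => h.resolve_right (hnot i hi)⟩)
  refine ⟨D₂, ?_, fun f hf => ?_, ?_, fun i hi => ?_, ?_⟩
  · rw [hF2, hF]
    ext v
    simp only [Set.mem_insert_iff, Set.mem_union, Set.mem_ofPred_eq]
    constructor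
    · rintro (h | h | ⟨i, hi, h⟩)
      · exact Or.inr ⟨n + 1, le_rfl, h⟩
      · exact Or.inl h
      · exact Or.inr ⟨i, by omega, h⟩
    · rintro (h | ⟨i, hi, h⟩)
      · exact Or.inr (Or.inl h)
      · rcases Nat.lt_or_ge n i with h' | h'
        · obtain rfl : i = n + 1 := by omega
          exact Or.inl h
        · exact Or.inr (Or.inr ⟨i, h', h⟩)
  · rw [he2 f (by rw [hF]; exact Or.inl hf), he f hf]
  · rw [he2 _ (hmem 0 (by omega)), hp]
  · rw [he2 _ (hmem (i + 1) (by omega)), hs i (by omega)]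
  · exact hp2

end Pool.Agent.Work.MP_c4d05f_lc.Str
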