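import Pool.Agent.Work.MP_c4d05f_lc.N.Str.K
import Pool.Agent.Work.MP_c4d05f_lc.N.Str.LegB

/-!
# The star lemma (module `Star2`, size M)

Since `J₁`, `J₂` contain only one element of `src p` each: no `g ∈ D.F` adjacent to `p` is in
`ins J₁` (if `g ∈ Eit p` both its ends are in `src p`; otherwise (`eit_or_spec`) some `m ∈ D.e g` is
special, `m = a₁`; this is possible only if `a₁` is special) and the same for `J₂`.
- `a₁` special (then `a₂` is not special by `spec_unique`, so `a₂ ∈ D.e f₂`, `f₂ ∈ Eit p`): centre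
  `p`, `U₁ = ins J₁` (`leg_con'`: `a₁` is no leaf, the first edge is at `a₁`, so adjacent to `p`),
  `U₂ = insert f₂ (ins J₂)` (`leg_con`), `U₃ = U`. The other end of `f₂` is in `src p`, not in `J₂`, and
  not in `J₁` (it would be `a₁`, special, against `f₂ ∈ Eit p`). `PF.apart_ins'`, `PF.anti_ins`.
- `a₂` special: symmetric.
- `a₁ ∈ D.e f₁`, `a₂ ∈ D.e f₂` with `f₁, f₂ ∈ Eit p`, `f₁ ≠ f₂`: centre `p`,
  `Uᵢ = insert fᵢ (ins Jᵢ)`; `f₁`, `f₂` have no common end (`eit_apart`), the other end of `f₁` is not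
  in `J₂` (it would be `a₂`).
- `f₁ = f₂ = f`, `D.e f = s(a₁, a₂)`: centre `f`, `U₁ = ins J₁`, `U₂ = ins J₂` (`a₁`, `a₂` are no leaves
  by `eit_not_leaf`, `leg_con'`), `U₃ = insert p U`.
-/

set_option autoImplicit false

namespace Pool.Agent.Work.MP_c4d05f_lc.Str

open Pool.Agent.Work.MP_5f857a_co.L (Con)
open Pool.Agent.Work.MP_c4d05f_lc.N (Clean)
open Pool.Agent.Work.MP_c4d05f_lc.Hav (Anti Apart)

variable {V : Type} {G : SimpleGraph V} {L : Set V} {D : PF G}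

private theorem star2_noadj (hc : Clean G) {p : V} {a : Option V} {J : Set (Option V)}
    (h : D.Leg (D.src p) a J) {g : V} (hg : g ∈ D.ins J) (hpg : G.Adj p g) : D.Spec p a := by
  rcases eit_or_spec hg.1 hpg with h1 | ⟨m, hm, hs⟩
  · exfalso
    obtain ⟨x, y, hxy, he⟩ := PF.ends hg.1
    have hx : x ∈ D.e g := by simp [he]
    have hy : y ∈ D.e g := by simp [he]
    have e1 := h.only x (hg.2 x hx) (Or.inr ⟨g, h1, hx⟩)
    have e2 := h.only y (hg.2 y hy) (Or.inr ⟨g, h1, hy⟩)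
    exact hxy (e1.trans e2.symm)
  · have e1 := h.only m (hg.2 m hm) (Or.inl hs)
    exact e1 ▸ hs

private theorem apart_symm' {a b : V} (h : Apart G a b) : Apart G b a :=
  ⟨h.1.symm, fun h' => h.2 h'.symm⟩

/-- the case `a₁` special -/
private theorem star2_spec (hc : Clean G) (hn : NoStar G L) (fr : D.Frame L) {p : V}
    (hp : p ∉ D.F) {a₁ a₂ : Option V} {J₁ J₂ : Set (Option V)} (h1 : D.Leg (D.src p) a₁ J₁)
    (h2 : D.Leg (D.src p) a₂ J₂) (hd : Disjoint J₁ J₂) {U : Set V} (hU : Arm G L p U)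
    (hU1 : Anti G (D.ins J₁) U) (hU2 : Anti G (D.ins J₂) U)
    (hf : ∀ f ∈ D.Eit p, (a₁ ∈ D.e f ∨ a₂ ∈ D.e f) → ∀ u ∈ U, Apart G f u)
    (hs : D.Spec p a₁) : False := by
  obtain ⟨m1, d1, hd1, hc1⟩ := leg_leaf h1
  obtain ⟨m2, d2, hd2, hc2⟩ := leg_leaf h2
  have hne : a₁ ≠ a₂ := by
    intro he
    exact Set.disjoint_left.1 hd m1 (he ▸ m2)
  have ha2 : ∃ f₂ ∈ D.Eit p, a₂ ∈ D.e f₂ := by
    rcases h2.mem with h | h
    · exact absurd (spec_unique hc hs h) hne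
    · exact h
  obtain ⟨f₂, he2, hf2⟩ := ha2
  have hnl : ¬ D.Leaf a₁ := fun hl => hl.not_two hs.1
  obtain ⟨g, hg, hga, t, htL, hct⟩ := leg_con' fr hnl ⟨d1, hd1, hc1⟩
  have A1 : Arm G L p (D.ins J₁) :=
    arm_of (fun h => hp h.1) (hs.2 g ⟨hg.1, hga⟩) hct htL
  obtain ⟨t2, ht2L, hct2⟩ := leg_con (f := f₂) fr ⟨he2.1, hf2⟩ ⟨d2, hd2, hc2⟩
  have A2 : Arm G L p (insert f₂ (D.ins J₂)) := by
    refine arm_of ?_ he2.2.1 hct2 ht2L
    rintro (h | h)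
    · exact hp (h ▸ he2.1)
    · exact hp h.1
  have hap : ∀ g ∈ D.ins J₁, Apart G f₂ g := by
    refine PF.apart_ins he2.1 fun x hx hxJ => ?_
    have := h1.only x hxJ (Or.inr ⟨f₂, he2, hx⟩)
    subst this
    exact he2.2.2 x hx hs
  refine hn p _ _ _ A1 A2 hU ?_ hU1 ?_
  · exact anti_insert_right (fun v hv => apart_symm' (hap v hv)) (PF.anti_ins hd)
  · exact anti_insert (hf f₂ he2 (Or.inr hf2)) hU2

theorem star2 (hc : Clean G) (ht : Term G L) (hn : NoStar G L) (fr : D.Frame L) {p : V}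
    (hp : p ∉ D.F) {a₁ a₂ : Option V} {J₁ J₂ : Set (Option V)} (h1 : D.Leg (D.src p) a₁ J₁)
    (h2 : D.Leg (D.src p) a₂ J₂) (hd : Disjoint J₁ J₂) {U : Set V} (hU : Arm G L p U)
    (hU1 : Anti G (D.ins J₁) U) (hU2 : Anti G (D.ins J₂) U)
    (hf : ∀ f ∈ D.Eit p, (a₁ ∈ D.e f ∨ a₂ ∈ D.e f) → ∀ u ∈ U, Apart G f u) : False := by
  by_cases hs1 : D.Spec p a₁
  · exact star2_spec hc hn fr hp h1 h2 hd hU hU1 hU2 hf hs1
  by_cases hs2 : D.Spec p a₂
  · exact star2_spec hc hn fr hp h2 h1 hd.symm hU hU2 hU1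
      (fun f hfe h => hf f hfe (Or.symm h)) hs2
  obtain ⟨m1, d1, hd1, hc1⟩ := leg_leaf h1
  obtain ⟨m2, d2, hd2, hc2⟩ := leg_leaf h2
  have hne : a₁ ≠ a₂ := by
    intro he
    exact Set.disjoint_left.1 hd m1 (he ▸ m2)
  obtain ⟨f₁, he1, hf1⟩ : ∃ f₁ ∈ D.Eit p, a₁ ∈ D.e f₁ := by
    rcases h1.mem with h | h
    · exact absurd h hs1
    · exact h
  obtain ⟨f₂, he2, hf2⟩ : ∃ f₂ ∈ D.Eit p, a₂ ∈ D.e f₂ := by
    rcases h2.mem with h | h
    · exact absurd h hs2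
    · exact h
  by_cases hff : f₁ = f₂
  · subst hff
    obtain ⟨g1, hg1, hga1, t1, ht1, hct1⟩ := leg_con' fr (eit_not_leaf ht fr hp he1 hf1)
      ⟨d1, hd1, hc1⟩
    obtain ⟨g2, hg2, hga2, t2, ht2, hct2⟩ := leg_con' fr (eit_not_leaf ht fr hp he1 hf2)
      ⟨d2, hd2, hc2⟩
    have hn1 : f₁ ∉ D.ins J₁ := fun h => Set.disjoint_left.1 hd (h.2 a₂ hf2) m2
    have hn2 : f₁ ∉ D.ins J₂ := fun h => Set.disjoint_left.1 hd m1 (h.2 a₁ hf1)
    have A1 : Arm G L f₁ (D.ins J₁) :=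
      arm_of hn1 (PF.adj_of_st ⟨he1.1, hf1⟩ ⟨hg1.1, hga1⟩ (fun h => hn1 (h ▸ hg1))) hct1 ht1
    have A2 : Arm G L f₁ (D.ins J₂) :=
      arm_of hn2 (PF.adj_of_st ⟨he1.1, hf2⟩ ⟨hg2.1, hga2⟩ (fun h => hn2 (h ▸ hg2))) hct2 ht2
    obtain ⟨hpU, t, htL, htU, hct⟩ := hU
    have A3 : Arm G L f₁ (insert p U) := by
      refine arm_of ?_ he1.2.1.symm hct htL
      rintro (h | h)
      · exact hp (h ▸ he1.1)
      · exact (hf f₁ he1 (Or.inl hf1) f₁ h).1 rfl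
    refine hn f₁ _ _ _ A1 A2 A3 (PF.anti_ins hd) ?_ ?_
    · refine anti_insert_right (fun v hv => ⟨?_, ?_⟩) hU1
      · rintro rfl
        exact hp hv.1
      · intro hadj
        exact hs1 (star2_noadj hc h1 hv hadj.symm)
    · refine anti_insert_right (fun v hv => ⟨?_, ?_⟩) hU2
      · rintro rfl
        exact hp hv.1
      · intro hadj
        exact hs2 (star2_noadj hc h2 hv hadj.symm)
  · obtain ⟨t1, ht1L, hct1⟩ := leg_con (f := f₁) fr ⟨he1.1, hf1⟩ ⟨d1, hd1, hc1⟩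
    obtain ⟨t2, ht2L, hct2⟩ := leg_con (f := f₂) fr ⟨he2.1, hf2⟩ ⟨d2, hd2, hc2⟩
    have A1 : Arm G L p (insert f₁ (D.ins J₁)) := by
      refine arm_of ?_ he1.2.1 hct1 ht1L
      rintro (h | h)
      · exact hp (h ▸ he1.1)
      · exact hp h.1
    have A2 : Arm G L p (insert f₂ (D.ins J₂)) := by
      refine arm_of ?_ he2.2.1 hct2 ht2L
      rintro (h | h)
      · exact hp (h ▸ he2.1)
      · exact hp h.1
    have hap12 : Apart G f₁ f₂ :=
      PF.apart_of he1.1 he2.1 fun x hx hx' => eit_apart hc hp he1 he2.1 he2.2.1 hff hx hx'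
    have hap1 : ∀ g ∈ D.ins J₂, Apart G f₁ g := by
      refine PF.apart_ins he1.1 fun x hx hxJ => ?_
      have := h2.only x hxJ (Or.inr ⟨f₁, he1, hx⟩)
      subst this
      exact eit_apart hc hp he1 he2.1 he2.2.1 hff hx hf2
    have hap2 : ∀ g ∈ D.ins J₁, Apart G f₂ g := by
      refine PF.apart_ins he2.1 fun x hx hxJ => ?_
      have := h1.only x hxJ (Or.inr ⟨f₂, he2, hx⟩)
      subst this
      exact eit_apart hc hp he1 he2.1 he2.2.1 hff hf1 hx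
    refine hn p _ _ _ A1 A2 hU ?_ (anti_insert (hf f₁ he1 (Or.inl hf1)) hU1)
      (anti_insert (hf f₂ he2 (Or.inr hf2)) hU2)
    refine anti_insert ?_ ?_
    · rintro v (h | h)
      · exact h ▸ hap12
      · exact hap1 v h
    · exact anti_insert_right (fun v hv => apart_symm' (hap2 v hv)) (PF.anti_ins hd)

end Pool.Agent.Work.MP_c4d05f_lc.Str
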